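import Mathlib
import Pool.Agent.H330.Tree
import Pool.Agent.H330.Block

open Cardinal Set

universe u

namespace Pool.Agent.Run7.h584.NS

open Pool.Agent.H330

variable {V L Γ : Type u} [LinearOrder V] [LinearOrder L] {D : V → V → L}

lemma four_card {a b c d : V} (h1 : a < b) (h2 : b < c) (h3 : c < d) :
    ({a, b, c, d} : Finset V).card = 4 := by
  rw [Finset.card_insert_of_notMem (by simp [h1.ne, (h1.trans h2).ne, (h1.trans (h2.trans h3)).ne]),
    Finset.card_insert_of_notMem (by simp [h2.ne, (h2.trans h3).ne]),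
    Finset.card_insert_of_notMem (by simp [h3.ne]), Finset.card_singleton]

lemma four_sub {a b c d : V} {H : Set V} (ha : a ∈ H) (hb : b ∈ H) (hc : c ∈ H) (hd : d ∈ H) :
    (↑({a, b, c, d} : Finset V) : Set V) ⊆ H := by
  intro v hv
  simp only [Finset.coe_insert, Finset.coe_singleton, Set.mem_insert_iff,
    Set.mem_singleton_iff] at hv
  rcases hv with rfl | rfl | rfl | rfl <;> assumption

/-- sorting three different points -/
lemma sort3 (x y z : V) (hxy : x ≠ y) (hxz : x ≠ z) (hyz : y ≠ z) :
    ∃ p q r, p < q ∧ q < r ∧ ∀ v, (v = p ∨ v = q ∨ v = r) ↔ (v = x ∨ v = y ∨ v = z) := by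
  rcases lt_or_gt_of_ne hxy with h1 | h1 <;> rcases lt_or_gt_of_ne hxz with h2 | h2 <;>
    rcases lt_or_gt_of_ne hyz with h3 | h3
  · exact ⟨x, y, z, h1, h3, fun v => Iff.rfl⟩
  · exact ⟨x, z, y, h2, h3, fun v => by tauto⟩
  · exact absurd (h1.trans h3) (lt_asymm h2)
  · exact ⟨z, x, y, h2, h1, fun v => by tauto⟩
  · exact ⟨y, x, z, h1, h2, fun v => by tauto⟩
  · exact absurd (h2.trans h3) (lt_asymm h1)
  · exact ⟨y, z, x, h3, h2, fun v => by tauto⟩
  · exact ⟨z, y, x, h3, h1, fun v => by tauto⟩

/-- The colour `c1` part for an entry at least `5`: no `BT`-set in a `c1`-homogeneous set with at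
least six points. -/
lemma six_c1 (hD : TreeDist D) {c0 c1 : Γ} (hne : c1 ≠ c0) {Θ : Type u} [LinearOrder Θ]
    (bl : L → Θ) {f : Finset L → Γ}
    (hf1 : ∀ (a b c d : L), a < b → b < c → c < d → bl a < bl b →
      f {a, b, c} = c1 → f {a, b, d} = c1 → f {a, c, d} = c1 → f {b, c, d} = c1 → False)
    {h : Finset V → Γ} (hh : ∀ e, ¬ BT bl D e → h e = c0) {H : Set V}
    (hhom : ∀ e : Finset V, e.card = 4 → (↑e : Set V) ⊆ H → gcol D f h e = c1)
    (h6 : ((6 : ℕ) : Cardinal) ≤ #H) (e : Finset V) (he4 : e.card = 4) (heH : (↑e : Set V) ⊆ H) :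
    Comb D (↑e : Set V) := by
  classical
  have key : ∀ e : Finset V, e.card = 4 → (↑e : Set V) ⊆ H → ¬ BT bl D e → Comb D (↑e : Set V) := by
    intro e h4 hH hn
    by_contra hc
    have := hhom e h4 hH
    rw [gcol_eq_of_not_comb hc, hh e hn] at this
    exact hne this.symm
  have key2 : ∀ s p q r : V, s ∈ H → p ∈ H → q ∈ H → r ∈ H → s ≠ p → s ≠ q → s ≠ r → p ≠ q →
      p ≠ r → q ≠ r → D s p = D s q → D s p = D s r →
      Comb D (↑({s, p, q, r} : Finset V) : Set V) := by
    intro s p q r hs hp hq hr h1 h2 h3 h4 h5 h6 e1 e2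
    refine key _ ?_ (four_sub hs hp hq hr) ?_
    · rw [Finset.card_insert_of_notMem (by simp [h1, h2, h3]),
        Finset.card_insert_of_notMem (by simp [h4, h5]), Finset.card_insert_of_notMem (by simp [h6]),
        Finset.card_singleton]
    · intro hBT
      obtain ⟨u, hu, v, hv, hus, hvs, huv⟩ := hBT.nc hD (s := s) (by simp)
      have hu' : u = p ∨ u = q ∨ u = r := by
        have : u = s ∨ u = p ∨ u = q ∨ u = r := by simpa using hu
        tauto
      have hv' : v = p ∨ v = q ∨ v = r := by
        have : v = s ∨ v = p ∨ v = q ∨ v = r := by simpa using hv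
        tauto
      apply huv
      have e3 : D s u = D s p := by
        rcases hu' with rfl | rfl | rfl
        · rfl
        · exact e1.symm
        · exact e2.symm
      have e4 : D s v = D s p := by
        rcases hv' with rfl | rfl | rfl
        · rfl
        · exact e1.symm
        · exact e2.symm
      rw [e3, e4]
  by_contra hncomb
  have hBT : BT bl D e := by
    by_contra hn
    exact hncomb (key e he4 heH hn)
  -- two more points
  obtain ⟨E, heE, hEH, hE6⟩ := ext_set heH (n := 6) (by omega) h6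
  obtain ⟨a, b, c, d, rfl, hT⟩ := hBT
  have haH : a ∈ H := heH (by simp)
  have hbH : b ∈ H := heH (by simp)
  have hcH : c ∈ H := heH (by simp)
  have hdH : d ∈ H := heH (by simp)
  have hcard : (E \ {a, b, c, d}).card = 2 := by
    rw [Finset.card_sdiff_of_subset heE, hE6, he4]
  obtain ⟨s, t, hst, hst'⟩ := Finset.card_eq_two.mp hcard
  have hsE : s ∈ E \ {a, b, c, d} := by rw [hst']; simp
  have htE : t ∈ E \ {a, b, c, d} := by rw [hst']; simp
  have hsH : s ∈ H := hEH (Finset.mem_sdiff.mp hsE).1
  have htH : t ∈ H := hEH (Finset.mem_sdiff.mp htE).1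
  have hs : s ≠ a ∧ s ≠ b ∧ s ≠ c ∧ s ≠ d := by
    have := (Finset.mem_sdiff.mp hsE).2
    simpa using this
  have ht : t ≠ a ∧ t ≠ b ∧ t ≠ c ∧ t ≠ d := by
    have := (Finset.mem_sdiff.mp htE).2
    simpa using this
  rcases hT with hA | hP
  · obtain ⟨hsa, hsb, hsc, hsd⟩ := hs
    obtain ⟨hab, hbc, hcd, h1, h2, h3, h4, h6⟩ := hA
    have hac : a < c := hab.trans hbc
    have hbd : b < d := hbc.trans hcd
    rcases hD.tri hsa hsb hab.ne with ⟨h7, h8⟩ | ⟨h7, h8⟩ | ⟨h7, h8⟩
    · have e1 : D s c = D s a := by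
        have : D a s < D a c := by rw [hD.symm a s]; exact h8.trans h1
        exact (hD.iso a s c hsa.symm hac.ne hsc this).trans (hD.symm a s)
      have hcb := key2 s a b c hsH haH hbH hcH hsa hsb hsc hab.ne hac.ne hbc.ne h7 e1.symm
      have := hcb a (by simp) b (by simp) c (by simp) hab hbc
      rw [h3] at this
      exact lt_irrefl _ this
    · have e1 : D c s = D a b := by
        have : D a s < D a c := by rw [hD.symm a s, h7]; exact h1
        have := hD.iso a s c hsa.symm hac.ne hsc this
        rw [hD.symm c s, this, hD.symm a s, h7]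
      have e2 : D c b = D a b := by rw [hD.symm]; exact h3
      have hcb := key2 c b d s hcH hbH hdH hsH hbc.ne' hcd.ne hsc.symm hbd.ne hsb.symm hsd.symm
        (by rw [e2, h6]) (by rw [e2, e1])
      have := hcb b (by simp) c (by simp) d (by simp) hbc hcd
      rw [h3, h6] at this
      exact lt_irrefl _ this
    · have e1 : D b s = D a b := by rw [hD.symm b s, h7]
      have e2 : D b a = D a b := hD.symm _ _
      have hcb := key2 b a c s hbH haH hcH hsH hab.ne' hbc.ne hsb.symm hac.ne hsa.symm hsc.symm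
        (by rw [e2, h3]) (by rw [e2, e1])
      have := hcb a (by simp) b (by simp) c (by simp) hab hbc
      rw [h3] at this
      exact lt_irrefl _ this
  · obtain ⟨hab, hbc, hcd, h1, h2, h3, h4, h6, h9⟩ := hP
    have hac : a < c := hab.trans hbc
    have hbd : b < d := hbc.trans hcd
    have had : a < d := hab.trans hbd
    -- every further point joins `{c, d}` and is above `b`
    have join : ∀ s ∈ H, s ≠ a → s ≠ b → s ≠ c → s ≠ d →
        b < s ∧ D a s = D a c ∧ D b s = D a c ∧ D a c < D c s ∧ D a c < D d s := by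
      intro s hsH hsa hsb hsc hsd
      rcases hD.tri hsa hsc hac.ne with ⟨h7, h8⟩ | ⟨h7, h8⟩ | ⟨h7, h8⟩
      · exfalso
        have e1 : D s b = D s a := by
          have : D a s < D a b := by rw [hD.symm a s]; exact h8.trans h1
          exact (hD.iso a s b hsa.symm hab.ne hsb this).trans (hD.symm a s)
        have hcb := key2 s a b c hsH haH hbH hcH hsa hsb hsc hab.ne hac.ne hbc.ne e1.symm h7
        have := hcb a (by simp) b (by simp) c (by simp) hab hbc
        rw [h3] at this
        exact lt_asymm this h1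
      · have e1 : D a s = D a c := by rw [hD.symm a s, h7]
        have e2 : D b s = D a c := by
          have : D a s < D a b := by rw [e1]; exact h1
          have := hD.iso a s b hsa.symm hab.ne hsb this
          rw [hD.symm b s, this, e1]
        have hcs : D a c < D c s := by rw [hD.symm c s, ← h7]; exact h8
        have hds : D a c < D d s := hD.ultra hcd.ne hsc.symm hsd.symm h2 hcs
        have hcb' := key2 b c d s hbH hcH hdH hsH hbc.ne hbd.ne hsb.symm hcd.ne hsc.symm hsd.symm
          (by rw [h3, h6]) (by rw [h3, e2])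
        have hbs : b < s := by
          rcases lt_or_gt_of_ne hsb with h | h
          · exfalso
            have := hcb' s (by simp) b (by simp) c (by simp) h hbc
            rw [hD.symm s b, e2, h3] at this
            exact lt_irrefl _ this
          · exact h
        exact ⟨hbs, e1, e2, hcs, hds⟩
      · exfalso
        have e1 : D c s = D a c := by rw [hD.symm c s, h7]
        have e2 : D c a = D a c := hD.symm _ _
        have e3 : D c b = D a c := by rw [hD.symm c b, h3]
        have hcb := key2 c a b s hcH haH hbH hsH hac.ne' hbc.ne' hsc.symm hab.ne hsa.symm hsb.symm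
          (by rw [e2, e3]) (by rw [e2, e1])
        have := hcb a (by simp) b (by simp) c (by simp) hab hbc
        rw [h3] at this
        exact lt_asymm this h1
    obtain ⟨hbs, js1, js2, js3, js4⟩ := join s hsH hs.1 hs.2.1 hs.2.2.1 hs.2.2.2
    obtain ⟨hbt, jt1, jt2, jt3, jt4⟩ := join t htH ht.1 ht.2.1 ht.2.2.1 ht.2.2.2
    -- the four points `c, d, s, t`
    set Q : Finset V := {c, d, s, t} with hQ
    have hQcard : Q.card = 4 := by
      rw [hQ, Finset.card_insert_of_notMem (by
          simp [hcd.ne, hs.2.2.1.symm, ht.2.2.1.symm]),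
        Finset.card_insert_of_notMem (by simp [hs.2.2.2.symm, ht.2.2.2.symm]),
        Finset.card_insert_of_notMem (by simp [hst]), Finset.card_singleton]
    have hQp : ∀ q ∈ Q, q ∈ H ∧ b < q ∧ D a q = D a c ∧ D b q = D a c := by
      intro q hq
      have : q = c ∨ q = d ∨ q = s ∨ q = t := by simpa [hQ] using hq
      rcases this with rfl | rfl | rfl | rfl
      · exact ⟨hcH, hbc, rfl, h3⟩
      · exact ⟨hdH, hbd, h4, h6⟩
      · exact ⟨hsH, hbs, js1, js2⟩
      · exact ⟨htH, hbt, jt1, jt2⟩
    set g := Q.orderEmbOfFin hQcard with hg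
    have hgQ : ∀ i, g i ∈ Q := fun i => Q.orderEmbOfFin_mem hQcard i
    have hglt : ∀ i j : Fin 4, i < j → g i < g j := fun i j h => g.strictMono h
    have hpair : ∀ q ∈ Q, ∀ q' ∈ Q, q ≠ q' → D a c < D q q' := by
      intro q hq q' hq' hne'
      have hq1 := hQp q hq
      have hq2 := hQp q' hq'
      have haq : a ≠ q := (hab.trans hq1.2.1).ne
      have haq' : a ≠ q' := (hab.trans hq2.2.1).ne
      have := hD.binary a q q' haq haq' hne' (by rw [hq1.2.2.1, hq2.2.2.1])
      rw [hq1.2.2.1] at this
      exact this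
    -- combs with `a`
    have hcomb : ∀ i j k : Fin 4, i < j → j < k →
        Comb D (↑({a, g i, g j, g k} : Finset V) : Set V) := by
      intro i j k hij hjk
      have qi := hQp _ (hgQ i)
      have qj := hQp _ (hgQ j)
      have qk := hQp _ (hgQ k)
      exact key2 a (g i) (g j) (g k) haH qi.1 qj.1 qk.1 (hab.trans qi.2.1).ne (hab.trans qj.2.1).ne
        (hab.trans qk.2.1).ne (hglt i j hij).ne (hglt i k (hij.trans hjk)).ne (hglt j k hjk).ne
        (by rw [qi.2.2.1, qj.2.2.1]) (by rw [qi.2.2.1, qk.2.2.1])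
    have hgg : ∀ i j k : Fin 4, i < j → j < k → D (g i) (g j) < D (g j) (g k) := by
      intro i j k hij hjk
      exact hcomb i j k hij hjk (g i) (by simp) (g j) (by simp) (g k) (by simp) (hglt i j hij)
        (hglt j k hjk)
    have hcol : ∀ i j k : Fin 4, i < j → j < k →
        f {D a c, D (g i) (g j), D (g j) (g k)} = c1 := by
      intro i j k hij hjk
      have qi := hQp _ (hgQ i)
      have qj := hQp _ (hgQ j)
      have qk := hQp _ (hgQ k)
      have h10 := hhom _ (four_card (hab.trans qi.2.1) (hglt i j hij) (hglt j k hjk))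
        (four_sub haH qi.1 qj.1 qk.1)
      rw [gcol_eq_of_comb (hcomb i j k hij hjk), lev_comb4 hD (hab.trans qi.2.1) (hglt i j hij)
        (hglt j k hjk) (hcomb i j k hij hjk), qi.2.2.1] at h10
      exact h10
    -- the comb of the four points
    have hcombQ : Comb D (↑({g 0, g 1, g 2, g 3} : Finset V) : Set V) := by
      intro x hx y hy z hz hxy hyz
      have mem : ∀ v, v ∈ (↑({g 0, g 1, g 2, g 3} : Finset V) : Set V) → ∃ i, g i = v := by
        intro v hv
        simp only [Finset.coe_insert, Finset.coe_singleton, Set.mem_insert_iff,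
          Set.mem_singleton_iff] at hv
        rcases hv with rfl | rfl | rfl | rfl
        · exact ⟨0, rfl⟩
        · exact ⟨1, rfl⟩
        · exact ⟨2, rfl⟩
        · exact ⟨3, rfl⟩
      obtain ⟨i, rfl⟩ := mem x hx
      obtain ⟨j, rfl⟩ := mem y hy
      obtain ⟨k, rfl⟩ := mem z hz
      exact hgg i j k (g.lt_iff_lt.mp hxy) (g.lt_iff_lt.mp hyz)
    have h01 : g 0 < g 1 := hglt 0 1 (by decide)
    have h12 : g 1 < g 2 := hglt 1 2 (by decide)
    have h23 : g 2 < g 3 := hglt 2 3 (by decide)
    have hcolQ : f {D (g 0) (g 1), D (g 1) (g 2), D (g 2) (g 3)} = c1 := by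
      have h10 := hhom _ (four_card h01 h12 h23)
        (four_sub (hQp _ (hgQ 0)).1 (hQp _ (hgQ 1)).1 (hQp _ (hgQ 2)).1 (hQp _ (hgQ 3)).1)
      rw [gcol_eq_of_comb hcombQ, lev_comb4 hD h01 h12 h23 hcombQ] at h10
      exact h10
    -- the block condition from `{a, b, g 0, g 1}`
    have q0 := hQp _ (hgQ 0)
    have q1 := hQp _ (hgQ 1)
    have hnc : ¬ Comb D (↑({a, b, g 0, g 1} : Finset V) : Set V) := by
      intro hc'
      have := hc' a (by simp) b (by simp) (g 0) (by simp) hab q0.2.1
      rw [q0.2.2.2] at this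
      exact lt_asymm this h1
    have hBT' : BT bl D ({a, b, g 0, g 1} : Finset V) := by
      by_contra hn
      exact hnc (key _ (four_card hab q0.2.1 h01) (four_sub haH hbH q0.1 q1.1) hn)
    have hbl : bl (D a c) < bl (D (g 0) (g 1)) := by
      rcases hBT'.sorted hab q0.2.1 h01 with hA | hP
      · exfalso
        have := hA.2.2.2.1
        rw [q0.2.2.1] at this
        exact lt_asymm this h1
      · have := hP.2.2.2.2.2.2.2.2
        rw [q0.2.2.1] at this
        exact this
    have e02 : D (g 0) (g 2) = D (g 0) (g 1) :=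
      hcombQ.eq_left hD (by simp) (by simp) (by simp) h01 h12
    have e13 : D (g 1) (g 3) = D (g 1) (g 2) :=
      hcombQ.eq_left hD (by simp) (by simp) (by simp) h12 h23
    have k1 := hcol 0 1 2 (by decide) (by decide)
    have k2 := hcol 0 2 3 (by decide) (by decide)
    have k3 := hcol 1 2 3 (by decide) (by decide)
    rw [e02] at k2
    exact hf1 (D a c) (D (g 0) (g 1)) (D (g 1) (g 2)) (D (g 2) (g 3))
      (hpair _ (hgQ 0) _ (hgQ 1) h01.ne) (hgg 0 1 2 (by decide) (by decide))
      (hgg 1 2 3 (by decide) (by decide)) hbl k1 k2 k3 hcolQ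

/-- The block theorem for `r = 3` and an entry at least `5`. -/
theorem step_three_block6 [WellFoundedLT V] [WellFoundedLT L] (hD : TreeDist D)
    {lam : Γ → Cardinal.{u}} (hlam : ∀ ν, (3 : Cardinal) ≤ lam ν) {c0 c1 : Γ} (hne : c1 ≠ c0)
    (hc0 : ℵ₀ ≤ lam c0) (hc1 : (4 : Cardinal) < lam c1) {Θ : Type u} [LinearOrder Θ]
    (bl : L → Θ) (hbl : Monotone bl) {f : Finset L → Γ} (hf : NA lam 3 f)
    (hf1 : ∀ (a b c d : L), a < b → b < c → c < d → bl a < bl b →
      f {a, b, c} = c1 → f {a, b, d} = c1 → f {a, c, d} = c1 → f {b, c, d} = c1 → False)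
    (hthird : ∀ (Z : Set V) (k : Θ), #Z = lam c0 →
      (∀ z ∈ Z, ∀ w ∈ Z, z ≠ w → bl (D z w) = k) →
      (∀ a ∈ Z, ∀ b ∈ Z, ∀ c ∈ Z, ∀ d ∈ Z, ¬ Alt D a b c d) →
      (∀ e : Finset V, e.card = 4 → (↑e : Set V) ⊆ Z → Comb D (↑e : Set V) → f (lev D e) = c0) →
      False) :
    ∃ g : Finset V → Γ, NA (fun ν => lam ν + 1) 4 g := by
  classical
  let h : Finset V → Γ := fun e => if BT bl D e then c1 else c0
  refine ⟨gcol D f h, assemble hD (r := 3) (by norm_num) hf h ?_⟩
  intro ν H hH hhom
  have h4H : ((3 + 1 : ℕ) : Cardinal) ≤ #H := by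
    rw [hH]
    calc ((3 + 1 : ℕ) : Cardinal) = (3 : Cardinal) + 1 := by norm_num
      _ ≤ lam ν + 1 := add_le_add (hlam ν) le_rfl
  by_cases hν1 : ν = c1
  · subst hν1
    refine ⟨H, Subset.rfl, rfl, all_comb (r := 3) (by norm_num) h4H ?_⟩
    intro e he heH
    refine six_c1 hD hne bl hf1 (h := h) (fun e he => if_neg he) hhom ?_ e he heH
    rw [hH]
    have h3 : ((5 : ℕ) : Cardinal) ≤ lam ν := by
      have h1' : ((4 : ℕ) : Cardinal) < lam ν := by exact_mod_cast hc1
      have := Order.succ_le_of_lt h1'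
      rw [Cardinal.succ_natCast] at this
      exact_mod_cast this
    calc ((6 : ℕ) : Cardinal) = ((5 : ℕ) : Cardinal) + 1 := by norm_num
      _ ≤ lam ν + 1 := by gcongr
  · by_cases hν0 : ν = c0
    · subst hν0
      have hHinf : ℵ₀ ≤ #H := by rw [hH]; exact hc0.trans (self_le_add_right _ _)
      have hHc : #H = lam ν := by rw [hH, Cardinal.add_one_eq hc0]
      have hno : ∀ a ∈ H, ∀ b ∈ H, ∀ c ∈ H, ∀ d ∈ H, ¬ Alt D a b c d ∧ ¬ Par bl D a b c d := by
        intro a ha b hb c hc d hd
        have key : ¬ (a < b ∧ b < c ∧ c < d ∧ (Alt D a b c d ∨ Par bl D a b c d)) := by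
          rintro ⟨hab, hbc, hcd, hT⟩
          have hBT : BT bl D ({a, b, c, d} : Finset V) := ⟨a, b, c, d, rfl, hT⟩
          have := hhom _ (four_card hab hbc hcd) (four_sub ha hb hc hd)
          rw [gcol_eq_of_not_comb (hBT.not_comb hD)] at this
          have h2 : h ({a, b, c, d} : Finset V) = c1 := if_pos hBT
          rw [h2] at this
          exact hne this
        constructor
        · intro hA; exact key ⟨hA.1, hA.2.1, hA.2.2.1, Or.inl hA⟩
        · intro hP; exact key ⟨hP.1, hP.2.1, hP.2.2.1, Or.inr hP⟩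
      refine block_c0 hD bl hbl hHinf hno ?_
      intro Z k hZH hZc hZk
      refine hthird Z k (hZc.trans hHc) hZk
        (fun a ha b hb c hc d hd => (hno a (hZH ha) b (hZH hb) c (hZH hc) d (hZH hd)).1) ?_
      intro e he heZ hcomb
      have := hhom e he (heZ.trans hZH)
      rwa [gcol_eq_of_comb hcomb] at this
    · refine ⟨H, Subset.rfl, rfl, all_comb (r := 3) (by norm_num) h4H ?_⟩
      intro e he heH
      by_contra hc
      have := hhom e he heH
      rw [gcol_eq_of_not_comb hc] at this
      by_cases hBT : BT bl D e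
      · rw [show h e = c1 from if_pos hBT] at this
        exact hν1 this.symm
      · rw [show h e = c0 from if_neg hBT] at this
        exact hν0 this.symm

end Pool.Agent.Run7.h584.NS
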