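import Mathlib
import Pool.Agent.H330.Limit
import Pool.Agent.Run7.h584.NS.Six

open Cardinal Set

universe u

namespace Pool.Agent.Run7.h584.NS

open Pool.Agent.H330

variable {V L Γ : Type u} [LinearOrder V] [LinearOrder L] {D : V → V → L}

/-- the third pattern: one point in a lower block, a decreasing pair in a higher block -/
def LimT {L Θ : Type u} [LinearOrder L] [LinearOrder Θ] (bl : L → Θ)
    (cc : Θ → L → L → Bool) (s : Finset L) : Prop :=
  ∃ a b c, a < b ∧ b < c ∧ (∀ x, x ∈ s ↔ x = a ∨ x = b ∨ x = c) ∧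
    bl a < bl b ∧ bl b = bl c ∧ cc (bl b) b c = false

lemma LimT.sorted {L Θ : Type u} [LinearOrder L] [LinearOrder Θ] {bl : L → Θ}
    {cc : Θ → L → L → Bool} {s : Finset L}
    (h : LimT bl cc s) {a b c : L} (hab : a < b) (hbc : b < c)
    (hs : ∀ x, x ∈ s ↔ x = a ∨ x = b ∨ x = c) :
    bl a < bl b ∧ bl b = bl c ∧ cc (bl b) b c = false := by
  obtain ⟨a', b', c', h1, h2, h3, h4⟩ := h
  obtain ⟨rfl, rfl, rfl⟩ := limit_sorted3 hab hbc h1 h2 (fun v => (hs v).symm.trans (h3 v))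
  exact h4

/-- the three patterns on a sorted triple -/
def Tri {L Θ : Type u} [LinearOrder L] [LinearOrder Θ] (bl : L → Θ) (OM : Θ → L → L → L → Prop)
    (cc : Θ → L → L → Bool) (a b c : L) : Prop :=
  (bl a = bl b ∧ bl b = bl c ∧ OM (bl a) a b c) ∨
  (bl a = bl b ∧ bl b < bl c ∧ cc (bl a) a b = true) ∨
  (bl a < bl b ∧ bl b = bl c ∧ cc (bl b) b c = false)

lemma tri_of {L Θ : Type u} [LinearOrder L] [LinearOrder Θ] {bl : L → Θ}
    {OM : Θ → L → L → L → Prop} {cc : Θ → L → L → Bool} {a b c : L} (hab : a < b) (hbc : b < c)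
    (h : LimP bl OM cc (fun _ _ => true) {a, b, c} ∨ LimT bl cc {a, b, c}) : Tri bl OM cc a b c := by
  rcases h with h | h
  · rcases h.sorted hab hbc (limit_mem3 a b c) with h | h
    · exact Or.inl h
    · exact Or.inr (Or.inl h)
  · exact Or.inr (Or.inr (h.sorted hab hbc (limit_mem3 a b c)))

/-- no five points all of whose triples are in one of the three patterns -/
lemma tri_five {L Θ : Type u} [LinearOrder L] [LinearOrder Θ]
    (bl : L → Θ) (OM : Θ → L → L → L → Prop) (cc : Θ → L → L → Bool)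
    (hP1 : ∀ k a b c, bl a = k → bl b = k → bl c = k → a < b → b < c → OM k a b c →
      cc k a b ≠ cc k b c)
    (hP2 : ∀ k a b c d, bl a = k → bl b = k → bl c = k → bl d = k → a < b → b < c → c < d →
      OM k a b c → OM k b c d → OM k a b d → False)
    {a b c d e : L} (hab : a < b) (hbc : b < c) (hcd : c < d) (hde : d < e)
    (abc : Tri bl OM cc a b c) (abd : Tri bl OM cc a b d) (acd : Tri bl OM cc a c d)
    (bcd : Tri bl OM cc b c d) (bde : Tri bl OM cc b d e) (cde : Tri bl OM cc c d e) : False := by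
  rcases bcd with ⟨h1, h2, h3⟩ | ⟨h1, h2, h3⟩ | ⟨h1, h2, h3⟩
  · -- all of b, c, d in one block
    have hne := hP1 (bl b) b c d rfl h1.symm (h1.trans h2).symm hbc hcd h3
    rcases abc with ⟨g1, g2, g3⟩ | ⟨g1, g2, g3⟩ | ⟨g1, g2, g3⟩
    · rcases abd with ⟨k1, k2, k3⟩ | ⟨k1, k2, k3⟩ | ⟨k1, k2, k3⟩
      · refine hP2 (bl a) a b c d rfl g1.symm (g1.trans g2).symm (k1.trans k2).symm hab hbc hcd g3
          ?_ k3
        rw [g1]; exact h3
      · rw [h1, h2] at k2; exact lt_irrefl _ k2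
      · rw [g1] at k1; exact lt_irrefl _ k1
    · rw [h1] at g2; exact lt_irrefl _ g2
    · rcases acd with ⟨k1, k2, k3⟩ | ⟨k1, k2, k3⟩ | ⟨k1, k2, k3⟩
      · rw [k1, h1] at g1; exact lt_irrefl _ g1
      · rw [k1, h1] at g1; exact lt_irrefl _ g1
      · apply hne
        rw [g3]
        rw [← h1] at k3
        exact k3.symm
  · -- b, c in one block, d in a later one
    rcases abc with ⟨g1, g2, g3⟩ | ⟨g1, g2, g3⟩ | ⟨g1, g2, g3⟩
    · have hne := hP1 (bl a) a b c rfl g1.symm (g1.trans g2).symm hab hbc g3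
      rcases abd with ⟨k1, k2, k3⟩ | ⟨k1, k2, k3⟩ | ⟨k1, k2, k3⟩
      · rw [← h1, k2] at h2; exact lt_irrefl _ h2
      · apply hne
        rw [k3, g1]
        exact h3.symm
      · rw [g1] at k1; exact lt_irrefl _ k1
    · exact absurd h1 g2.ne
    · rw [h3] at g3; exact absurd g3 (by decide)
  · -- b in one block, c, d in a later one
    rcases cde with ⟨k1, k2, k3⟩ | ⟨k1, k2, k3⟩ | ⟨k1, k2, k3⟩
    · have hne := hP1 (bl c) c d e rfl k1.symm (k1.trans k2).symm hcd hde k3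
      rcases bde with ⟨g1, g2, g3⟩ | ⟨g1, g2, g3⟩ | ⟨g1, g2, g3⟩
      · rw [g1, h2] at h1; exact lt_irrefl _ h1
      · rw [g1, h2] at h1; exact lt_irrefl _ h1
      · apply hne
        rw [h3, k1]
        exact g3.symm
    · rw [h3] at k3; exact absurd k3 (by decide)
    · rw [h2] at k1; exact lt_irrefl _ k1

/-- a set of size `μ` contains one of the patterns -/
lemma tri_c0 {L Θ : Type u} [LinearOrder L] [LinearOrder Θ] {μ : Cardinal.{u}} (hμ : ℵ₀ ≤ μ)
    (hΘ : #Θ = μ.ord.cof) (hΘi : ℵ₀ ≤ #Θ) (hsing : μ.ord.cof < μ)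
    (bl : L → Θ) (hbl : Monotone bl) (R : Θ → Cardinal.{u}) (hR : ∀ k, R k < μ)
    (OM : Θ → L → L → L → Prop) (cc : Θ → L → L → Bool)
    (hP3 : ∀ k, ∀ Y : Set L, (∀ y ∈ Y, bl y = k) →
      (∀ x ∈ Y, ∀ y ∈ Y, ∀ z ∈ Y, x < y → y < z → ¬ OM k x y z) → #Y ≤ R k)
    (Y : Set L) (hY : #Y = μ)
    (hno : ∀ a ∈ Y, ∀ b ∈ Y, ∀ c ∈ Y, a < b → b < c →
      ¬ LimP bl OM cc (fun _ _ => true) {a, b, c} ∧ ¬ LimT bl cc {a, b, c}) : False := by
  classical
  have hsmall : ∀ k, #{y | y ∈ Y ∧ bl y = k} < μ := by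
    intro k
    refine (hP3 k _ (fun y hy => hy.2) ?_).trans_lt (hR k)
    intro x hx y hy z hz hxy hyz hOM
    refine (hno x hx.1 y hy.1 z hz.1 hxy hyz).1 ⟨x, y, z, hxy, hyz, limit_mem3 x y z, Or.inl ?_⟩
    refine ⟨hx.2.trans hy.2.symm, hy.2.trans hz.2.symm, ?_⟩
    rw [hx.2]; exact hOM
  have hI := limit_count hμ hΘ hsing bl Y hY hsmall
  have h3 : ((3 : ℕ) : Cardinal) ≤ #{k | ∃ a ∈ Y, ∃ b ∈ Y, a < b ∧ bl a = k ∧ bl b = k} :=
    (Cardinal.natCast_lt_aleph0.le.trans hΘi).trans hI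
  obtain ⟨E, hE, hE3⟩ := exists_finset_card h3
  set g := E.orderEmbOfFin hE3 with hg
  have hmem : ∀ i, g i ∈ {k | ∃ a ∈ Y, ∃ b ∈ Y, a < b ∧ bl a = k ∧ bl b = k} :=
    fun i => hE (E.orderEmbOfFin_mem hE3 i)
  have h01 : g 0 < g 1 := g.strictMono (by decide)
  have h12 : g 1 < g 2 := g.strictMono (by decide)
  obtain ⟨a1, ha1, _, _, _, ha1k, _⟩ := hmem 0
  obtain ⟨a2, ha2, b2, hb2, hab2, ha2k, hb2k⟩ := hmem 1
  obtain ⟨a3, ha3, _, _, _, ha3k, _⟩ := hmem 2
  have l1 : a1 < a2 := by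
    by_contra hcon
    have := hbl (not_lt.mp hcon)
    rw [ha1k, ha2k] at this
    exact absurd h01 (not_lt.mpr this)
  have l2 : b2 < a3 := by
    by_contra hcon
    have := hbl (not_lt.mp hcon)
    rw [ha3k, hb2k] at this
    exact absurd h12 (not_lt.mpr this)
  have n1 := (hno a2 ha2 b2 hb2 a3 ha3 hab2 l2).1
  have n2 := (hno a1 ha1 a2 ha2 b2 hb2 l1 hab2).2
  cases hcc : cc (bl a2) a2 b2 with
  | true =>
    refine n1 ⟨a2, b2, a3, hab2, l2, limit_mem3 _ _ _, Or.inr ⟨ha2k.trans hb2k.symm, ?_, hcc⟩⟩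
    rw [hb2k, ha3k]; exact h12
  | false =>
    refine n2 ⟨a1, a2, b2, l1, hab2, limit_mem3 _ _ _, ?_, ha2k.trans hb2k.symm, hcc⟩
    rw [ha1k, ha2k]; exact h01

/-- five increasing points -/
lemma limit_five {L : Type u} [LinearOrder L] {Y : Set L} (hY : ((5 : ℕ) : Cardinal) ≤ #Y) :
    ∃ a ∈ Y, ∃ b ∈ Y, ∃ c ∈ Y, ∃ d ∈ Y, ∃ e ∈ Y, a < b ∧ b < c ∧ c < d ∧ d < e := by
  classical
  obtain ⟨E, hE, hEn⟩ := exists_finset_card hY
  set g := E.orderEmbOfFin hEn
  have hg : ∀ i, g i ∈ Y := fun i => hE (E.orderEmbOfFin_mem hEn i)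
  exact ⟨g 0, hg 0, g 1, hg 1, g 2, hg 2, g 3, hg 3, g 4, hg 4, g.strictMono (by decide),
    g.strictMono (by decide), g.strictMono (by decide), g.strictMono (by decide)⟩

/-- `r = 3`, `κ ≤ 2^{<μ}` where `μ = lam c0` is singular, `2^ρ < κ` for `ρ < μ`: either an entry
`≥ 5` besides `c0`, or two entries `≥ 4` besides `c0`. -/
theorem step_three_two [WellFoundedLT V] {κ μ : Cardinal.{u}}
    {D : V → V → κ.ord.ToType} (hD : TreeDist D) {lam : Γ → Cardinal.{u}}
    (hlam : ∀ ν, (3 : Cardinal) ≤ lam ν) {c0 c1 c2 : Γ} (hne : c1 ≠ c0) (hne2 : c2 ≠ c0)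
    (hc0 : lam c0 = μ)
    (hμ : ℵ₀ ≤ μ) (hsing : μ.ord.cof < μ) (hκ : κ ≤ 2 ^< μ)
    (hlt : ∀ ρ < μ, (2 : Cardinal.{u}) ^ ρ < κ)
    (hc : (c1 = c2 ∧ (4 : Cardinal) < lam c1) ∨
      (c1 ≠ c2 ∧ (3 : Cardinal) < lam c1 ∧ (3 : Cardinal) < lam c2)) :
    ∃ g : Finset V → Γ, NA (fun ν => lam ν + 1) 4 g := by
  classical
  obtain ⟨bl, R, hbl, hR0, hRμ, hRB⟩ := limit_blocks hμ hsing hκ hlt
  have hbk : ∀ k, ∃ (OM : κ.ord.ToType → κ.ord.ToType → κ.ord.ToType → Prop)
      (c : κ.ord.ToType → κ.ord.ToType → Bool),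
      (∀ x ∈ {l | bl l = k}, ∀ y ∈ {l | bl l = k}, ∀ z ∈ {l | bl l = k}, x < y → y < z →
        OM x y z → c x y ≠ c y z) ∧
      (∀ x ∈ {l | bl l = k}, ∀ y ∈ {l | bl l = k}, ∀ z ∈ {l | bl l = k}, ∀ w ∈ {l | bl l = k},
        x < y → y < z → z < w → OM x y z → OM y z w → OM x y w → False) ∧
      (∀ Y : Set κ.ord.ToType, Y ⊆ {l | bl l = k} →
        (∀ x ∈ Y, ∀ y ∈ Y, ∀ z ∈ Y, x < y → y < z → ¬ OM x y z) → #Y ≤ R k) :=
    fun k => limit_block _ (R k) (hR0 k) (hRB k)
  choose OM cc hP1 hP2 hP3 using hbk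
  have hΘ : #μ.ord.cof.ord.ToType = μ.ord.cof := Cardinal.mk_ord_toType _
  have hcof : ℵ₀ ≤ μ.ord.cof := Ordinal.aleph0_le_cof.mpr (Cardinal.isSuccLimit_ord hμ)
  have hP1' : ∀ k a b c, bl a = k → bl b = k → bl c = k → a < b → b < c → OM k a b c →
      cc k a b ≠ cc k b c := fun k a b c ha hb hc hab hbc h => hP1 k a ha b hb c hc hab hbc h
  have hP2' : ∀ k a b c d, bl a = k → bl b = k → bl c = k → bl d = k → a < b → b < c → c < d →
      OM k a b c → OM k b c d → OM k a b d → False :=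
    fun k a b c d ha hb hc hd hab hbc hcd h1 h2 h3 =>
      hP2 k a ha b hb c hc d hd hab hbc hcd h1 h2 h3
  have hP3' : ∀ k, ∀ Y : Set κ.ord.ToType, (∀ y ∈ Y, bl y = k) →
      (∀ x ∈ Y, ∀ y ∈ Y, ∀ z ∈ Y, x < y → y < z → ¬ OM k x y z) → #Y ≤ R k :=
    fun k Y hY h => hP3 k Y hY h
  set f : Finset κ.ord.ToType → Γ := fun s =>
    if LimP bl OM cc (fun _ _ => true) s then c1 else if LimT bl cc s then c2 else c0 with hf
  have hf1 : ∀ s, LimP bl OM cc (fun _ _ => true) s → f s = c1 := fun s hs => if_pos hs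
  have hf2 : ∀ s, ¬ LimP bl OM cc (fun _ _ => true) s → LimT bl cc s → f s = c2 := by
    intro s h1 h2
    show (if LimP bl OM cc (fun _ _ => true) s then c1 else if LimT bl cc s then c2 else c0) = c2
    rw [if_neg h1, if_pos h2]
  have hf0 : ∀ s, ¬ LimP bl OM cc (fun _ _ => true) s → ¬ LimT bl cc s → f s = c0 := by
    intro s h1 h2
    show (if LimP bl OM cc (fun _ _ => true) s then c1 else if LimT bl cc s then c2 else c0) = c0
    rw [if_neg h1, if_neg h2]
  have hfc0 : ∀ s, f s = c0 → ¬ LimP bl OM cc (fun _ _ => true) s ∧ ¬ LimT bl cc s := by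
    intro s hs
    have h1 : ¬ LimP bl OM cc (fun _ _ => true) s := by
      intro h; rw [hf1 s h] at hs; exact hne hs
    refine ⟨h1, fun h => ?_⟩
    rw [hf2 s h1 h] at hs; exact hne2 hs
  have hNA : NA lam 3 f := by
    intro ν Y hY
    by_contra hcon
    push Not at hcon
    by_cases hν0 : ν = c0
    · subst hν0
      refine tri_c0 hμ hΘ (by rw [hΘ]; exact hcof) hsing bl hbl R hRμ OM cc hP3' Y
        (hY.trans hc0) ?_
      intro a ha b hb c hc hab hbc
      exact hfc0 _ (hcon _ (limit_card3 hab hbc) (limit_sub3 ha hb hc))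
    rcases hc with ⟨hcc, h5⟩ | ⟨hcc, h4, h4'⟩
    · subst hcc
      by_cases hν1 : ν = c1
      · subst hν1
        have h5' : ((5 : ℕ) : Cardinal) ≤ #Y := by
          rw [hY]
          have h1' : ((4 : ℕ) : Cardinal) < lam ν := by exact_mod_cast h5
          have := Order.succ_le_of_lt h1'
          rw [Cardinal.succ_natCast] at this
          exact_mod_cast this
        obtain ⟨a, ha, b, hb, c, hc, d, hd, e, he, hab, hbc, hcd, hde⟩ := limit_five h5'
        have key : ∀ x y z, x ∈ Y → y ∈ Y → z ∈ Y → x < y → y < z → Tri bl OM cc x y z := by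
          intro x y z hx hy hz hxy hyz
          have h1 := hcon _ (limit_card3 hxy hyz) (limit_sub3 hx hy hz)
          refine tri_of hxy hyz ?_
          by_contra hno
          push Not at hno
          rw [hf0 _ hno.1 hno.2] at h1
          exact hne h1.symm
        exact tri_five bl OM cc hP1' hP2' hab hbc hcd hde (key a b c ha hb hc hab hbc)
          (key a b d ha hb hd hab (hbc.trans hcd)) (key a c d ha hc hd (hab.trans hbc) hcd)
          (key b c d hb hc hd hbc hcd) (key b d e hb hd he (hbc.trans hcd) hde)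
          (key c d e hc hd he hcd hde)
      · have h3 : ((3 : ℕ) : Cardinal) ≤ #Y := by
          rw [hY]; exact_mod_cast hlam ν
        obtain ⟨s, hs, hs3⟩ := exists_finset_card h3
        have h6 := hcon s hs3 hs
        by_cases hP : LimP bl OM cc (fun _ _ => true) s
        · rw [hf1 s hP] at h6; exact hν1 h6.symm
        · by_cases hT : LimT bl cc s
          · rw [hf2 s hP hT] at h6; exact hν1 h6.symm
          · rw [hf0 s hP hT] at h6; exact hν0 h6.symm
    · have four : ∀ c', (3 : Cardinal) < lam c' → lam c' = #Y → ((4 : ℕ) : Cardinal) ≤ #Y := by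
        intro c' h1 h2
        rw [← h2]
        have h1' : ((3 : ℕ) : Cardinal) < lam c' := by exact_mod_cast h1
        have := Order.succ_le_of_lt h1'
        rw [Cardinal.succ_natCast] at this
        exact_mod_cast this
      by_cases hν1 : ν = c1
      · subst hν1
        obtain ⟨a, ha, b, hb, c, hc, d, hd, hab, hbc, hcd⟩ := limit_four (four ν h4 hY.symm)
        have key : ∀ x y z, x ∈ Y → y ∈ Y → z ∈ Y → x < y → y < z →
            LimP bl OM cc (fun _ _ => true) {x, y, z} := by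
          intro x y z hx hy hz hxy hyz
          have h1 := hcon _ (limit_card3 hxy hyz) (limit_sub3 hx hy hz)
          by_contra hno
          by_cases hT : LimT bl cc {x, y, z}
          · rw [hf2 _ hno hT] at h1; exact hcc h1.symm
          · rw [hf0 _ hno hT] at h1; exact hν0 h1.symm
        exact limit_c1 bl OM cc (fun _ _ => true) hP1' hP2' hab hbc hcd
          (key a b c ha hb hc hab hbc) (key b c d hb hc hd hbc hcd)
          (key a b d ha hb hd hab (hbc.trans hcd))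
      · by_cases hν2 : ν = c2
        · subst hν2
          obtain ⟨a, ha, b, hb, c, hc, d, hd, hab, hbc, hcd⟩ := limit_four (four ν h4' hY.symm)
          have key : ∀ x y z, x ∈ Y → y ∈ Y → z ∈ Y → x < y → y < z →
              LimT bl cc {x, y, z} := by
            intro x y z hx hy hz hxy hyz
            have h1 := hcon _ (limit_card3 hxy hyz) (limit_sub3 hx hy hz)
            by_contra hno
            by_cases hP : LimP bl OM cc (fun _ _ => true) {x, y, z}
            · rw [hf1 _ hP] at h1; exact hcc h1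
            · rw [hf0 _ hP hno] at h1; exact hν0 h1.symm
          have k1 := (key a b c ha hb hc hab hbc).sorted hab hbc (limit_mem3 a b c)
          have k2 := (key b c d hb hc hd hbc hcd).sorted hbc hcd (limit_mem3 b c d)
          exact k2.1.ne k1.2.1
        · have h3 : ((3 : ℕ) : Cardinal) ≤ #Y := by
            rw [hY]; exact_mod_cast hlam ν
          obtain ⟨s, hs, hs3⟩ := exists_finset_card h3
          have h6 := hcon s hs3 hs
          by_cases hP : LimP bl OM cc (fun _ _ => true) s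
          · rw [hf1 s hP] at h6; exact hν1 h6.symm
          · by_cases hT : LimT bl cc s
            · rw [hf2 s hP hT] at h6; exact hν2 h6.symm
            · rw [hf0 s hP hT] at h6; exact hν0 h6.symm
  have hthird : ∀ (Z : Set V) (k : μ.ord.cof.ord.ToType), #Z = lam c0 →
      (∀ z ∈ Z, ∀ w ∈ Z, z ≠ w → bl (D z w) = k) →
      (∀ a ∈ Z, ∀ b ∈ Z, ∀ c ∈ Z, ∀ d ∈ Z, ¬ Alt D a b c d) →
      (∀ e : Finset V, e.card = 4 → (↑e : Set V) ⊆ Z → Comb D (↑e : Set V) → f (lev D e) = c0) →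
      False := by
    intro Z k hZ hZk hAlt hcomb
    have hRs : Order.succ (R k) < μ := by
      rcases (Order.succ_le_of_lt (hRμ k)).lt_or_eq with h | h
      · exact h
      · exfalso
        have hreg := Cardinal.isRegular_succ (hR0 k)
        rw [h] at hreg
        have := hreg.cof_ord
        rw [this] at hsing
        exact lt_irrefl _ hsing
    have hle : Order.succ (R k) ≤ #Z := by rw [hZ, hc0]; exact hRs.le
    obtain ⟨Z', hZ'Z, hZ'⟩ := Cardinal.le_mk_iff_exists_subset.mp hle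
    rcases regular_dichotomy hD (H := Z') (by rw [hZ']; exact Cardinal.isRegular_succ (hR0 k)) with
      ⟨H', hH', hH'c, hH'comb⟩ | ⟨a, ha, b, hb, c, hc, d, hd, h⟩
    · obtain ⟨Y, hY1, hY2, hY3⟩ := comb_levels hD hH'comb 3 (by norm_num) f c0 (by
        intro e' he' he'H
        exact hcomb e' he' (he'H.trans (hH'.trans hZ'Z)) (hH'comb.mono he'H))
      have hYk : ∀ y ∈ Y, bl y = k := by
        intro y hy
        obtain ⟨x, hx, w, hw, hxw, rfl⟩ := hY2 y hy
        exact hZk x (hZ'Z (hH' hx)) w (hZ'Z (hH' hw)) hxw.ne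
      have hYR : #Y ≤ R k := by
        refine hP3' k Y hYk ?_
        intro x hx y hy z hz hxy hyz hOM
        refine (hfc0 _ (hY3 _ (limit_card3 hxy hyz) (limit_sub3 hx hy hz))).1
          ⟨x, y, z, hxy, hyz, limit_mem3 x y z, Or.inl ?_⟩
        refine ⟨(hYk x hx).trans (hYk y hy).symm, (hYk y hy).trans (hYk z hz).symm, ?_⟩
        rw [hYk x hx]; exact hOM
      have h1 : Order.succ (R k) ≤ #Y + 1 := by rw [← hZ', ← hH'c]; exact hY1
      have h2 : #Y + 1 ≤ R k := by
        calc #Y + 1 ≤ R k + 1 := by gcongr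
          _ = R k := Cardinal.add_one_eq (hR0 k)
      exact absurd (h1.trans h2) (not_le.mpr (Order.lt_succ _))
    · exact hAlt a (hZ'Z ha) b (hZ'Z hb) c (hZ'Z hc) d (hZ'Z hd) h
  rcases hc with ⟨hcc, h5⟩ | ⟨hcc, h4, h4'⟩
  · subst hcc
    refine step_three_block6 hD hlam hne (by rw [hc0]; exact hμ) h5 bl hbl hNA ?_ hthird
    intro a b c d hab hbc hcd hblt e1 _ e3 e4
    have tri : ∀ x y z, x < y → y < z → f {x, y, z} = c1 → Tri bl OM cc x y z := by
      intro x y z hxy hyz h1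
      refine tri_of hxy hyz ?_
      by_contra hno
      push Not at hno
      rw [hf0 _ hno.1 hno.2] at h1
      exact hne h1.symm
    have t1 := tri a b c hab hbc e1
    have t3 := tri a c d (hab.trans hbc) hcd e3
    have t4 := tri b c d hbc hcd e4
    rcases t1 with ⟨g1, g2, g3⟩ | ⟨g1, g2, g3⟩ | ⟨g1, g2, g3⟩
    · exact hblt.ne g1
    · exact hblt.ne g1
    · rcases t3 with ⟨k1, k2, k3⟩ | ⟨k1, k2, k3⟩ | ⟨k1, k2, k3⟩
      · rw [← g2] at k1; exact hblt.ne k1
      · rw [← g2] at k1; exact hblt.ne k1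
      · rcases t4 with ⟨m1, m2, m3⟩ | ⟨m1, m2, m3⟩ | ⟨m1, m2, m3⟩
        · refine hP1' (bl b) b c d rfl g2.symm (g2.trans k2).symm hbc hcd m3 ?_
          rw [g3, g2]; exact k3.symm
        · exact m2.ne k2
        · exact m1.ne g2
  · refine step_three_block hD hlam hne (by rw [hc0]; exact hμ) h4 bl hbl hNA ?_ hthird
    intro a b c s hab hbc hs hsc
    have hP : LimP bl OM cc (fun _ _ => true) s := by
      by_contra hno
      by_cases hT : LimT bl cc s
      · rw [hf2 s hno hT] at hsc; exact hcc hsc.symm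
      · rw [hf0 s hno hT] at hsc; exact hne hsc.symm
    rcases hP.sorted hab hbc hs with h | h
    · exact h.1
    · exact h.1

end Pool.Agent.Run7.h584.NS
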