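import Mathlib
import Pool.Agent.H330.Final
import Pool.Agent.Run7.h584.NS.Limit2

/-!
# Assembly of the cases for `r = 3`
-/

open Cardinal Set

universe u

namespace Pool.Agent.Run7.h584.NS

open Pool.Agent.H330

/-- `r = 3`: everything except one singular entry, one entry `4` and all other entries `3`. -/
theorem main_three_narrow {κ : Cardinal.{u}} (hκ : ℵ₀ ≤ κ) {Γ : Type u} {lam : Γ → Cardinal.{u}}
    (hlam : ∀ ν, (3 : Cardinal) ≤ lam ν ∧ lam ν ≤ κ)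
    {f : Finset κ.ord.ToType → Γ} (hf : NA lam 3 f)
    (hexc : ∀ c0 c1, c1 ≠ c0 → lam c1 = 4 → (∀ ν, ν ≠ c0 → ν ≠ c1 → lam ν = 3) →
      ℵ₀ ≤ lam c0 → ¬ (lam c0).IsRegular → lam c0 < κ → κ ≤ 2 ^< lam c0 →
      (∀ ρ < lam c0, (2 : Cardinal.{u}) ^ ((2 : Cardinal.{u}) ^ ρ) < 2 ^ κ) →
      ∃ e : (lam c0).ord.cof.ord.ToType → (lam c0).ord.cof.ord.ToType → Bool,
        ∀ (H : Set (lam c0).ord.cof.ord.ToType) (b : Bool), #H = (lam c0).ord.cof →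
          ∃ x ∈ H, ∃ y ∈ H, x < y ∧ e x y ≠ b) :
    ∃ g : Finset ((2 : Cardinal.{u}) ^ κ).ord.ToType → Γ, NA (fun ν => lam ν + 1) 4 g := by
  by_cases hP : ∀ c0, (∀ ν, ν ≠ c0 → lam ν < ℵ₀) →
      {ν : Γ | (3 : Cardinal) < lam ν ∧ lam ν < ℵ₀}.Finite →
      ℵ₀ ≤ lam c0 → ¬ (lam c0).IsRegular → lam c0 < κ → κ ≤ 2 ^< lam c0 →
      (∀ ρ < lam c0, (2 : Cardinal.{u}) ^ ((2 : Cardinal.{u}) ^ ρ) < 2 ^ κ) →
      ∃ e : (lam c0).ord.cof.ord.ToType → (lam c0).ord.cof.ord.ToType → Bool,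
        ∀ (H : Set (lam c0).ord.cof.ord.ToType) (b : Bool), #H = (lam c0).ord.cof →
          ∃ x ∈ H, ∃ y ∈ H, x < y ∧ e x y ≠ b
  · exact main_three hκ hlam hf hP
  obtain ⟨c0, hc⟩ := not_forall.mp hP
  rw [Classical.not_imp] at hc
  obtain ⟨ho, hc⟩ := hc
  rw [Classical.not_imp] at hc
  obtain ⟨hfin, hc⟩ := hc
  rw [Classical.not_imp] at hc
  obtain ⟨hc0, hc⟩ := hc
  rw [Classical.not_imp] at hc
  obtain ⟨hreg, hc⟩ := hc
  rw [Classical.not_imp] at hc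
  obtain ⟨hltκ, hc⟩ := hc
  rw [Classical.not_imp] at hc
  obtain ⟨hκle, hc⟩ := hc
  rw [Classical.not_imp] at hc
  obtain ⟨hsmall, hno⟩ := hc
  haveI := nonempty_ordToType hκ
  obtain ⟨D, φ, hD, hφ⟩ := exists_treeDist κ.ord.ToType ((2 : Cardinal.{u}) ^ κ).ord.ToType
    (by rw [Cardinal.mk_ord_toType, Cardinal.mk_ord_toType])
  have hlam3 : ∀ ν, (3 : Cardinal) ≤ lam ν := fun ν => (hlam ν).1
  have hlam3' : ∀ ν, ((3 : ℕ) : Cardinal) ≤ lam ν := fun ν => by exact_mod_cast (hlam ν).1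
  have hsing : (lam c0).ord.cof < lam c0 := by
    by_contra hcon
    exact hreg ⟨hc0, not_lt.mp hcon⟩
  have hlt : ∀ ρ < lam c0, (2 : Cardinal.{u}) ^ ρ < κ := by
    intro ρ hρ
    by_contra hcon
    exact absurd (Cardinal.power_le_power_left two_ne_zero (not_lt.mp hcon))
      (not_le.mpr (hsmall ρ hρ))
  by_cases h5 : ∃ c1, c1 ≠ c0 ∧ (4 : Cardinal) < lam c1
  · obtain ⟨c1, hne, h5⟩ := h5
    exact step_three_two hD hlam3 hne hne rfl hc0 hsing hκle hlt (Or.inl ⟨rfl, h5⟩)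
  by_cases h44 : ∃ c1 c2, c1 ≠ c0 ∧ c2 ≠ c0 ∧ c1 ≠ c2 ∧ (3 : Cardinal) < lam c1 ∧
      (3 : Cardinal) < lam c2
  · obtain ⟨c1, c2, hne, hne2, h12, h4, h4'⟩ := h44
    exact step_three_two hD hlam3 hne hne2 rfl hc0 hsing hκle hlt (Or.inr ⟨h12, h4, h4'⟩)
  exfalso
  obtain ⟨c1, hne, hc1⟩ := exists_c1 hf hlam3'
      (c0 := c0) (by rw [Cardinal.mk_ord_toType]; exact (hlam c0).2)
  have hc1' : (3 : Cardinal) < lam c1 := by exact_mod_cast hc1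
  have hc14 : lam c1 = 4 := by
    apply le_antisymm
    · by_contra hcon
      exact h5 ⟨c1, hne, not_le.mp hcon⟩
    · have := Order.succ_le_of_lt hc1
      rw [Cardinal.succ_natCast] at this
      exact_mod_cast this
  refine hno (hexc c0 c1 hne hc14 ?_ hc0 hreg hltκ hκle hsmall)
  intro ν hν0 hν1
  apply le_antisymm _ (hlam3 ν)
  by_contra hcon
  exact h44 ⟨c1, ν, hne, hν0, fun h => hν1 h.symm, hc1', not_le.mp hcon⟩

end Pool.Agent.Run7.h584.NS
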