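import Mathlib

/-!
# Generic points, closed sets and homogeneous sets of a prescribed colour
-/

open Cardinal Set

universe u

namespace Pool.Agent.Run7.h584.NS

lemma pow_pow_self {lam : Cardinal.{u}} (h : ℵ₀ ≤ lam) :
    ((2 : Cardinal.{u}) ^ lam) ^ lam = 2 ^ lam := by
  rw [← Cardinal.power_mul, Cardinal.mul_eq_self h]

lemma bounded_le {L : Type u} {lam : Cardinal.{u}} (h : ℵ₀ ≤ lam) {Z : Set L}
    (hZ : #Z ≤ 2 ^ lam) : #{S : Set L // S ⊆ Z ∧ #S ≤ lam} ≤ 2 ^ lam := by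
  refine (Cardinal.mk_bounded_subset_le Z lam).trans ?_
  rw [← pow_pow_self h]
  exact Cardinal.power_le_power_right (max_le hZ (h.trans (Cardinal.cantor _).le))

/-- A point of `A` whose type over every small subset of `Z` is realised more than `2^lam` times. -/
lemma gen_point {L Γ : Type u} (F : L → L → Γ) (Z A : Set L) {lam : Cardinal.{u}}
    (hl : ℵ₀ ≤ lam) (hZ : #Z ≤ 2 ^ lam) (hA : 2 ^ lam < #A) (hΓ : #Γ ≤ 2 ^ lam) :
    ∃ t ∈ A, ∀ S ⊆ Z, #S ≤ lam → 2 ^ lam < #{y | y ∈ A ∧ ∀ z ∈ S, F z y = F z t} := by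
  classical
  by_contra hcon
  push Not at hcon
  have h1 : ∀ t : A, ∃ S : {S : Set L // S ⊆ Z ∧ #S ≤ lam},
      #{y | y ∈ A ∧ ∀ z ∈ S.1, F z y = F z t.1} ≤ 2 ^ lam := by
    intro t
    obtain ⟨S, h1, h2, h3⟩ := hcon t.1 t.2
    exact ⟨⟨S, h1, h2⟩, h3⟩
  choose s hs using h1
  have h2l : ℵ₀ ≤ (2 : Cardinal.{u}) ^ lam := hl.trans (Cardinal.cantor _).le
  have hreg := Cardinal.isRegular_succ h2l
  obtain ⟨S0, hS0⟩ := Cardinal.infinite_pigeonhole_card s (Order.succ (2 ^ lam))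
    (Order.succ_le_of_lt hA) hreg.aleph0_le
    (by rw [hreg.cof_ord]; exact (bounded_le hl hZ).trans_lt (Order.lt_succ _))
  have h3 : #(S0.1 → Γ) ≤ 2 ^ lam := by
    rw [← Cardinal.power_def, ← pow_pow_self hl]
    exact (Cardinal.power_le_power_right hΓ).trans (Cardinal.power_le_power_left
      (Cardinal.aleph0_pos.trans_le h2l).ne' S0.2.2)
  obtain ⟨p, hp⟩ := Cardinal.infinite_pigeonhole_card
    (fun (t : s ⁻¹' {S0}) (z : S0.1) => F z.1 t.1.1) (Order.succ (2 ^ lam)) hS0 hreg.aleph0_le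
    (by rw [hreg.cof_ord]; exact h3.trans_lt (Order.lt_succ _))
  set T := (fun (t : s ⁻¹' {S0}) (z : S0.1) => F z.1 t.1.1) ⁻¹' {p} with hT
  have hTne : Nonempty T := by
    rw [← Cardinal.mk_ne_zero_iff]
    exact (Cardinal.aleph0_pos.trans_le (hreg.aleph0_le.trans hp)).ne'
  obtain ⟨t0⟩ := hTne
  have h4 : #T ≤ #{y | y ∈ A ∧ ∀ z ∈ S0.1, F z y = F z t0.1.1.1} := by
    refine Cardinal.mk_le_of_injective (f := fun t : T => (⟨t.1.1.1, t.1.1.2, ?_⟩ :
      {y | y ∈ A ∧ ∀ z ∈ S0.1, F z y = F z t0.1.1.1})) ?_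
    · intro z hz
      have h5 : (fun (z : S0.1) => F z.1 t.1.1.1) = p := t.2
      have h6 : (fun (z : S0.1) => F z.1 t0.1.1.1) = p := t0.2
      exact congrFun (h5.trans h6.symm) ⟨z, hz⟩
    · intro a b hab
      have := congrArg Subtype.val hab
      exact Subtype.ext (Subtype.ext (Subtype.ext this))
  have h5 := hs t0.1.1
  have h6 : s t0.1.1 = S0 := t0.1.2
  rw [h6] at h5
  exact absurd (hp.trans (h4.trans h5)) (not_le.mpr (Order.lt_succ _))

/-- A set of size at most `2^lam` closed under an operation on sets of size at most `lam`. -/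
lemma exists_closed {L : Type u} {lam : Cardinal.{u}} (hl : ℵ₀ ≤ lam) (Φ : Set L → Set L)
    (hΦ : ∀ S, #(Φ S) ≤ 2 ^ lam) :
    ∃ N : Set L, #N ≤ 2 ^ lam ∧ ∀ S ⊆ N, #S ≤ lam → Φ S ⊆ N := by
  classical
  have h2l : ℵ₀ ≤ (2 : Cardinal.{u}) ^ lam := hl.trans (Cardinal.cantor _).le
  set Cl : Set L → Set L := fun N => ⋃ S : {S : Set L // S ⊆ N ∧ #S ≤ lam}, Φ S.1 with hCl
  have hClc : ∀ N : Set L, #N ≤ 2 ^ lam → #(Cl N) ≤ 2 ^ lam := by
    intro N hN
    refine (Cardinal.mk_iUnion_le _).trans ?_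
    calc #{S : Set L // S ⊆ N ∧ #S ≤ lam} * ⨆ S : {S : Set L // S ⊆ N ∧ #S ≤ lam}, #(Φ S.1)
        ≤ 2 ^ lam * 2 ^ lam := by
          gcongr
          · exact bounded_le hl hN
          · exact ciSup_le' fun S => hΦ S.1
      _ = 2 ^ lam := Cardinal.mul_eq_self h2l
  set W := (Order.succ lam).ord.ToType with hW
  have hWc : #W = Order.succ lam := Cardinal.mk_ord_toType _
  have hIio : ∀ w : W, #(Iio w) ≤ lam := fun w =>
    Order.lt_succ_iff.1 (Cardinal.mk_Iio_toType_ord_lt w)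
  set N : W → Set L := (wellFounded_lt (α := W)).fix
    (fun w ih => ⋃ v : Iio w, Cl (ih v.1 v.2)) with hN
  have hNeq : ∀ w, N w = ⋃ v : Iio w, Cl (N v.1) := by
    intro w
    rw [hN]
    exact (wellFounded_lt (α := W)).fix_eq _ w
  have hNc : ∀ w, #(N w) ≤ 2 ^ lam := by
    intro w
    induction w using WellFoundedLT.induction with
    | _ w ih =>
      rw [hNeq]
      refine (Cardinal.mk_iUnion_le _).trans ?_
      calc #(Iio w) * ⨆ v : Iio w, #(Cl (N v.1)) ≤ 2 ^ lam * 2 ^ lam := by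
            gcongr
            · exact (hIio w).trans (Cardinal.cantor _).le
            · exact ciSup_le' fun v => hClc _ (ih v.1 v.2)
        _ = 2 ^ lam := Cardinal.mul_eq_self h2l
  have hmono : ∀ v w, v ≤ w → N v ⊆ N w := by
    intro v w hvw x hx
    rw [hNeq] at hx ⊢
    obtain ⟨u, hu⟩ := Set.mem_iUnion.mp hx
    exact Set.mem_iUnion.mpr ⟨⟨u.1, lt_of_lt_of_le u.2 hvw⟩, hu⟩
  have hbound : ∀ (S : Set L) (w : S → W), #S ≤ lam → ∃ v, ∀ x, w x < v := by
    intro S w hS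
    by_contra hcon
    push Not at hcon
    have h1 : (Set.univ : Set W) ⊆ ⋃ x : S, (Iio (w x) ∪ {w x}) := by
      intro v _
      obtain ⟨x, hx⟩ := hcon v
      refine Set.mem_iUnion.mpr ⟨x, ?_⟩
      rcases hx.lt_or_eq with h | h
      · exact Or.inl h
      · exact Or.inr h
    have h2 := (Cardinal.mk_le_mk_of_subset h1).trans (Cardinal.mk_iUnion_le _)
    rw [Cardinal.mk_univ, hWc] at h2
    have h3 : #S * ⨆ x : S, #(Iio (w x) ∪ {w x} : Set W) ≤ lam * lam := by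
      gcongr
      refine ciSup_le' fun x => ?_
      refine (Cardinal.mk_union_le _ _).trans ?_
      calc #(Iio (w x)) + #({w x} : Set W) ≤ lam + 1 := by
            gcongr
            · exact hIio _
            · rw [Cardinal.mk_singleton]
        _ = lam := Cardinal.add_one_eq hl
    rw [Cardinal.mul_eq_self hl] at h3
    exact absurd (h2.trans h3) (not_le.mpr (Order.lt_succ _))
  refine ⟨⋃ w, N w, ?_, ?_⟩
  · refine (Cardinal.mk_iUnion_le _).trans ?_
    calc #W * ⨆ w, #(N w) ≤ 2 ^ lam * 2 ^ lam := by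
          gcongr
          · rw [hWc]; exact Order.succ_le_of_lt (Cardinal.cantor _)
          · exact ciSup_le' fun w => hNc w
      _ = 2 ^ lam := Cardinal.mul_eq_self h2l
  · intro S hS hSc
    have h1 : ∀ x : S, ∃ w, x.1 ∈ N w := fun x => Set.mem_iUnion.mp (hS x.2)
    choose w hw using h1
    obtain ⟨v, hv⟩ := hbound S w hSc
    have h2 : S ⊆ N v := fun x hx => hmono _ _ (hv ⟨x, hx⟩).le (hw ⟨x, hx⟩)
    -- a later element
    obtain ⟨v', hv'⟩ : ∃ v', v < v' := by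
      obtain ⟨v', h⟩ := hbound {x | x ∈ (∅ : Set L)} (fun _ => v) (by simp)
      by_contra hcon
      push Not at hcon
      have h3 : (Set.univ : Set W) ⊆ Iio v ∪ {v} := by
        intro z _
        rcases (hcon z).lt_or_eq with h | h
        · exact Or.inl h
        · exact Or.inr h
      have h4 := (Cardinal.mk_le_mk_of_subset h3).trans (Cardinal.mk_union_le _ _)
      rw [Cardinal.mk_univ, hWc, Cardinal.mk_singleton] at h4
      have h5 : #(Iio v) + 1 ≤ lam := by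
        calc #(Iio v) + 1 ≤ lam + 1 := by gcongr; exact hIio v
          _ = lam := Cardinal.add_one_eq hl
      exact absurd (h4.trans h5) (not_le.mpr (Order.lt_succ _))
    refine Subset.trans ?_ (Set.subset_iUnion _ v')
    rw [hNeq]
    refine Subset.trans ?_ (Set.subset_iUnion (fun v : Iio v' => Cl (N v.1)) ⟨v, hv'⟩)
    intro x hx
    exact Set.mem_iUnion.mpr ⟨⟨S, h2, hSc⟩, hx⟩

/-- Erdős–Dushnik–Miller–Rado: a set of more than `2^lam` points has an independent set of more than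
`2^lam` points or a homogeneous set of more than `lam` points. -/
lemma asym {L Γ : Type u} (F : L → L → Γ) (hF : ∀ x y, F x y = F y x) (C : Set L)
    {lam : Cardinal.{u}} (hl : ℵ₀ ≤ lam) (hC : 2 ^ lam < #C) (ν : Γ)
    (hind : ∀ T ⊆ C, (∀ x ∈ T, ∀ y ∈ T, x ≠ y → F x y ≠ ν) → #T ≤ 2 ^ lam) :
    ∃ S ⊆ C, lam < #S ∧ ∀ x ∈ S, ∀ y ∈ S, x ≠ y → F x y = ν := by
  classical
  -- maximal independent sets
  have hM : ∀ X : Set L, ∃ T ⊆ X, (∀ x ∈ T, ∀ y ∈ T, x ≠ y → F x y ≠ ν) ∧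
      ∀ x ∈ X, x ∉ T → ∃ m ∈ T, F m x = ν := by
    intro X
    obtain ⟨T, hT⟩ := zorn_subset {T : Set L | T ⊆ X ∧ ∀ x ∈ T, ∀ y ∈ T, x ≠ y → F x y ≠ ν} (by
      intro c hc hchain
      refine ⟨⋃₀ c, ⟨Set.sUnion_subset fun t ht => (hc ht).1, ?_⟩,
        fun s hs => Set.subset_sUnion_of_mem hs⟩
      intro x hx y hy hxy
      obtain ⟨t1, ht1, hx1⟩ := hx
      obtain ⟨t2, ht2, hy2⟩ := hy
      rcases hchain.total ht1 ht2 with h | h
      · exact (hc ht2).2 x (h hx1) y hy2 hxy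
      · exact (hc ht1).2 x hx1 y (h hy2) hxy)
    refine ⟨T, hT.prop.1, hT.prop.2, ?_⟩
    intro x hx hxT
    by_contra hcon
    push Not at hcon
    have h1 : insert x T ∈ {T : Set L | T ⊆ X ∧ ∀ x ∈ T, ∀ y ∈ T, x ≠ y → F x y ≠ ν} := by
      refine ⟨Set.insert_subset hx hT.prop.1, ?_⟩
      intro a ha b hb hab
      rcases Set.mem_insert_iff.mp ha with ha1 | ha1
      · rcases Set.mem_insert_iff.mp hb with hb1 | hb1
        · exact absurd (ha1.trans hb1.symm) hab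
        · rw [hF, ha1]; exact hcon b hb1
      · rcases Set.mem_insert_iff.mp hb with hb1 | hb1
        · rw [hb1]; exact hcon a ha1
        · exact hT.prop.2 a ha1 b hb1 hab
    exact hxT (hT.le_of_ge h1 (Set.subset_insert x T) (Set.mem_insert x T))
  choose M hM1 hM2 hM3 using hM
  set XS : Set L → Set L := fun S => {x | x ∈ C ∧ ∀ s ∈ S, s ≠ x ∧ F s x = ν} with hXS
  obtain ⟨N, hNc, hN⟩ := exists_closed hl (fun S => M (XS S)) (fun S =>
    hind _ ((hM1 (XS S)).trans fun x hx => hx.1) (hM2 _))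
  obtain ⟨p, hpC, hpN⟩ : ∃ p ∈ C, p ∉ N := by
    by_contra hcon
    push Not at hcon
    exact absurd (Cardinal.mk_le_mk_of_subset hcon) (not_le.mpr (hNc.trans_lt hC))
  obtain ⟨S, hS⟩ := zorn_subset {S : Set L | (S ⊆ N ∧ S ⊆ C) ∧ (∀ x ∈ S, F x p = ν) ∧
      ∀ x ∈ S, ∀ y ∈ S, x ≠ y → F x y = ν} (by
    intro c hc hchain
    refine ⟨⋃₀ c, ⟨⟨Set.sUnion_subset fun t ht => (hc ht).1.1,
      Set.sUnion_subset fun t ht => (hc ht).1.2⟩, ?_, ?_⟩,
        fun s hs => Set.subset_sUnion_of_mem hs⟩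
    · intro x hx
      obtain ⟨t1, ht1, hx1⟩ := hx
      exact (hc ht1).2.1 x hx1
    · intro x hx y hy hxy
      obtain ⟨t1, ht1, hx1⟩ := hx
      obtain ⟨t2, ht2, hy2⟩ := hy
      rcases hchain.total ht1 ht2 with h | h
      · exact (hc ht2).2.2 x (h hx1) y hy2 hxy
      · exact (hc ht1).2.2 x hx1 y (h hy2) hxy)
  obtain ⟨⟨hSN, hSC⟩, hSp, hSS⟩ := hS.prop
  refine ⟨S, hSC, ?_, hSS⟩
  by_contra hcon
  have hSc : #S ≤ lam := not_lt.mp hcon
  have hpX : p ∈ XS S := ⟨hpC, fun s hs => ⟨fun h => hpN (by rw [← h]; exact hSN hs), hSp s hs⟩⟩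
  have hpM : p ∉ M (XS S) := fun h => hpN (hN S hSN hSc h)
  obtain ⟨m, hm, hmp⟩ := hM3 (XS S) p hpX hpM
  have hmN : m ∈ N := hN S hSN hSc hm
  have hmX : m ∈ XS S := hM1 _ hm
  have h1 : insert m S ∈ {S : Set L | (S ⊆ N ∧ S ⊆ C) ∧ (∀ x ∈ S, F x p = ν) ∧
      ∀ x ∈ S, ∀ y ∈ S, x ≠ y → F x y = ν} := by
    refine ⟨⟨Set.insert_subset hmN hSN, Set.insert_subset hmX.1 hSC⟩, ?_, ?_⟩
    · intro a ha
      rcases Set.mem_insert_iff.mp ha with rfl | ha
      · exact hmp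
      · exact hSp a ha
    · intro a ha b hb hab
      rcases Set.mem_insert_iff.mp ha with ha1 | ha1
      · rcases Set.mem_insert_iff.mp hb with hb1 | hb1
        · exact absurd (ha1.trans hb1.symm) hab
        · rw [hF, ha1]; exact (hmX.2 b hb1).2
      · rcases Set.mem_insert_iff.mp hb with hb1 | hb1
        · rw [hb1]; exact (hmX.2 a ha1).2
        · exact hSS a ha1 b hb1 hab
  have h2 : m ∈ S := hS.le_of_ge h1 (Set.subset_insert m S) (Set.mem_insert m S)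
  exact (hmX.2 m h2).1 rfl

end Pool.Agent.Run7.h584.NS
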