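import Mathlib
import Pool.Agent.H330.Two
import Pool.Agent.H330.Limit

/-!
# `r = 2`: a singular cardinal, block colouring
-/

open Cardinal Set

universe u

namespace Pool.Agent.Run7.h584.NS

open Pool.Agent.H330

variable {V L Γ Θ : Type u} [LinearOrder V] [LinearOrder L] [LinearOrder Θ]

open Classical in
/-- colour of a pair of levels -/
noncomputable def pc (bl : L → Θ) (cc : Θ → L → L → Bool) (c0 c1 : Γ) (e : Θ → Θ → Γ)
    (l1 l2 : L) : Γ :=
  if bl l1 = bl l2 then (if cc (bl l1) l1 l2 = true then c0 else c1) else e (bl l1) (bl l2)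

open Classical in
/-- colour of a triple `a < b < c` -/
noncomputable def G3 (D : V → V → L) (bl : L → Θ) (cc : Θ → L → L → Bool) (c0 c1 : Γ)
    (e e' : Θ → Θ → Γ) (a b c : V) : Γ :=
  if D a b < D b c then pc bl cc c0 c1 e (D a b) (D b c)
  else if D a b = D b c then
    (if bl (D a b) = bl (D a c) then c1 else e' (bl (D a b)) (bl (D a c)))
  else (if bl (D b c) = bl (D a b) then c0 else e' (bl (D b c)) (bl (D a b)))

variable {D : V → V → L} {bl : L → Θ} {cc : Θ → L → L → Bool} {c0 c1 : Γ} {e e' : Θ → Θ → Γ}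

lemma cross_comb (hbl : Monotone bl) {z x y : V} (h : bl (D z x) < bl (D x y)) :
    G3 D bl cc c0 c1 e e' z x y = e (bl (D z x)) (bl (D x y)) := by
  have h1 : D z x < D x y := by
    by_contra hcon
    exact absurd (hbl (not_lt.mp hcon)) (not_le.mpr h)
  rw [G3, if_pos h1, pc, if_neg h.ne]

lemma cross_mid (hD : TreeDist D) (hbl : Monotone bl) {z x y : V} (hxz : x < z) (hzy : z < y)
    (h : bl (D x z) < bl (D x y)) :
    G3 D bl cc c0 c1 e e' x z y = e' (bl (D x z)) (bl (D x y)) := by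
  have h1 : D x z < D x y := by
    by_contra hcon
    exact absurd (hbl (not_lt.mp hcon)) (not_le.mpr h)
  have h2 : D z y = D x z := hD.iso x z y hxz.ne (hxz.trans hzy).ne hzy.ne h1
  rw [G3, if_neg (by rw [h2]; exact lt_irrefl _), if_pos h2.symm, if_neg h.ne]

lemma cross_top (hD : TreeDist D) (hbl : Monotone bl) {z x y : V} (hxy : x < y) (hyz : y < z)
    (h : bl (D x z) < bl (D x y)) :
    G3 D bl cc c0 c1 e e' x y z = e' (bl (D x z)) (bl (D x y)) := by
  have h1 : D x z < D x y := by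
    by_contra hcon
    exact absurd (hbl (not_lt.mp hcon)) (not_le.mpr h)
  have h2 : D z y = D x z := hD.iso x z y (hxy.trans hyz).ne hxy.ne hyz.ne' h1
  have h3 : D y z = D x z := by rw [hD.symm y z]; exact h2
  rw [G3, if_neg (by rw [h3]; exact not_lt.mpr h1.le), if_neg (by rw [h3]; exact h1.ne'), h3,
    if_neg h.ne]

/-- A homogeneous comb inside one block is small. -/
lemma comb_small (hD : TreeDist D) (hne : c1 ≠ c0) {R : Cardinal.{u}} {k : Θ} (hR : ℵ₀ ≤ R)
    (hcc : ∀ (Y : Set L) (b : Bool), (∀ y ∈ Y, bl y = k) →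
      (∀ x ∈ Y, ∀ y ∈ Y, x < y → cc k x y = b) → #Y ≤ R)
    {K : Set V} (hK : Comb D K) (hk : ∀ x ∈ K, ∀ y ∈ K, x ≠ y → bl (D x y) = k) {ν : Γ}
    (hom : ∀ a ∈ K, ∀ b ∈ K, ∀ c ∈ K, a < b → b < c → G3 D bl cc c0 c1 e e' a b c = ν) :
    #K ≤ R := by
  classical
  obtain ⟨Y, hY1, hY2, _⟩ := comb_levels hD hK 1 le_rfl (fun _ => ν) ν (fun _ _ _ => rfl)
  have hYk : ∀ y ∈ Y, bl y = k := by
    intro y hy
    obtain ⟨x, hx, w, hw, hxw, rfl⟩ := hY2 y hy
    exact hk x hx w hw hxw.ne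
  have hYR : #Y ≤ R := by
    refine hcc Y (decide (ν = c0)) hYk ?_
    intro d hd d' hd' hdd
    obtain ⟨x, hx, y, hy, hxy, rfl⟩ := hY2 d hd
    obtain ⟨x', hx', y', hy', hxy', rfl⟩ := hY2 d' hd'
    have hlt : x < x' := by
      rcases lt_trichotomy x x' with h | h | h
      · exact h
      · exfalso
        subst h
        rw [hK.indep hD hx hy hy' hxy hxy'] at hdd
        exact lt_irrefl _ hdd
      · exact absurd (hK.lt_of_lt hD hx' hy' hx hy hxy' hxy h) hdd.asymm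
    have h1 := hK.indep hD hx hy hx' hxy hlt
    rw [h1] at hdd ⊢
    have h2 := hom x hx x' hx' y' hy' hlt hxy'
    rw [G3, if_pos hdd, pc, hk x hx x' hx' hlt.ne, hk x' hx' y' hy' hxy'.ne, if_pos rfl] at h2
    cases hb : cc k (D x x') (D x' y') with
    | true =>
      rw [if_pos hb] at h2
      rw [decide_eq_true h2.symm]
    | false =>
      rw [if_neg (by rw [hb]; decide)] at h2
      rw [decide_eq_false (fun h => hne (h2.trans h))]
  calc #K ≤ #Y + 1 := hY1
    _ ≤ R + 1 := by gcongr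
    _ = R := Cardinal.add_one_eq hR

/-- A homogeneous set inside one block is small. -/
lemma block_small [WellFoundedLT V] [WellFoundedLT L] (hD : TreeDist D) (hne : c1 ≠ c0)
    {R : Cardinal.{u}} {k : Θ} (hR : ℵ₀ ≤ R)
    (hcc : ∀ (Y : Set L) (b : Bool), (∀ y ∈ Y, bl y = k) →
      (∀ x ∈ Y, ∀ y ∈ Y, x < y → cc k x y = b) → #Y ≤ R)
    {Z : Set V} (hk : ∀ x ∈ Z, ∀ y ∈ Z, x ≠ y → bl (D x y) = k) {ν : Γ}
    (hom : ∀ a ∈ Z, ∀ b ∈ Z, ∀ c ∈ Z, a < b → b < c → G3 D bl cc c0 c1 e e' a b c = ν) :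
    #Z ≤ R := by
  by_contra hcon
  push Not at hcon
  obtain ⟨Z', hZ'Z, hZ'⟩ := Cardinal.le_mk_iff_exists_subset.mp (Order.succ_le_of_lt hcon)
  rcases regular_dichotomy hD (H := Z') (by rw [hZ']; exact Cardinal.isRegular_succ hR) with
    ⟨K, hK, hKc, hKcomb⟩ | ⟨a, ha, b, hb, c, hc, d, hd, hab, hbc, hcd, h1, h2, h3, h4, h5⟩
  · have h := comb_small hD hne hR hcc hKcomb
      (fun x hx y hy hxy => hk x (hZ'Z (hK hx)) y (hZ'Z (hK hy)) hxy)
      (fun a ha b hb c hc => hom a (hZ'Z (hK ha)) b (hZ'Z (hK hb)) c (hZ'Z (hK hc)))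
    rw [hKc, hZ'] at h
    exact absurd h (not_le.mpr (Order.lt_succ _))
  · have e1 := hom a (hZ'Z ha) b (hZ'Z hb) c (hZ'Z hc) hab hbc
    have e2 := hom a (hZ'Z ha) c (hZ'Z hc) d (hZ'Z hd) (hab.trans hbc) hcd
    rw [G3, if_neg (by rw [h3]; exact lt_irrefl _), if_pos h3.symm,
      hk a (hZ'Z ha) b (hZ'Z hb) hab.ne, hk a (hZ'Z ha) c (hZ'Z hc) (hab.trans hbc).ne,
      if_pos rfl] at e1
    rw [G3, if_neg (by rw [h5]; exact not_lt.mpr h1.le), if_neg (by rw [h5]; exact h1.ne'),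
      hk c (hZ'Z hc) d (hZ'Z hd) hcd.ne, hk a (hZ'Z ha) c (hZ'Z hc) (hab.trans hbc).ne,
      if_pos rfl] at e2
    exact hne (e1.trans e2.symm)

/-- if one cross triple is a comb then the third point is always below -/
lemma below (hD : TreeDist D) (hbl : Monotone bl) (hee : ∀ i j, e i j ≠ e' i j) {H : Set V} {ν : Γ}
    (hom : ∀ a ∈ H, ∀ b ∈ H, ∀ c ∈ H, a < b → b < c → G3 D bl cc c0 c1 e e' a b c = ν)
    {i j : Θ} (hij : i < j) (hν : e i j = ν) {x y z : V} (hx : x ∈ H) (hy : y ∈ H) (hz : z ∈ H)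
    (hxy : x ≠ y) (hxz : x ≠ z) (hyz : y ≠ z) (h1 : bl (D x y) = j) (h2 : bl (D x z) = i) :
    z < x ∧ z < y := by
  have key : ∀ x y : V, x ∈ H → y ∈ H → x < y → z ≠ x → z ≠ y → bl (D x y) = j →
      bl (D x z) = i → z < x := by
    intro x y hx hy hxy hzx hzy h1 h2
    by_contra hcon
    have hxz : x < z := lt_of_le_of_ne (not_lt.mp hcon) hzx.symm
    have hlt : bl (D x z) < bl (D x y) := by rw [h1, h2]; exact hij
    rcases lt_or_gt_of_ne hzy with h | h
    · have h3 := hom x hx z hz y hy hxz h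
      rw [cross_mid hD hbl hxz h hlt, h1, h2] at h3
      exact hee i j (hν.trans h3.symm)
    · have h3 := hom x hx y hy z hz hxy h
      rw [cross_top hD hbl hxy h hlt, h1, h2] at h3
      exact hee i j (hν.trans h3.symm)
  have h3 : D x z < D x y := by
    by_contra hcon
    exact absurd (hbl (not_lt.mp hcon)) (not_le.mpr (by rw [h1, h2]; exact hij))
  have h4 : D z y = D x z := hD.iso x z y hxz hxy hyz.symm h3
  rcases lt_or_gt_of_ne hxy with h | h
  · have := key x y hx hy h hxz.symm hyz.symm h1 h2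
    exact ⟨this, this.trans h⟩
  · have := key y x hy hx h hyz.symm hxz.symm (by rw [hD.symm y x]; exact h1)
      (by rw [hD.symm y z, h4]; exact h2)
    exact ⟨this.trans h, this⟩

end Pool.Agent.Run7.h584.NS
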