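import Mathlib
import Pool.Agent.Run7.h584.NS.TwoCore

/-!
# `r = 2`: a singular cardinal, block colouring: no large homogeneous set
-/

open Cardinal Set

universe u

namespace Pool.Agent.Run7.h584.NS

open Pool.Agent.H330

variable {V L Γ Θ : Type u} [LinearOrder V] [LinearOrder L] [LinearOrder Θ]
variable {D : V → V → L} {bl : L → Θ} {cc : Θ → L → L → Bool} {c0 c1 : Γ} {e e' : Θ → Θ → Γ}

omit [LinearOrder V] in
lemma bl_ultra (hD : TreeDist D) (hbl : Monotone bl) {x y z : V} (hxy : x ≠ y) (hxz : x ≠ z)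
    (hyz : y ≠ z) {k : Θ} (h1 : k ≤ bl (D x y)) (h2 : k ≤ bl (D x z)) : k ≤ bl (D y z) := by
  rcases hD.tri hxy hxz hyz with h | h | h
  · exact h1.trans (hbl h.2.le)
  · rw [← h.1]; exact h1
  · rw [← h.1]; exact h2

/-- the points at coarse distance at least `k` from `x` -/
def cls (D : V → V → L) (bl : L → Θ) (H : Set V) (k : Θ) (x : V) : Set V :=
  {z | z ∈ H ∧ (z = x ∨ k ≤ bl (D x z))}

omit [LinearOrder V] in
lemma cls_pair (hD : TreeDist D) (hbl : Monotone bl) {H : Set V} {k : Θ} {x a b : V}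
    (ha : a ∈ cls D bl H k x) (hb : b ∈ cls D bl H k x) (hab : a ≠ b) : k ≤ bl (D a b) := by
  rcases ha.2 with h | h
  · rcases hb.2 with h' | h'
    · exact absurd (h.trans h'.symm) hab
    · rw [h]; exact h'
  · rcases hb.2 with h' | h'
    · rw [h', hD.symm]; exact h
    · by_cases h1 : x = a
      · rw [← h1]; exact h'
      · by_cases h2 : x = b
        · rw [← h2, hD.symm]; exact h
        · exact bl_ultra hD hbl h1 h2 hab h h'

omit [LinearOrder V] in
lemma cls_max (hD : TreeDist D) (hbl : Monotone bl) {H : Set V} {k : Θ} {x a b : V}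
    (ha : a ∈ cls D bl H k x) (hb : b ∈ H) (hab : b ≠ a) (h : k ≤ bl (D a b)) :
    b ∈ cls D bl H k x := by
  refine ⟨hb, ?_⟩
  by_cases hbx : b = x
  · exact Or.inl hbx
  right
  rcases ha.2 with h' | h'
  · rw [← h']; exact h
  · by_cases hax : a = x
    · rw [← hax]; exact h
    · refine bl_ultra hD hbl hax hab.symm (Ne.symm hbx) ?_ h
      rw [hD.symm]; exact h'

/-- one block of levels -/
lemma step [WellFoundedLT V] [WellFoundedLT L] (hD : TreeDist D) (hbl : Monotone bl)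
    (hne : c1 ≠ c0) (hee : ∀ i j, e i j ≠ e' i j) {μ : Cardinal.{u}} (hμ : ℵ₀ ≤ μ)
    {R : Θ → Cardinal.{u}} (hR0 : ∀ k, ℵ₀ ≤ R k) (hRμ : ∀ k, R k < μ)
    (hcc : ∀ k, ∀ (Y : Set L) (b : Bool), (∀ y ∈ Y, bl y = k) →
      (∀ x ∈ Y, ∀ y ∈ Y, x < y → cc k x y = b) → #Y ≤ R k)
    {H : Set V} (hsh : ∀ x ∈ H, #{z | z ∈ H ∧ z < x} < μ) {ν : Γ}
    (hom : ∀ a ∈ H, ∀ b ∈ H, ∀ c ∈ H, a < b → b < c → G3 D bl cc c0 c1 e e' a b c = ν)
    {E : Set V} (hEH : E ⊆ H) (hE : #E = μ) {k0 k : Θ} (hk : k0 < k)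
    (hEk : ∀ x ∈ E, ∀ y ∈ E, x ≠ y → k ≤ bl (D x y) ∨ bl (D x y) = k0) :
    ∃ x ∈ E, #(E \ cls D bl E k x : Set V) < μ := by
  classical
  have hEne : E.Nonempty := by
    rw [Set.nonempty_iff_ne_empty]
    rintro rfl
    rw [Cardinal.mk_emptyCollection] at hE
    exact absurd hμ (not_le.mpr (by rw [← hE]; exact Cardinal.aleph0_pos))
  set u := wellFounded_lt.min E hEne with hu
  have huE : u ∈ E := wellFounded_lt.min_mem _ _
  by_cases h1 : #(E \ cls D bl E k u : Set V) < μ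
  · exact ⟨u, huE, h1⟩
  have h2 : ∃ x ∈ E \ cls D bl E k u, ∃ y ∈ E \ cls D bl E k u, x ≠ y ∧ k ≤ bl (D x y) := by
    by_contra hcon
    push Not at hcon
    have h3 : #(E \ cls D bl E k u : Set V) ≤ R k0 := by
      refine block_small (e := e) (e' := e') (k := k0) hD hne (hR0 k0) (hcc k0) (ν := ν) ?_ ?_
      · intro x hx y hy hxy
        rcases hEk x hx.1 y hy.1 hxy with h | h
        · exact absurd h (not_le.mpr (hcon x hx y hy hxy))
        · exact h
      · intro a ha b hb c hc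
        exact hom a (hEH ha.1) b (hEH hb.1) c (hEH hc.1)
    exact h1 (h3.trans_lt (hRμ k0))
  have h3 : ∃ x ∈ E \ cls D bl E k u, ∃ y ∈ E \ cls D bl E k u, x < y ∧ k ≤ bl (D x y) := by
    obtain ⟨x, hx, y, hy, hxy, h⟩ := h2
    rcases lt_or_gt_of_ne hxy with h' | h'
    · exact ⟨x, hx, y, hy, h', h⟩
    · exact ⟨y, hy, x, hx, h', by rw [hD.symm]; exact h⟩
  obtain ⟨x, hx, y, hy, hxy, h⟩ := h3
  have hxu : x ≠ u := fun h' => hx.2 ⟨hx.1, Or.inl h'⟩
  have hux : u < x := lt_of_le_of_ne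
    (not_lt.mp (fun h' => wellFounded_lt.not_lt_min E hx.1 h')) hxu.symm
  have hbx : bl (D u x) = k0 := by
    rcases hEk u huE x hx.1 hxu.symm with h' | h'
    · exact absurd (show x ∈ cls D bl E k u from ⟨hx.1, Or.inr h'⟩) hx.2
    · exact h'
  have hν : e k0 (bl (D x y)) = ν := by
    have h4 := hom u (hEH huE) x (hEH hx.1) y (hEH hy.1) hux hxy
    rw [cross_comb hbl (by rw [hbx]; exact hk.trans_le h), hbx] at h4
    exact h4
  refine ⟨x, hx.1, (Cardinal.mk_le_mk_of_subset ?_).trans_lt (hsh x (hEH hx.1))⟩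
  intro z hz
  have hzx : z ≠ x := fun h' => hz.2 ⟨hz.1, Or.inl h'⟩
  have hzy : z ≠ y := by
    rintro rfl
    exact hz.2 ⟨hz.1, Or.inr h⟩
  have hbz : bl (D x z) = k0 := by
    rcases hEk x hx.1 z hz.1 hzx.symm with h' | h'
    · exact absurd (show z ∈ cls D bl E k x from ⟨hz.1, Or.inr h'⟩) hz.2
    · exact h'
  exact ⟨hEH hz.1, (below hD hbl hee hom (hk.trans_le h) hν (hEH hx.1) (hEH hy.1) (hEH hz.1)
    hxy.ne hzx.symm hzy.symm rfl hbz).1⟩

/-- all levels -/
lemma allk [WellFoundedLT V] [WellFoundedLT L] [WellFoundedLT Θ] (hD : TreeDist D)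
    (hbl : Monotone bl)
    (hne : c1 ≠ c0) (hee : ∀ i j, e i j ≠ e' i j) {μ : Cardinal.{u}} (hμ : ℵ₀ ≤ μ)
    (hsing : μ.ord.cof < μ) (hΘI : ∀ k : Θ, #(Iio k) < μ.ord.cof)
    {R : Θ → Cardinal.{u}} (hR0 : ∀ k, ℵ₀ ≤ R k) (hRμ : ∀ k, R k < μ)
    (hcc : ∀ k, ∀ (Y : Set L) (b : Bool), (∀ y ∈ Y, bl y = k) →
      (∀ x ∈ Y, ∀ y ∈ Y, x < y → cc k x y = b) → #Y ≤ R k)
    {H : Set V} (hH : #H = μ) (hsh : ∀ x ∈ H, #{z | z ∈ H ∧ z < x} < μ) {ν : Γ}
    (hom : ∀ a ∈ H, ∀ b ∈ H, ∀ c ∈ H, a < b → b < c → G3 D bl cc c0 c1 e e' a b c = ν) (k : Θ) :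
    ∃ S : Set V, S ⊆ H ∧ #(H \ S : Set V) < μ ∧ (∀ x ∈ S, ∀ y ∈ S, x ≠ y → k ≤ bl (D x y)) ∧
      ∀ x ∈ S, ∀ y ∈ H, y ≠ x → k ≤ bl (D x y) → y ∈ S := by
  classical
  induction k using WellFoundedLT.induction with
  | _ k ih =>
    choose! S hSH hS1 hS2 hS3 using ih
    set E : Set V := {z | z ∈ H ∧ ∀ k' < k, z ∈ S k'} with hEdef
    have hEH : E ⊆ H := fun z hz => hz.1
    have hc : #(H \ E : Set V) < μ := by
      have h1 : H \ E ⊆ ⋃ k' ∈ Iio k, H \ S k' := by
        intro z hz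
        have h2 : ¬ ∀ k' < k, z ∈ S k' := fun h => hz.2 ⟨hz.1, h⟩
        push Not at h2
        obtain ⟨k', hk', h3⟩ := h2
        exact Set.mem_biUnion (show k' ∈ Iio k from hk') ⟨hz.1, h3⟩
      refine (Cardinal.mk_le_mk_of_subset h1).trans_lt ?_
      refine (Cardinal.mk_biUnion_le _ _).trans_lt ?_
      refine Cardinal.mul_lt_of_lt hμ ((hΘI k).trans hsing) ?_
      exact Cardinal.iSup_lt_of_lt_cof_ord (hΘI k) (fun i => hS1 i.1 i.2)
    have hEc : #E = μ := by
      refine le_antisymm (hH ▸ Cardinal.mk_le_mk_of_subset hEH) ?_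
      by_contra hcon
      push Not at hcon
      have h1 : #H ≤ #E + #(H \ E : Set V) := by
        refine (Cardinal.mk_le_mk_of_subset ?_).trans (Cardinal.mk_union_le _ _)
        intro z hz
        by_cases h : z ∈ E
        · exact Or.inl h
        · exact Or.inr ⟨hz, h⟩
      rw [hH] at h1
      exact absurd h1 (not_le.mpr (Cardinal.add_lt_of_lt hμ hcon hc))
    have hEk : ∀ x ∈ E, ∀ y ∈ E, x ≠ y → ∀ k' < k, k' ≤ bl (D x y) := by
      intro x hx y hy hxy k' hk'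
      exact hS2 k' hk' x (hx.2 k' hk') y (hy.2 k' hk') hxy
    have hex : ∃ x ∈ E, #(E \ cls D bl E k x : Set V) < μ := by
      by_cases hpred : ∃ k0 < k, ∀ k' < k, k' ≤ k0
      · obtain ⟨k0, hk0, hmax⟩ := hpred
        refine step hD hbl hne hee hμ hR0 hRμ hcc hsh hom hEH hEc hk0 ?_
        intro x hx y hy hxy
        rcases lt_or_ge (bl (D x y)) k with h | h
        · exact Or.inr (le_antisymm (hmax _ h) (hEk x hx y hy hxy k0 hk0))
        · exact Or.inl h
      · have hEne : E.Nonempty := by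
          rw [Set.nonempty_iff_ne_empty]
          intro h
          rw [h, Cardinal.mk_emptyCollection] at hEc
          exact absurd hμ (not_le.mpr (by rw [← hEc]; exact Cardinal.aleph0_pos))
        obtain ⟨x, hx⟩ := hEne
        refine ⟨x, hx, ?_⟩
        have : E \ cls D bl E k x = ∅ := by
          rw [Set.diff_eq_empty]
          intro z hz
          refine ⟨hz, ?_⟩
          by_cases hzx : z = x
          · exact Or.inl hzx
          · right
            by_contra hcon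
            push Not at hcon
            exact hpred ⟨bl (D x z), hcon, fun k' hk' => hEk x hx z hz (Ne.symm hzx) k' hk'⟩
        rw [this, Cardinal.mk_emptyCollection]
        exact Cardinal.aleph0_pos.trans_le hμ
    obtain ⟨x, hx, hxc⟩ := hex
    refine ⟨cls D bl H k x, fun z hz => hz.1, ?_, fun a ha b hb hab => cls_pair hD hbl ha hb hab,
      fun a ha b hb hab h => cls_max hD hbl ha hb hab h⟩
    have h1 : H \ cls D bl H k x ⊆ (H \ E) ∪ (E \ cls D bl E k x) := by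
      intro z hz
      by_cases h : z ∈ E
      · exact Or.inr ⟨h, fun h' => hz.2 ⟨hz.1, h'.2⟩⟩
      · exact Or.inl ⟨hz.1, h⟩
    exact ((Cardinal.mk_le_mk_of_subset h1).trans (Cardinal.mk_union_le _ _)).trans_lt
      (Cardinal.add_lt_of_lt hμ hc hxc)

/-- no homogeneous set of size `μ` -/
theorem core [WellFoundedLT V] [WellFoundedLT L] [WellFoundedLT Θ] (hD : TreeDist D)
    (hbl : Monotone bl)
    (hne : c1 ≠ c0) (hee : ∀ i j, e i j ≠ e' i j) {μ : Cardinal.{u}} (hμ : ℵ₀ ≤ μ)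
    (hsing : μ.ord.cof < μ) (hΘ : #Θ = μ.ord.cof) (hΘI : ∀ k : Θ, #(Iio k) < μ.ord.cof)
    {R : Θ → Cardinal.{u}} (hR0 : ∀ k, ℵ₀ ≤ R k) (hRμ : ∀ k, R k < μ)
    (hcc : ∀ k, ∀ (Y : Set L) (b : Bool), (∀ y ∈ Y, bl y = k) →
      (∀ x ∈ Y, ∀ y ∈ Y, x < y → cc k x y = b) → #Y ≤ R k)
    {ν : Γ} (he : ∀ I : Set Θ, #I = μ.ord.cof → ∃ x ∈ I, ∃ y ∈ I, x < y ∧ e x y ≠ ν)
    {H : Set V} (hH : #H = μ) (hsh : ∀ x ∈ H, #{z | z ∈ H ∧ z < x} < μ)
    (hom : ∀ a ∈ H, ∀ b ∈ H, ∀ c ∈ H, a < b → b < c → G3 D bl cc c0 c1 e e' a b c = ν) :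
    False := by
  classical
  have hθ : ℵ₀ ≤ μ.ord.cof := Ordinal.aleph0_le_cof.mpr (Cardinal.isSuccLimit_ord hμ)
  choose S hSH hS1 hS2 hS3 using allk hD hbl hne hee hμ hsing hΘI hR0 hRμ hcc hH hsh hom
  -- nested
  have hnest : ∀ k k', k ≤ k' → S k' ⊆ S k := by
    intro k k' hkk v hv
    have h1 : (S k ∩ S k').Nonempty := by
      by_contra hcon
      rw [Set.not_nonempty_iff_eq_empty] at hcon
      have h2 : H ⊆ (H \ S k) ∪ (H \ S k') := by
        intro z hz
        by_cases h : z ∈ S k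
        · right
          refine ⟨hz, fun h' => ?_⟩
          have : z ∈ S k ∩ S k' := ⟨h, h'⟩
          rw [hcon] at this
          exact this
        · exact Or.inl ⟨hz, h⟩
      have h3 := ((Cardinal.mk_le_mk_of_subset h2).trans (Cardinal.mk_union_le _ _)).trans_lt
        (Cardinal.add_lt_of_lt hμ (hS1 k) (hS1 k'))
      rw [hH] at h3
      exact lt_irrefl _ h3
    obtain ⟨w, hw1, hw2⟩ := h1
    by_cases hvw : v = w
    · rw [hvw]; exact hw1
    · exact hS3 k w hw1 v (hSH k' hv) hvw (hkk.trans (hS2 k' w hw2 v hv (Ne.symm hvw)))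
  set A : Set V := {x | x ∈ H ∧ ∃ k, x ∉ S k} with hA
  have hkk : ∀ x, ∃ k, x ∈ A → (x ∉ S k ∧ ∀ k' < k, x ∈ S k') := by
    intro x
    by_cases hx : x ∈ A
    · have hne' : {k | x ∉ S k}.Nonempty := hx.2
      refine ⟨wellFounded_lt.min _ hne', fun _ => ⟨wellFounded_lt.min_mem _ hne', ?_⟩⟩
      intro k' hk'
      by_contra hcon
      exact wellFounded_lt.not_lt_min {k | x ∉ S k} hcon hk'
    · have hΘne : Nonempty Θ := by
        rw [← Cardinal.mk_ne_zero_iff, hΘ]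
        exact (Cardinal.aleph0_pos.trans_le hθ).ne'
      exact ⟨Classical.choice hΘne, fun h => absurd h hx⟩
  choose kk hkk using hkk
  have hnomax : ∀ m : Θ, ∃ k, m < k := by
    intro m
    by_contra hcon
    push Not at hcon
    have h1 : (Set.univ : Set Θ) ⊆ Iio m ∪ {m} := by
      intro k _
      rcases (hcon k).lt_or_eq with h | h
      · exact Or.inl h
      · exact Or.inr h
    have h2 := ((Cardinal.mk_le_mk_of_subset h1).trans (Cardinal.mk_union_le _ _)).trans_lt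
      (Cardinal.add_lt_of_lt hθ (hΘI m) (by
        rw [Cardinal.mk_singleton]; exact Cardinal.one_lt_aleph0.trans_le hθ))
    rw [Cardinal.mk_univ, hΘ] at h2
    exact lt_irrefl _ h2
  have hss : (H \ A).Subsingleton := by
    intro x hx y hy
    by_contra hxy
    obtain ⟨k, hk⟩ := hnomax (bl (D x y))
    have hxS : x ∈ S k := by
      by_contra h
      exact hx.2 ⟨hx.1, k, h⟩
    have hyS : y ∈ S k := by
      by_contra h
      exact hy.2 ⟨hy.1, k, h⟩
    exact absurd (hS2 k x hxS y hyS hxy) (not_le.mpr hk)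
  set I : Set Θ := kk '' A with hI
  have hIc : #I = μ.ord.cof := by
    refine le_antisymm (hΘ ▸ Cardinal.mk_set_le I) ?_
    by_contra hcon
    push Not at hcon
    have h1 : A ⊆ ⋃ k ∈ I, H \ S k := by
      intro x hx
      exact Set.mem_biUnion (show kk x ∈ I from ⟨x, hx, rfl⟩) ⟨hx.1, (hkk x hx).1⟩
    have h2 : #A < μ := by
      refine (Cardinal.mk_le_mk_of_subset h1).trans_lt ?_
      refine (Cardinal.mk_biUnion_le _ _).trans_lt ?_
      refine Cardinal.mul_lt_of_lt hμ (hcon.trans hsing) ?_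
      exact Cardinal.iSup_lt_of_lt_cof_ord hcon (fun i => hS1 i.1)
    have h3 : H ⊆ A ∪ (H \ A) := by
      intro z hz
      by_cases h : z ∈ A
      · exact Or.inl h
      · exact Or.inr ⟨hz, h⟩
    have h4 : #(H \ A : Set V) < μ := by
      refine lt_of_le_of_lt (Cardinal.mk_le_one_iff_set_subsingleton.mpr hss) ?_
      exact Cardinal.one_lt_aleph0.trans_le hμ
    have h5 := ((Cardinal.mk_le_mk_of_subset h3).trans (Cardinal.mk_union_le _ _)).trans_lt
      (Cardinal.add_lt_of_lt hμ h2 h4)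
    rw [hH] at h5
    exact lt_irrefl _ h5
  have hz : ∀ i : I, ∃ x ∈ A, kk x = i.1 := fun i => i.2
  choose z hzA hzk using hz
  have hzinj : Function.Injective z := by
    intro i j hij
    apply Subtype.ext
    rw [← hzk i, ← hzk j, hij]
  obtain ⟨J, hJ, hmono⟩ := mono_subset z hzinj (by rw [hIc]; exact hθ)
  rw [hIc] at hJ
  -- next element
  have hnxt : ∀ i : I, ∃ j : I, j ∈ J ∧ i < j := by
    intro i
    by_contra hcon
    push Not at hcon
    have h1 : #J ≤ #(Iio i.1 ∪ {i.1} : Set Θ) := by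
      refine Cardinal.mk_le_of_injective (f := fun j : J => (⟨j.1.1, ?_⟩ :
        (Iio i.1 ∪ {i.1} : Set Θ))) ?_
      · rcases (hcon j.1 j.2).lt_or_eq with h | h
        · exact Or.inl h
        · exact Or.inr (congrArg Subtype.val h)
      · intro a b hab
        have := congrArg Subtype.val hab
        exact Subtype.ext (Subtype.ext this)
    have h2 := (h1.trans (Cardinal.mk_union_le _ _)).trans_lt
      (Cardinal.add_lt_of_lt hθ (hΘI i.1) (by
        rw [Cardinal.mk_singleton]; exact Cardinal.one_lt_aleph0.trans_le hθ))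
    rw [hJ] at h2
    exact lt_irrefl _ h2
  choose nxt hn1 hn2 using hnxt
  have hin : ∀ i j : I, i < j → z j ∈ S i.1 := by
    intro i j hij
    exact (hkk (z j) (hzA j)).2 i.1 (by rw [hzk j]; exact hij)
  have hneq : ∀ i j : I, i < j → z i ≠ z j := fun i j hij h => hij.ne (hzinj h)
  -- coarse distance of `z i` and a later point
  have hlow : ∀ i j : I, i < j → bl (D (z i) (z j)) < i.1 := by
    intro i j hij
    by_contra hcon
    push Not at hcon
    have h1 := (hkk (z i) (hzA i)).1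
    rw [hzk i] at h1
    refine h1 (hS3 i.1 (z j) (hin i j hij) (z i) (hzA i).1 (hneq i j hij) ?_)
    rw [hD.symm]; exact hcon
  have hhigh : ∀ i j : I, i < j → ∀ k' < i.1, k' ≤ bl (D (z i) (z j)) := by
    intro i j hij k' hk'
    refine hS2 k' (z i) ?_ (z j) (hnest k' i.1 hk'.le (hin i j hij)) (hneq i j hij)
    exact (hkk (z i) (hzA i)).2 k' (by rw [hzk i]; exact hk')
  have hconst : ∀ i j j' : I, i < j → i < j' → bl (D (z i) (z j)) = bl (D (z i) (z j')) := by
    intro i j j' h1 h2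
    exact le_antisymm (hhigh i j' h2 _ (hlow i j h1)) (hhigh i j h1 _ (hlow i j' h2))
  set b : I → Θ := fun i => bl (D (z i) (z (nxt i))) with hb
  have hb1 : ∀ i j : I, i < j → bl (D (z i) (z j)) = b i := fun i j hij =>
    hconst i j (nxt i) hij (hn2 i)
  have hb2 : ∀ i j : I, i < j → b i < b j := by
    intro i j hij
    refine (hlow i (nxt i) (hn2 i)).trans_le ?_
    exact hS2 i.1 (z j) (hin i j hij) (z (nxt j)) (hin i (nxt j) (hij.trans (hn2 j)))
      (hneq j (nxt j) (hn2 j))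
  have hbm : StrictMono b := fun i j hij => hb2 i j hij
  obtain ⟨x, hx, y, hy, hxy, hexy⟩ := he (b '' J) (by
    rw [Cardinal.mk_image_eq hbm.injective]; exact hJ)
  obtain ⟨i, hi, rfl⟩ := hx
  obtain ⟨j, hj, rfl⟩ := hy
  have hij : i < j := hbm.lt_iff_lt.mp hxy
  apply hexy
  have h1 := hom (z i) (hzA i).1 (z j) (hzA j).1 (z (nxt j)) (hzA (nxt j)).1
    (hmono hi hj hij) (hmono hj (hn1 j) (hn2 j))
  rw [cross_comb hbl (by rw [hb1 i j hij]; exact hxy), hb1 i j hij] at h1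
  exact h1

end Pool.Agent.Run7.h584.NS
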