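import Mathlib
import Pool.Agent.Run7.h584.NS.TwoCore2
import Pool.Agent.H330.Final

/-!
# `r = 2`: the step for a singular cardinal
-/

open Cardinal Set

universe u

namespace Pool.Agent.Run7.h584.NS

open Pool.Agent.H330

/-- a Sierpinski colouring of the pairs of `B` -/
lemma sierp {L : Type u} [LinearOrder L] [WellFoundedLT L] (B : Set L) (R : Cardinal.{u})
    (hR : ℵ₀ ≤ R) (hB : #B ≤ 2 ^ R) :
    ∃ c : L → L → Bool, ∀ (Y : Set L) (b : Bool), Y ⊆ B →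
      (∀ x ∈ Y, ∀ y ∈ Y, x < y → c x y = b) → #Y ≤ R := by
  obtain ⟨OM, c, h1, _, h3⟩ := limit_block B R hR hB
  refine ⟨c, fun Y b hY hb => h3 Y hY ?_⟩
  intro x hx y hy z hz hxy hyz hOM
  exact h1 x (hY hx) y (hY hy) z (hY hz) hxy hyz hOM
    ((hb x hx y hy hxy).trans (hb y hy z hz hyz).symm)

variable {V L Γ Θ : Type u} [LinearOrder V] [LinearOrder L] [LinearOrder Θ]

open Classical in
/-- the colouring of the triples -/
noncomputable def g3 (D : V → V → L) (bl : L → Θ) (cc : Θ → L → L → Bool) (c0 c1 : Γ)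
    (e e' : Θ → Θ → Γ) (s : Finset V) : Γ :=
  if h : ∃ t : V × V × V, TwoSort s t.1 t.2.1 t.2.2 then
    G3 D bl cc c0 c1 e e' h.choose.1 h.choose.2.1 h.choose.2.2
  else c0

lemma g3_eq {D : V → V → L} {bl : L → Θ} {cc : Θ → L → L → Bool} {c0 c1 : Γ}
    {e e' : Θ → Θ → Γ} {s : Finset V} {a b c : V} (h : TwoSort s a b c) :
    g3 D bl cc c0 c1 e e' s = G3 D bl cc c0 c1 e e' a b c := by
  have hex : ∃ t : V × V × V, TwoSort s t.1 t.2.1 t.2.2 := ⟨(a, b, c), h⟩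
  rw [g3, dif_pos hex]
  obtain ⟨h1, h2, h3⟩ := two_unique hex.choose_spec h
  rw [h1, h2, h3]

lemma G3_ge {D : V → V → L} {bl : L → Θ} {cc : Θ → L → L → Bool} {c0 c1 : Γ}
    {e e' : Θ → Θ → Γ} {lam : Γ → Cardinal.{u}} {μ : Cardinal.{u}} (h0 : μ ≤ lam c0)
    (h1 : μ ≤ lam c1) (he : ∀ i j, μ ≤ lam (e i j)) (he' : ∀ i j, μ ≤ lam (e' i j)) (a b c : V) :
    μ ≤ lam (G3 D bl cc c0 c1 e e' a b c) := by
  unfold G3 pc
  split_ifs
  all_goals first | exact h0 | exact h1 | exact he _ _ | exact he' _ _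

/-- `r = 2`: the step for a singular cardinal `μ` and colours with entries at least `μ`. -/
theorem step_two_limit [WellFoundedLT V] {κ μ : Cardinal.{u}}
    {D : V → V → κ.ord.ToType} (hD : TreeDist D) {lam : Γ → Cardinal.{u}}
    (hlam : ∀ ν, (2 : Cardinal) ≤ lam ν) {c0 c1 : Γ} (hne : c1 ≠ c0) (h0 : μ ≤ lam c0)
    (h1 : μ ≤ lam c1) (hμ : ℵ₀ ≤ μ) (hsing : μ.ord.cof < μ) (hκ : κ ≤ 2 ^< μ)
    (hlt : ∀ ρ < μ, (2 : Cardinal.{u}) ^ ρ < κ)
    (e : μ.ord.cof.ord.ToType → μ.ord.cof.ord.ToType → Γ) (heμ : ∀ i j, μ ≤ lam (e i j))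
    (he : ∀ (ν : Γ) (I : Set μ.ord.cof.ord.ToType), #I = μ.ord.cof →
      ∃ x ∈ I, ∃ y ∈ I, x < y ∧ e x y ≠ ν) :
    ∃ g : Finset V → Γ, NA (fun ν => lam ν + 1) 3 g := by
  classical
  obtain ⟨bl, R, hbl, hR0, hRμ, hRB⟩ := limit_blocks hμ hsing hκ hlt
  have hbk : ∀ k, ∃ c : κ.ord.ToType → κ.ord.ToType → Bool, ∀ (Y : Set κ.ord.ToType) (b : Bool),
      Y ⊆ {l | bl l = k} → (∀ x ∈ Y, ∀ y ∈ Y, x < y → c x y = b) → #Y ≤ R k :=
    fun k => sierp _ (R k) (hR0 k) (hRB k)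
  choose cc hcc using hbk
  set e' : μ.ord.cof.ord.ToType → μ.ord.cof.ord.ToType → Γ :=
    fun i j => if e i j = c0 then c1 else c0 with he'
  have hee : ∀ i j, e i j ≠ e' i j := by
    intro i j h
    by_cases h2 : e i j = c0
    · rw [he'] at h
      simp only [h2, if_true] at h
      exact hne h.symm
    · rw [he'] at h
      simp only [h2, if_false] at h
  have he'μ : ∀ i j, μ ≤ lam (e' i j) := by
    intro i j
    rw [he']
    dsimp only
    split_ifs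
    · exact h1
    · exact h0
  refine ⟨g3 D bl cc c0 c1 e e', ?_⟩
  intro ν Y hY
  by_contra hcon
  push Not at hcon
  have hom : ∀ a ∈ Y, ∀ b ∈ Y, ∀ c ∈ Y, a < b → b < c → G3 D bl cc c0 c1 e e' a b c = ν := by
    intro a ha b hb c hc hab hbc
    obtain ⟨s, hs, hs'⟩ := two_triple hab hbc
    rw [← g3_eq hs']
    exact hcon s hs (hs'.sub ha hb hc)
  have hν : μ ≤ lam ν := by
    have h3 : ((3 : ℕ) : Cardinal) ≤ #Y := by
      rw [hY]
      calc ((3 : ℕ) : Cardinal.{u}) = 2 + 1 := by norm_num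
        _ ≤ lam ν + 1 := by gcongr; exact hlam ν
    obtain ⟨s, hs, hs3⟩ := exists_finset_card h3
    obtain ⟨a, b, c, habc⟩ := two_exists hs3
    have h4 := hcon s hs3 hs
    rw [g3_eq habc] at h4
    rw [← h4]
    exact G3_ge h0 h1 heμ he'μ a b c
  obtain ⟨Y', hY'Y, hY'⟩ := Cardinal.le_mk_iff_exists_subset.mp
    (show μ ≤ #Y by rw [hY]; exact hν.trans (self_le_add_right _ _))
  obtain ⟨H, hHY, hH, hsh⟩ := shrink Y'
  rw [hY'] at hH hsh
  have hΘ : #μ.ord.cof.ord.ToType = μ.ord.cof := Cardinal.mk_ord_toType _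
  refine core (e := e) (e' := e') hD hbl hne hee hμ hsing hΘ
    (fun k => Cardinal.mk_Iio_toType_ord_lt k) hR0 hRμ
    (fun k Y b hY hb => hcc k Y b (fun y hy => hY y hy) hb) (he ν) hH hsh ?_
  intro a ha b hb c hc
  exact hom a (hY'Y (hHY ha)) b (hY'Y (hHY hb)) c (hY'Y (hHY hc))

end Pool.Agent.Run7.h584.NS
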