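import Mathlib
import Pool.Agent.Run7.h584.NS.TwoStep
import Pool.Agent.H330.EndHom
import Pool.Agent.H330.Pos

/-!
# `r = 2`, constant sequences: lowering the entries, and positive relations
-/

open Cardinal Set

universe u

namespace Pool.Agent.Run7.h584.NS

open Pool.Agent.H330

/-- a function of increasing pairs as a function of finite sets -/
lemma pair_fun {L Γ : Type u} [LinearOrder L] [Nonempty Γ] (p : L → L → Γ) :
    ∃ f : Finset L → Γ, ∀ x y, x < y → f {x, y} = p x y := by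
  classical
  refine ⟨fun s => if h : s.Nonempty then p (s.min' h) (s.max' h) else Classical.arbitrary Γ, ?_⟩
  intro x y hxy
  have hne : ({x, y} : Finset L).Nonempty := ⟨x, by simp⟩
  have h1 : ({x, y} : Finset L).min' hne = x := by
    refine le_antisymm (Finset.min'_le _ _ (by simp)) (Finset.le_min' _ _ _ ?_)
    intro z hz
    rcases Finset.mem_insert.mp hz with h | h
    · exact h.ge
    · rw [Finset.mem_singleton.mp h]; exact hxy.le
  have h2 : ({x, y} : Finset L).max' hne = y := by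
    refine le_antisymm (Finset.max'_le _ _ _ ?_) (Finset.le_max' _ _ (by simp))
    intro z hz
    rcases Finset.mem_insert.mp hz with h | h
    · rw [h]; exact hxy.le
    · exact (Finset.mem_singleton.mp h).le
  show (if h : ({x, y} : Finset L).Nonempty then p (({x, y} : Finset L).min' h)
    (({x, y} : Finset L).max' h) else Classical.arbitrary Γ) = p x y
  rw [dif_pos hne, h1, h2]

lemma NA_pair {L Γ : Type u} [LinearOrder L] {lam : Γ → Cardinal.{u}} {f : Finset L → Γ}
    {p : L → L → Γ} (hfp : ∀ x y, x < y → f {x, y} = p x y)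
    (h : ∀ ν (Y : Set L), #Y = lam ν → ∃ x ∈ Y, ∃ y ∈ Y, x < y ∧ p x y ≠ ν) : NA lam 2 f := by
  intro ν Y hY
  obtain ⟨x, hx, y, hy, hxy, hp⟩ := h ν Y hY
  refine ⟨{x, y}, Finset.card_pair hxy.ne, ?_, by rw [hfp x y hxy]; exact hp⟩
  intro z hz
  rcases Finset.mem_insert.mp (Finset.mem_coe.mp hz) with h | h
  · rw [h]; exact hx
  · rw [Finset.mem_singleton.mp h]; exact hy

/-- `κ ≤ 2^R`: two colours with entries `R⁺` -/
lemma low_sierp {κ R : Cardinal.{u}} (hR : ℵ₀ ≤ R) (hκ : κ ≤ 2 ^ R) {Γ : Type u} {c0 c1 : Γ}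
    (hne : c1 ≠ c0) : ∃ f : Finset κ.ord.ToType → Γ, NA (fun _ => Order.succ R) 2 f := by
  classical
  obtain ⟨c, hc⟩ := sierp (Set.univ : Set κ.ord.ToType) R hR
    (by rw [Cardinal.mk_univ, Cardinal.mk_ord_toType]; exact hκ)
  haveI : Nonempty Γ := ⟨c0⟩
  obtain ⟨f, hf⟩ := pair_fun (fun x y : κ.ord.ToType => if c x y = true then c0 else c1)
  refine ⟨f, NA_pair hf ?_⟩
  intro ν Y hY
  by_contra hcon
  push Not at hcon
  have h1 := hc Y (decide (ν = c0)) (Set.subset_univ _) (by
    intro x hx y hy hxy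
    have h2 := hcon x hx y hy hxy
    cases hb : c x y with
    | true =>
      rw [if_pos hb] at h2
      rw [decide_eq_true h2.symm]
    | false =>
      rw [if_neg (by rw [hb]; decide)] at h2
      rw [decide_eq_false (fun h => hne (h2.trans h))])
  rw [hY] at h1
  exact absurd h1 (not_le.mpr (Order.lt_succ _))

/-- `κ ≤ 2^#Γ`: all entries `3` -/
lemma low_three {κ : Cardinal.{u}} {Γ : Type u} (hΓ : ℵ₀ ≤ #Γ) (hκ : κ ≤ 2 ^ #Γ) :
    ∃ f : Finset κ.ord.ToType → Γ, NA (fun _ => 3) 2 f := by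
  classical
  haveI := nonempty_ordToType hΓ
  obtain ⟨D, φ, hD, hφ⟩ := exists_treeDist (#Γ).ord.ToType κ.ord.ToType
    (by rw [Cardinal.mk_ord_toType, Cardinal.mk_ord_toType]; exact hκ)
  obtain ⟨ι⟩ := Cardinal.eq.mp (Cardinal.mk_ord_toType #Γ)
  haveI : Nonempty Γ := ⟨ι (Classical.arbitrary _)⟩
  obtain ⟨f, hf⟩ := pair_fun (fun x y : κ.ord.ToType => ι (D x y))
  refine ⟨f, NA_pair hf ?_⟩
  intro ν Y hY
  by_contra hcon
  push Not at hcon
  have h3 : ((3 : ℕ) : Cardinal) ≤ #Y := by rw [hY]; norm_num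
  obtain ⟨s, hs, hs3⟩ := exists_finset_card h3
  obtain ⟨a, b, c, hab, hbc, hmem⟩ := two_exists hs3
  have ha : a ∈ Y := hs ((hmem a).mpr (Or.inl rfl))
  have hb : b ∈ Y := hs ((hmem b).mpr (Or.inr (Or.inl rfl)))
  have hc : c ∈ Y := hs ((hmem c).mpr (Or.inr (Or.inr rfl)))
  have e1 := ι.injective ((hcon a ha b hb hab).trans (hcon a ha c hc (hab.trans hbc)).symm)
  have e2 := ι.injective ((hcon a ha b hb hab).trans (hcon b hb c hc hbc).symm)
  have h4 := hD.binary a b c hab.ne (hab.trans hbc).ne hbc.ne e1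
  rw [e2] at h4
  exact lt_irrefl _ h4

/-- blocks of a singular cardinal -/
lemma blocks_self {μ : Cardinal.{u}} (hμ : ℵ₀ ≤ μ) (hsing : μ.ord.cof < μ) :
    ∃ (bl : μ.ord.ToType → μ.ord.cof.ord.ToType) (R : μ.ord.cof.ord.ToType → Cardinal.{u}),
      (∀ k, ℵ₀ ≤ R k) ∧ (∀ k, R k < μ) ∧ ∀ k, #{l | bl l = k} ≤ R k := by
  classical
  obtain ⟨m, hm1, hm2, hm3⟩ := cofmap μ
  have haleph : ℵ₀ < μ := by
    refine lt_of_le_of_lt ?_ hsing
    exact Ordinal.aleph0_le_cof.mpr (Cardinal.isSuccLimit_ord hμ)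
  have hex : ∀ l : μ.ord.ToType, ∃ i, #(Iio l) ≤ m i := fun l =>
    hm3 _ (Cardinal.mk_Iio_toType_ord_lt l)
  choose bl hbl using hex
  have hsucc : ∀ ρ < μ, Order.succ ρ < μ := by
    intro ρ hρ
    rcases (Order.succ_le_of_lt hρ).lt_or_eq with h | h
    · exact h
    · exfalso
      rcases lt_or_ge ρ ℵ₀ with h1 | h1
      · have h2 : Order.succ ρ < ℵ₀ := by
          obtain ⟨n, rfl⟩ := Cardinal.lt_aleph0.mp h1
          rw [Cardinal.succ_natCast]
          exact_mod_cast Cardinal.natCast_lt_aleph0 (n := n + 1)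
        rw [h] at h2
        exact absurd hμ (not_le.mpr h2)
      · have hreg := Cardinal.isRegular_succ h1
        rw [h] at hreg
        have := hreg.cof_ord
        rw [this] at hsing
        exact lt_irrefl _ hsing
  refine ⟨bl, fun k => max ℵ₀ (Order.succ (m k)), fun k => le_max_left _ _,
    fun k => max_lt haleph (hsucc _ (hm2 k)), ?_⟩
  intro k
  obtain ⟨l0, hl0⟩ := exists_mk_Iio (μ := μ) (hsucc _ (hm2 k))
  have h3 : {l | bl l = k} ⊆ Iio l0 := by
    intro l hl
    by_contra hcon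
    have h4 : l0 ≤ l := not_lt.mp hcon
    have h5 : #(Iio l0) ≤ #(Iio l) := Cardinal.mk_le_mk_of_subset (Iio_subset_Iio h4)
    have h6 := hbl l
    rw [show bl l = k from hl] at h6
    rw [hl0] at h5
    exact absurd (h5.trans h6) (not_le.mpr (Order.lt_succ _))
  exact (Cardinal.mk_le_mk_of_subset h3).trans (hl0.le.trans (le_max_right _ _))

/-- `κ = μ` singular: entries `μ` and `(cf μ)⁺` -/
lemma low_blocks {μ : Cardinal.{u}} (hμ : ℵ₀ ≤ μ) (hsing : μ.ord.cof < μ) {Γ : Type u}
    {c0 c1 : Γ} (hne : c1 ≠ c0) [DecidableEq Γ] :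
    ∃ f : Finset μ.ord.ToType → Γ,
      NA (fun ν => if ν = c0 then μ else Order.succ μ.ord.cof) 2 f := by
  classical
  obtain ⟨bl, R, hR0, hRμ, hbR⟩ := blocks_self hμ hsing
  haveI : Nonempty Γ := ⟨c0⟩
  obtain ⟨f, hf⟩ := pair_fun (fun x y : μ.ord.ToType => if bl x = bl y then c0 else c1)
  refine ⟨f, NA_pair hf ?_⟩
  intro ν Y hY
  by_contra hcon
  push Not at hcon
  by_cases hν : ν = c0
  · rw [if_pos hν] at hY
    have hYne : Y.Nonempty := by
      rw [Set.nonempty_iff_ne_empty]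
      intro h
      rw [h, Cardinal.mk_emptyCollection] at hY
      exact absurd hμ (not_le.mpr (by rw [← hY]; exact Cardinal.aleph0_pos))
    obtain ⟨y, hy⟩ := hYne
    have h1 : Y ⊆ {l | bl l = bl y} := by
      intro x hx
      by_contra hxy0
      have hxy : ¬ bl x = bl y := hxy0
      have hxy' : x ≠ y := fun h => hxy (by rw [h])
      rcases lt_or_gt_of_ne hxy' with h | h
      · have := hcon x hx y hy h
        rw [if_neg (fun h' => hxy h'), hν] at this
        exact hne this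
      · have := hcon y hy x hx h
        rw [if_neg (fun h' => hxy h'.symm), hν] at this
        exact hne this
    have h2 := ((Cardinal.mk_le_mk_of_subset h1).trans (hbR _)).trans_lt (hRμ (bl y))
    rw [hY] at h2
    exact lt_irrefl _ h2
  · rw [if_neg hν] at hY
    have h1 : #Y ≤ #μ.ord.cof.ord.ToType := by
      refine Cardinal.mk_le_of_injective (f := fun x : Y => bl x.1) ?_
      intro x y hxy
      by_contra hne'
      have hne'' : x.1 ≠ y.1 := fun h => hne' (Subtype.ext h)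
      have hxy' : bl x.1 = bl y.1 := hxy
      rcases lt_or_gt_of_ne hne'' with h | h
      · have := hcon x.1 x.2 y.1 y.2 h
        rw [if_pos hxy'] at this
        exact hν this.symm
      · have := hcon y.1 y.2 x.1 x.2 h
        rw [if_pos hxy'.symm] at this
        exact hν this.symm
    rw [Cardinal.mk_ord_toType, hY] at h1
    exact absurd h1 (not_le.mpr (Order.lt_succ _))

end Pool.Agent.Run7.h584.NS
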