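import Mathlib
import Pool.Agent.H330.Tree
import Pool.Agent.H330.Cof
import Pool.Agent.Run7.h584.NS.Canon1
import Pool.Agent.Run7.h584.NS.TwoLow

/-!
# Two colours on `2^{<μ}`, `μ` singular: canonization
-/

open Cardinal Set

universe u

namespace Pool.Agent.Run7.h584.NS

open Pool.Agent.H330

/-- a fast increasing cofinal sequence in a singular cardinal -/
lemma lam_seq {κ μ : Cardinal.{u}} (hμ : ℵ₀ ≤ μ) (hsing : μ.ord.cof < μ) (hκ : κ ≤ 2 ^< μ)
    (hlt : ∀ ρ < μ, (2 : Cardinal.{u}) ^ ρ < κ) (hμκ : μ < κ) :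
    ∃ lam : μ.ord.cof.ord.ToType → Cardinal.{u}, (∀ i, ℵ₀ ≤ lam i) ∧ (∀ i, μ.ord.cof ≤ lam i) ∧
      (∀ i, lam i < μ) ∧ (∀ i j, j < i → (2 : Cardinal.{u}) ^ lam j < 2 ^ lam i) ∧
      (∀ ρ < μ, ∃ i, ρ ≤ lam i) ∧ ∀ i, μ ≤ 2 ^ lam i := by
  classical
  obtain ⟨m, hm1, hm2, hm3⟩ := cofmap μ
  have hθ : ℵ₀ ≤ μ.ord.cof := Ordinal.aleph0_le_cof.mpr (Cardinal.isSuccLimit_ord hμ)
  have hpow : ∀ x : Cardinal.{u}, x < κ → ∃ ρ < μ, x < 2 ^ ρ := by
    intro x hx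
    by_contra hcon
    push Not at hcon
    exact absurd (hx.trans_le (hκ.trans (Cardinal.powerlt_le.mpr hcon))) (lt_irrefl _)
  have hnx : ∀ s : Cardinal.{u}, ∃ ρ, s < μ → (ρ < μ ∧ (2 : Cardinal.{u}) ^ s < 2 ^ ρ) := by
    intro s
    by_cases hs : s < μ
    · obtain ⟨ρ, h1, h2⟩ := hpow _ (hlt s hs)
      exact ⟨ρ, fun _ => ⟨h1, h2⟩⟩
    · exact ⟨0, fun h => absurd h hs⟩
  choose nx hnx using hnx
  obtain ⟨ρ0, hρ0, hρ0'⟩ := hpow μ hμκ
  set s0 := max ρ0 (max μ.ord.cof ℵ₀) with hs0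
  have hs0μ : s0 < μ := max_lt hρ0 (max_lt hsing (hθ.trans_lt hsing))
  set lam : μ.ord.cof.ord.ToType → Cardinal.{u} := (wellFounded_lt (α := μ.ord.cof.ord.ToType)).fix
    (fun i ih => nx (max (max s0 (m i)) (⨆ j : Iio i, ih j.1 j.2))) with hlam
  have heq : ∀ i, lam i = nx (max (max s0 (m i)) (⨆ j : Iio i, lam j.1)) := by
    intro i
    rw [hlam]
    exact (wellFounded_lt (α := μ.ord.cof.ord.ToType)).fix_eq _ i
  have hIio : ∀ i : μ.ord.cof.ord.ToType, #(Iio i) < μ.ord.cof := fun i => Cardinal.mk_Iio_toType_ord_lt i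
  have hlμ : ∀ i, lam i < μ ∧ max (max s0 (m i)) (⨆ j : Iio i, lam j.1) < μ := by
    intro i
    induction i using WellFoundedLT.induction with
    | _ i ih =>
      have h1 : (⨆ j : Iio i, lam j.1) < μ :=
        Cardinal.iSup_lt_of_lt_cof_ord (hIio i) (fun j => (ih j.1 j.2).1)
      have h2 : max (max s0 (m i)) (⨆ j : Iio i, lam j.1) < μ := max_lt (max_lt hs0μ (hm2 i)) h1
      refine ⟨?_, h2⟩
      rw [heq]
      exact (hnx _ h2).1
  have h2 : ∀ i, (2 : Cardinal.{u}) ^ (max (max s0 (m i)) (⨆ j : Iio i, lam j.1)) <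
      2 ^ lam i := by
    intro i
    rw [heq i]
    exact (hnx _ (hlμ i).2).2
  have h3 : ∀ i, max (max s0 (m i)) (⨆ j : Iio i, lam j.1) ≤ lam i := by
    intro i
    by_contra hcon
    push Not at hcon
    exact absurd (Cardinal.power_le_power_left two_ne_zero hcon.le) (not_le.mpr (h2 i))
  have hs0l : ∀ i, s0 ≤ lam i := fun i =>
    ((le_max_left s0 (m i)).trans (le_max_left _ _)).trans (h3 i)
  refine ⟨lam, fun i => ((le_max_right _ _).trans (le_max_right _ _)).trans (hs0l i),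
    fun i => ((le_max_left _ _).trans (le_max_right _ _)).trans (hs0l i), fun i => (hlμ i).1,
    ?_, ?_, ?_⟩
  · intro i j hji
    refine lt_of_le_of_lt ?_ (h2 i)
    refine Cardinal.power_le_power_left two_ne_zero ?_
    refine le_trans ?_ (le_max_right _ _)
    exact le_ciSup (f := fun j : Iio i => lam j.1) Cardinal.bddAbove_of_small (⟨j, hji⟩ : Iio i)
  · intro ρ hρ
    obtain ⟨i, hi⟩ := hm3 ρ hρ
    exact ⟨i, hi.trans (((le_max_right s0 (m i)).trans (le_max_left _ _)).trans (h3 i))⟩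
  · intro i
    exact hρ0'.le.trans (Cardinal.power_le_power_left two_ne_zero
      ((le_max_left _ _).trans (hs0l i)))

/-- disjoint blocks -/
lemma exists_blocks {κ : Cardinal.{u}} (hκ : ℵ₀ ≤ κ) {Θ : Type u} (hΘ : #Θ ≤ κ)
    (a : Θ → Cardinal.{u}) (ha : ∀ i, a i ≤ κ) :
    ∃ A : Θ → Set κ.ord.ToType, (∀ i, #(A i) = a i) ∧
      ∀ i j, i ≠ j → Disjoint (A i) (A j) := by
  have h1 : #(Σ i : Θ, (a i).ord.ToType) ≤ #κ.ord.ToType := by
    rw [Cardinal.mk_sigma, Cardinal.mk_ord_toType]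
    refine (Cardinal.sum_le_sum _ (fun _ => κ) (fun i => ?_)).trans ?_
    · rw [Cardinal.mk_ord_toType]; exact ha i
    · rw [Cardinal.sum_const']
      calc #Θ * κ ≤ κ * κ := by gcongr
        _ = κ := Cardinal.mul_eq_self hκ
  obtain ⟨g⟩ := h1
  refine ⟨fun i => Set.range (fun x : (a i).ord.ToType => g ⟨i, x⟩), ?_, ?_⟩
  · intro i
    rw [Cardinal.mk_range_eq _ (fun x y hxy => by
      have := g.injective hxy
      simpa using this), Cardinal.mk_ord_toType]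
  · intro i j hij
    rw [Set.disjoint_left]
    rintro x ⟨y, rfl⟩ ⟨z, hz⟩
    have := g.injective hz
    exact hij (congrArg Sigma.fst this).symm

/-- Canonization: two colours, `μ` singular, `μ < κ ≤ 2^{<μ}`, `2^ρ < κ` for `ρ < μ`. -/
theorem canon {κ μ : Cardinal.{u}} (hμ : ℵ₀ ≤ μ) (hsing : μ.ord.cof < μ) (hκ : κ ≤ 2 ^< μ)
    (hlt : ∀ ρ < μ, (2 : Cardinal.{u}) ^ ρ < κ) (hμκ : μ < κ) {Γ : Type u} (hΓ : #Γ ≤ ℵ₀)
    (hΓ2 : ∀ ν : Γ, ∃ ν' : Γ, ∀ c : Γ, c ≠ ν → c = ν')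
    {f : Finset κ.ord.ToType → Γ} (hf : NA (fun _ => μ) 2 f) :
    ∃ e : Finset μ.ord.cof.ord.ToType → Γ, NA (fun _ => μ.ord.cof) 2 e := by
  classical
  have hκ0 : ℵ₀ ≤ κ := hμ.trans hμκ.le
  have hθ : ℵ₀ ≤ μ.ord.cof := Ordinal.aleph0_le_cof.mpr (Cardinal.isSuccLimit_ord hμ)
  set Θ := μ.ord.cof.ord.ToType with hΘ
  have hΘc : #Θ = μ.ord.cof := Cardinal.mk_ord_toType _
  have hIio : ∀ i : Θ, #(Iio i) < μ.ord.cof := fun i => Cardinal.mk_Iio_toType_ord_lt i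
  obtain ⟨lam, hl0, hlθ, hlμ, hl2, hlc, hlb⟩ := lam_seq hμ hsing hκ hlt hμκ
  have h2l : ∀ i, ℵ₀ ≤ (2 : Cardinal.{u}) ^ lam i := fun i => (hl0 i).trans (Cardinal.cantor _).le
  have hllt : ∀ i j, j < i → lam j < lam i := by
    intro i j hji
    by_contra hcon
    push Not at hcon
    exact absurd (Cardinal.power_le_power_left two_ne_zero hcon) (not_le.mpr (hl2 i j hji))
  obtain ⟨A, hAc, hAd⟩ := exists_blocks hκ0 (Θ := Θ) (by rw [hΘc]; exact hsing.le.trans hμκ.le)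
    (fun i => Order.succ ((2 : Cardinal.{u}) ^ lam i))
    (fun i => Order.succ_le_of_lt (hlt _ (hlμ i)))
  set F : κ.ord.ToType → κ.ord.ToType → Γ := fun x y => f {x, y} with hF
  have hFs : ∀ x y, F x y = F y x := fun x y => by rw [hF]; simp only [Finset.pair_comm]
  -- homogeneous sets are smaller than `μ`
  have hhom : ∀ (ν : Γ) (T : Set κ.ord.ToType), (∀ x ∈ T, ∀ y ∈ T, x ≠ y → F x y = ν) →
      #T < μ := by
    intro ν T hT
    by_contra hcon
    push Not at hcon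
    obtain ⟨s, h1, h2, h3⟩ := hf.of_le (ν := ν) (Y := T) hcon
    obtain ⟨x, y, hxy, rfl⟩ := Finset.card_eq_two.mp h1
    exact h3 (hT x (h2 (by simp)) y (h2 (by simp)) hxy)
  set Z : Θ → Set κ.ord.ToType := fun i => ⋃ j : Iio i, A j.1 with hZ
  have hZc : ∀ i, #(Z i) ≤ 2 ^ lam i := by
    intro i
    refine (Cardinal.mk_iUnion_le _).trans ?_
    calc #(Iio i) * ⨆ j : Iio i, #(A j.1) ≤ 2 ^ lam i * 2 ^ lam i := by
          gcongr
          · exact ((hIio i).le.trans (hlθ i)).trans (Cardinal.cantor _).le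
          · refine ciSup_le' fun j => ?_
            rw [hAc]
            exact Order.succ_le_of_lt (hl2 i j.1 j.2)
      _ = 2 ^ lam i := Cardinal.mul_eq_self (h2l i)
  have hgen : ∀ i, ∃ t ∈ A i, ∀ S ⊆ Z i, #S ≤ lam i →
      2 ^ lam i < #{y | y ∈ A i ∧ ∀ z ∈ S, F z y = F z t} := fun i =>
    gen_point F (Z i) (A i) (hl0 i) (hZc i) (by rw [hAc]; exact Order.lt_succ _)
      (hΓ.trans (h2l i))
  choose t htA ht using hgen
  -- one step
  have hstep : ∀ (i : Θ) (U : Set κ.ord.ToType), ∃ H : Set κ.ord.ToType, U ⊆ Z i → #U ≤ lam i →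
      (H ⊆ A i ∧ #H ≤ lam i ∧ (∀ y ∈ H, ∀ z ∈ U, F z y = F z (t i)) ∧
        (∀ y ∈ H, ∀ y' ∈ H, ∀ m, F y (t m) = F y' (t m)) ∧
        ∀ ν : Γ, ∃ S ⊆ H, #S = lam i ∧ ∀ x ∈ S, ∀ y ∈ S, x ≠ y → F x y = ν) := by
    intro i U
    by_cases hU : U ⊆ Z i ∧ #U ≤ lam i
    swap
    · exact ⟨∅, fun h1 h2 => absurd ⟨h1, h2⟩ hU⟩
    obtain ⟨hU1, hU2⟩ := hU
    have hG := ht i U hU1 hU2
    set G : Set κ.ord.ToType := {y | y ∈ A i ∧ ∀ z ∈ U, F z y = F z (t i)} with hGdef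
    have hreg := Cardinal.isRegular_succ (h2l i)
    have hfun : #(Θ → Γ) ≤ 2 ^ lam i := by
      rw [← Cardinal.power_def, hΘc, ← pow_pow_self (hl0 i)]
      exact (Cardinal.power_le_power_right (hΓ.trans (h2l i))).trans
        (Cardinal.power_le_power_left (Cardinal.aleph0_pos.trans_le (h2l i)).ne' (hlθ i))
    obtain ⟨p, C, hCG, hCc, hCp⟩ := Cardinal.infinite_pigeonhole_set
      (fun (y : G) (m : Θ) => F y.1 (t m)) (Order.succ (2 ^ lam i)) (Order.succ_le_of_lt hG)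
      hreg.aleph0_le (by rw [hreg.cof_ord]; exact hfun.trans_lt (Order.lt_succ _))
    have hS : ∀ ν : Γ, ∃ S ⊆ C, #S = lam i ∧ ∀ x ∈ S, ∀ y ∈ S, x ≠ y → F x y = ν := by
      intro ν
      obtain ⟨S, hSC, hSc, hSh⟩ := asym F hFs C (hl0 i) ((Order.lt_succ _).trans_le hCc) ν (by
        intro T hTC hTi
        by_contra hcon
        push Not at hcon
        obtain ⟨ν', hν'⟩ := hΓ2 ν
        have h1 := hhom ν' T (fun x hx y hy hxy => hν' _ (hTi x hx y hy hxy))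
        exact absurd ((hlb i).trans hcon.le) (not_le.mpr h1))
      obtain ⟨S', hS'S, hS'⟩ := Cardinal.le_mk_iff_exists_subset.mp hSc.le
      exact ⟨S', hS'S.trans hSC, hS', fun x hx y hy => hSh x (hS'S hx) y (hS'S hy)⟩
    choose S hSC hSc hSh using hS
    refine ⟨⋃ ν, S ν, fun _ _ => ⟨?_, ?_, ?_, ?_, ?_⟩⟩
    · exact Set.iUnion_subset fun ν => ((hSC ν).trans hCG).trans fun y hy => hy.1
    · refine (Cardinal.mk_iUnion_le _).trans ?_
      calc #Γ * ⨆ ν, #(S ν) ≤ lam i * lam i := by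
            gcongr
            · exact hΓ.trans (hl0 i)
            · exact ciSup_le' fun ν => (hSc ν).le
        _ = lam i := Cardinal.mul_eq_self (hl0 i)
    · intro y hy z hz
      obtain ⟨ν, hν⟩ := Set.mem_iUnion.mp hy
      exact (hCG (hSC ν hν)).2 z hz
    · intro y hy y' hy' m
      obtain ⟨ν, hν⟩ := Set.mem_iUnion.mp hy
      obtain ⟨ν', hν'⟩ := Set.mem_iUnion.mp hy'
      have h1 := congrFun (hCp (hSC ν hν)) m
      have h2 := congrFun (hCp (hSC ν' hν')) m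
      exact h1.trans h2.symm
    · intro ν
      exact ⟨S ν, Set.subset_iUnion _ ν, hSc ν, hSh ν⟩
  choose Φ hΦ using hstep
  -- the recursion
  set H : Θ → Set κ.ord.ToType := (wellFounded_lt (α := Θ)).fix
    (fun i ih => Φ i (⋃ j : Iio i, ih j.1 j.2)) with hHdef
  have hHeq : ∀ i, H i = Φ i (⋃ j : Iio i, H j.1) := by
    intro i
    rw [hHdef]
    exact (wellFounded_lt (α := Θ)).fix_eq _ i
  have hU : ∀ i, (⋃ j : Iio i, H j.1) ⊆ Z i ∧ #(⋃ j : Iio i, H j.1 : Set κ.ord.ToType) ≤ lam i := by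
    intro i
    induction i using WellFoundedLT.induction with
    | _ i ih =>
      constructor
      · refine Set.iUnion_subset fun j => ?_
        have h1 := hΦ j.1 _ (ih j.1 j.2).1 (ih j.1 j.2).2
        rw [← hHeq] at h1
        exact h1.1.trans (Set.subset_iUnion (fun j : Iio i => A j.1) j)
      · refine (Cardinal.mk_iUnion_le _).trans ?_
        calc #(Iio i) * ⨆ j : Iio i, #(H j.1) ≤ lam i * lam i := by
              gcongr
              · exact (hIio i).le.trans (hlθ i)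
              · refine ciSup_le' fun j => ?_
                have h1 := hΦ j.1 _ (ih j.1 j.2).1 (ih j.1 j.2).2
                rw [← hHeq] at h1
                exact h1.2.1.trans (hllt i j.1 j.2).le
          _ = lam i := Cardinal.mul_eq_self (hl0 i)
  have hH : ∀ i, (H i ⊆ A i ∧ #(H i) ≤ lam i ∧
      (∀ y ∈ H i, ∀ z ∈ (⋃ j : Iio i, H j.1), F z y = F z (t i)) ∧
        (∀ y ∈ H i, ∀ y' ∈ H i, ∀ m, F y (t m) = F y' (t m)) ∧
        ∀ ν : Γ, ∃ S ⊆ H i, #S = lam i ∧ ∀ x ∈ S, ∀ y ∈ S, x ≠ y → F x y = ν) := by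
    intro i
    have h1 := hΦ i _ (hU i).1 (hU i).2
    rw [← hHeq] at h1
    exact h1
  choose S hSH hSc hSh using fun i => (hH i).2.2.2.2
  have hΓne : Nonempty Γ := ⟨f ∅⟩
  have hx : ∀ i, ∃ x, x ∈ H i := by
    intro i
    have h1 : #(S i (Classical.arbitrary Γ)) ≠ 0 := by
      rw [hSc]; exact (Cardinal.aleph0_pos.trans_le (hl0 i)).ne'
    obtain ⟨x⟩ := Cardinal.mk_ne_zero_iff.mp h1
    exact ⟨x.1, hSH _ _ x.2⟩
  choose x hx using hx
  obtain ⟨e, he⟩ := pair_fun (fun j i : Θ => F (x j) (t i))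
  refine ⟨e, ?_⟩
  by_contra hcon
  unfold NA at hcon
  push Not at hcon
  obtain ⟨ν, I, hI, hIν⟩ := hcon
  have hIh : ∀ j ∈ I, ∀ i ∈ I, j < i → F (x j) (t i) = ν := by
    intro j hj i hi hji
    rw [← he j i hji]
    refine hIν {j, i} (Finset.card_pair hji.ne) ?_
    intro z hz
    rcases Finset.mem_insert.mp (Finset.mem_coe.mp hz) with h | h
    · rw [h]; exact hj
    · rw [Finset.mem_singleton.mp h]; exact hi
  -- the big homogeneous set
  have hbig := hhom ν (⋃ i : I, S i.1 ν) (by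
    have key : ∀ i ∈ I, ∀ j ∈ I, ∀ a ∈ S i ν, ∀ b ∈ S j ν, i < j → F a b = ν := by
      intro i hi j hj a ha b hb hij
      have h1 := (hH j).2.2.1 b (hSH j ν hb) a (Set.mem_iUnion.mpr ⟨⟨i, hij⟩, hSH i ν ha⟩)
      have h2 := (hH i).2.2.2.1 a (hSH i ν ha) (x i) (hx i) j
      exact h1.trans (h2.trans (hIh i hi j hj hij))
    intro a ha b hb hab
    obtain ⟨i, hi⟩ := Set.mem_iUnion.mp ha
    obtain ⟨j, hj⟩ := Set.mem_iUnion.mp hb
    rcases lt_trichotomy i.1 j.1 with h | h | h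
    · exact key i.1 i.2 j.1 j.2 a hi b hj h
    · rw [← h] at hj
      exact hSh i.1 ν a hi b hj hab
    · rw [hFs]
      exact key j.1 j.2 i.1 i.2 b hj a hi h)
  obtain ⟨i0, hi0⟩ := hlc _ hbig
  obtain ⟨i, hi, hi0i⟩ : ∃ i ∈ I, i0 < i := by
    by_contra hcon
    push Not at hcon
    have h1 : I ⊆ Iio i0 ∪ {i0} := by
      intro i hi
      rcases (hcon i hi).lt_or_eq with h | h
      · exact Or.inl h
      · exact Or.inr h
    have h2 := ((Cardinal.mk_le_mk_of_subset h1).trans (Cardinal.mk_union_le _ _)).trans_lt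
      (Cardinal.add_lt_of_lt hθ (hIio i0) (by
        rw [Cardinal.mk_singleton]; exact Cardinal.one_lt_aleph0.trans_le hθ))
    rw [hI] at h2
    exact lt_irrefl _ h2
  have h3 : lam i ≤ #(⋃ i : I, S i.1 ν : Set κ.ord.ToType) := by
    rw [← hSc i ν]
    exact Cardinal.mk_le_mk_of_subset (Set.subset_iUnion (fun i : I => S i.1 ν) ⟨i, hi⟩)
  exact absurd (h3.trans hi0) (not_le.mpr (hllt i i0 hi0i))

end Pool.Agent.Run7.h584.NS
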