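import Mathlib
import Pool.Agent.Run7.h584.NS.TwoLow

/-!
# `r = 2`, constant sequences
-/

open Cardinal Set

universe u

namespace Pool.Agent.Run7.h584.NS

open Pool.Agent.H330

/-- `κ ≤ 2^μ`, at least `cf μ` colours: regular entries below `μ` -/
lemma low_tree {κ μ : Cardinal.{u}} (hμ : ℵ₀ ≤ μ) (hsing : μ.ord.cof < μ) (hκ : κ ≤ 2 ^ μ)
    {Γ : Type u} (ι : (μ.ord.cof.ord.ToType × Bool) → Γ) (hι : Function.Injective ι) :
    ∃ (lam' : Γ → Cardinal.{u}) (f : Finset κ.ord.ToType → Γ),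
      (∀ ν, 2 ≤ lam' ν ∧ lam' ν ≤ μ) ∧ (∃ ν, (lam' ν).IsRegular) ∧ NA lam' 2 f := by
  classical
  obtain ⟨bl, R, hR0, hRμ, hbR⟩ := blocks_self hμ hsing
  haveI := nonempty_ordToType hμ
  obtain ⟨D, φ, hD, hφ⟩ := exists_treeDist μ.ord.ToType κ.ord.ToType
    (by rw [Cardinal.mk_ord_toType, Cardinal.mk_ord_toType]; exact hκ)
  have hθ : ℵ₀ ≤ μ.ord.cof := Ordinal.aleph0_le_cof.mpr (Cardinal.isSuccLimit_ord hμ)
  haveI := nonempty_ordToType hθ
  set k0 : μ.ord.cof.ord.ToType := Classical.arbitrary _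
  haveI : Nonempty Γ := ⟨ι (k0, true)⟩
  obtain ⟨f, hf⟩ := pair_fun (fun x y : κ.ord.ToType => ι (bl (D x y), φ x (D x y)))
  set lam' : Γ → Cardinal.{u} := fun ν => if h : ∃ t, ι t = ν then Order.succ (R h.choose.1) else μ
    with hlam'
  have hl : ∀ t, lam' (ι t) = Order.succ (R t.1) := by
    intro t
    have hex : ∃ t', ι t' = ι t := ⟨t, rfl⟩
    have h1 : lam' (ι t) = Order.succ (R hex.choose.1) := dif_pos hex
    rw [h1, hι hex.choose_spec]
  have h2μ : (2 : Cardinal.{u}) ≤ ℵ₀ := by exact_mod_cast (Cardinal.natCast_lt_aleph0 (n := 2)).le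
  refine ⟨lam', f, ?_, ⟨ι (k0, true), ?_⟩, NA_pair hf ?_⟩
  · intro ν
    by_cases h : ∃ t, ι t = ν
    · obtain ⟨t, rfl⟩ := h
      rw [hl t]
      exact ⟨h2μ.trans ((hR0 _).trans (Order.le_succ _)), Order.succ_le_of_lt (hRμ _)⟩
    · have h1 : lam' ν = μ := dif_neg h
      rw [h1]
      exact ⟨h2μ.trans hμ, le_rfl⟩
  · rw [hl]
    exact Cardinal.isRegular_succ (hR0 _)
  · intro ν Y hY
    by_contra hcon
    push Not at hcon
    by_cases h : ∃ t, ι t = ν
    · obtain ⟨⟨k, b⟩, rfl⟩ := h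
      rw [hl] at hY
      have hk : ∀ x ∈ Y, ∀ y ∈ Y, x < y → bl (D x y) = k ∧ φ x (D x y) = b := by
        intro x hx y hy hxy
        have := hι (hcon x hx y hy hxy)
        exact ⟨congrArg Prod.fst this, congrArg Prod.snd this⟩
      rcases regular_dichotomy hD (H := Y) (by rw [hY]; exact Cardinal.isRegular_succ (hR0 _)) with
        ⟨K, hK, hKc, hKcomb⟩ | ⟨a, ha, b', hb', c, hc, d, hd, hab, hbc, hcd, h1, h2, h3, h4, h5⟩
      · obtain ⟨Z, hZ1, hZ2, _⟩ := comb_levels hD hKcomb 1 le_rfl (fun _ => k0) k0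
          (fun _ _ _ => rfl)
        have hZk : Z ⊆ {l | bl l = k} := by
          intro z hz
          obtain ⟨x, hx, w, hw, hxw, rfl⟩ := hZ2 z hz
          exact (hk x (hK hx) w (hK hw) hxw).1
        have h6 : #Z ≤ R k := (Cardinal.mk_le_mk_of_subset hZk).trans (hbR k)
        rw [hKc, hY] at hZ1
        have h7 : Order.succ (R k) ≤ R k := by
          calc Order.succ (R k) ≤ #Z + 1 := hZ1
            _ ≤ R k + 1 := by gcongr
            _ = R k := Cardinal.add_one_eq (hR0 k)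
        exact absurd h7 (not_le.mpr (Order.lt_succ _))
      · have e1 := (hk a ha b' hb' hab).2
        have e2 := (hk b' hb' c hc hbc).2
        rw [h3] at e2
        exact hφ a b' hab.ne (e1.trans e2.symm)
    · have h1 : lam' ν = μ := dif_neg h
      rw [h1] at hY
      obtain ⟨s, hs, hs2⟩ := exists_finset_card (H := Y) (n := 2) (by
        rw [hY]; exact (show ((2 : ℕ) : Cardinal.{u}) ≤ μ by exact_mod_cast h2μ.trans hμ))
      obtain ⟨x, y, hxy, rfl⟩ := Finset.card_eq_two.mp hs2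
      have hx : x ∈ Y := hs (by simp)
      have hy : y ∈ Y := hs (by simp)
      rcases lt_or_gt_of_ne hxy with h' | h'
      · exact h ⟨_, hcon x hx y hy h'⟩
      · exact h ⟨_, hcon y hy x hx h'⟩

/-- an end-homogeneous sequence contradicts a negative relation -/
lemma end_contra {L Γ W : Type u} [LinearOrder W] [WellFoundedLT W] {μ θ' : Cardinal.{u}}
    {f : Finset L → Γ} (hf : NA (fun _ => μ) 2 f)
    (hsum : Cardinal.sum (fun w : W => #(Finset (Set.Iio w) → Γ)) < #L) (h1 : μ ≤ θ')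
    (h2 : θ' ≤ #W) (h3 : ℵ₀ ≤ θ') (h4 : #Γ < θ'.ord.cof) : False := by
  classical
  obtain ⟨p, x, hx, hp, hxp⟩ := end_homog f hsum
  obtain ⟨c, hc⟩ := Cardinal.infinite_pigeonhole_card
    (fun w : W => f (insert p (({w} : Finset W).image x))) θ' h2 h3 h4
  refine pos_img hf hx (ν := c) (S := (fun w : W =>
    f (insert p (({w} : Finset W).image x))) ⁻¹' {c}) (h1.trans hc) ?_
  intro t ht hsub
  obtain ⟨v, w, hvw, rfl⟩ := Finset.card_eq_two.mp ht
  have key : ∀ v w : W, v < w → f (insert p (({v} : Finset W).image x)) = c →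
      f (({v, w} : Finset W).image x) = c := by
    intro v w hvw hv
    have h5 := hxp w {v} (by intro u hu; rw [Finset.mem_singleton.mp hu]; exact hvw)
    rw [hv] at h5
    rw [← h5, Finset.image_insert, Finset.image_singleton, Finset.pair_comm]
    rfl
  have hv : v ∈ (fun w : W => f (insert p (({w} : Finset W).image x))) ⁻¹' {c} :=
    hsub (by simp)
  have hw : w ∈ (fun w : W => f (insert p (({w} : Finset W).image x))) ⁻¹' {c} :=
    hsub (by simp)
  rcases lt_or_gt_of_ne hvw with h | h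
  · exact key v w h hv
  · rw [Finset.pair_comm]
    exact key w v h hw

lemma pos_big {L Γ : Type u} {μ τ : Cardinal.{u}} {f : Finset L → Γ}
    (hf : NA (fun _ => μ) 2 f) (hμ : ℵ₀ ≤ μ) (hτ : μ ≤ τ) (hΓ : #Γ ≤ τ) : #L ≤ 2 ^ τ := by
  classical
  by_contra hcon
  push Not at hcon
  have hτ0 : ℵ₀ ≤ τ := hμ.trans hτ
  have hWcard : #((Order.succ τ).ord.ToType) = Order.succ τ := by simp
  have hinit : ∀ w : (Order.succ τ).ord.ToType, #(Finset (Set.Iio w)) ≤ τ := by
    intro w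
    have h1 : #(Set.Iio w) ≤ τ := Order.lt_succ_iff.1 (Cardinal.mk_Iio_toType_ord_lt w)
    rcases finite_or_infinite (Set.Iio w) with hfi | hinf
    · exact (Cardinal.lt_aleph0_of_finite _).le.trans hτ0
    · rw [Cardinal.mk_finset_of_infinite]; exact h1
  refine end_contra (W := (Order.succ τ).ord.ToType) (θ' := Order.succ τ) hf ?_
    (hτ.trans (Order.le_succ _)) hWcard.ge (hτ0.trans (Order.le_succ _))
    (by rw [(Cardinal.isRegular_succ hτ0).cof_ord]; exact hΓ.trans_lt (Order.lt_succ _))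
  refine lt_of_le_of_lt ?_ hcon
  have h1 : ∀ w : (Order.succ τ).ord.ToType, #(Finset (Set.Iio w) → Γ) ≤ 2 ^ τ := by
    intro w
    rw [← Cardinal.power_def, ← Cardinal.power_self_eq hτ0]
    exact (Cardinal.power_le_power_right hΓ).trans (Cardinal.power_le_power_left
      (Cardinal.aleph0_pos.trans_le hτ0).ne' (hinit w))
  refine (Cardinal.sum_le_sum _ (fun _ => 2 ^ τ) h1).trans ?_
  rw [Cardinal.sum_const', hWcard]
  have h2 : Order.succ τ ≤ 2 ^ τ := Order.succ_le_of_lt (Cardinal.cantor τ)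
  have h3 : ℵ₀ ≤ 2 ^ τ := hτ0.trans (Cardinal.cantor τ).le
  calc Order.succ τ * 2 ^ τ ≤ 2 ^ τ * 2 ^ τ := by gcongr
    _ = 2 ^ τ := Cardinal.mul_eq_self h3

lemma self_le_powerlt (μ : Cardinal.{u}) : μ ≤ 2 ^< μ := by
  by_contra hcon
  push Not at hcon
  exact absurd (Cardinal.le_powerlt 2 hcon) (not_le.mpr (Cardinal.cantor _))

lemma pos_small {L Γ : Type u} {μ : Cardinal.{u}} {f : Finset L → Γ}
    (hf : NA (fun _ => μ) 2 f) (hμ : ℵ₀ < μ) (hΓ : #Γ < μ.ord.cof) : #L ≤ 2 ^< μ := by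
  classical
  by_contra hcon
  push Not at hcon
  have hΓμ : #Γ < μ := hΓ.trans_le (Ordinal.cof_ord_le μ)
  refine end_contra (W := μ.ord.ToType) (θ' := μ) hf ?_ le_rfl (Cardinal.mk_ord_toType μ).ge
    hμ.le hΓ
  refine lt_of_le_of_lt ?_ hcon
  have h1 : ∀ w : μ.ord.ToType, #(Finset (Set.Iio w) → Γ) ≤ 2 ^< μ := by
    intro w
    set ρ := max ℵ₀ (max #Γ #(Iio w)) with hρ
    have hρμ : ρ < μ := max_lt hμ (max_lt hΓμ (Cardinal.mk_Iio_toType_ord_lt w))
    have hρ0 : ℵ₀ ≤ ρ := le_max_left _ _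
    have h2 : #(Finset (Set.Iio w)) ≤ ρ := by
      rcases finite_or_infinite (Set.Iio w) with hfi | hinf
      · exact (Cardinal.lt_aleph0_of_finite _).le.trans hρ0
      · rw [Cardinal.mk_finset_of_infinite]
        exact (le_max_right _ _).trans (le_max_right _ _)
    have h3 : #Γ ≤ ρ := (le_max_left _ _).trans (le_max_right _ _)
    rw [← Cardinal.power_def]
    calc #Γ ^ #(Finset (Set.Iio w)) ≤ ρ ^ ρ := (Cardinal.power_le_power_right h3).trans
          (Cardinal.power_le_power_left (Cardinal.aleph0_pos.trans_le hρ0).ne' h2)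
      _ = 2 ^ ρ := Cardinal.power_self_eq hρ0
      _ ≤ 2 ^< μ := Cardinal.le_powerlt 2 hρμ
  refine (Cardinal.sum_le_sum _ (fun _ => 2 ^< μ) h1).trans ?_
  rw [Cardinal.sum_const', Cardinal.mk_ord_toType]
  calc μ * 2 ^< μ ≤ 2 ^< μ * 2 ^< μ := by gcongr; exact self_le_powerlt μ
    _ = 2 ^< μ := Cardinal.mul_eq_self (hμ.le.trans (self_le_powerlt μ))

end Pool.Agent.Run7.h584.NS
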