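import Mathlib
import Pool.Agent.Run7.h584.NS.TwoBal

/-!
# `r = 2`, constant sequences: the theorem
-/

open Cardinal Set

universe u

namespace Pool.Agent.Run7.h584.NS

open Pool.Agent.H330

/-- `r = 2`, two entries at least `μ`, `κ ≤ 2^ρ` for some `ρ < μ`. -/
theorem two_small {κ : Cardinal.{u}} (hκ : ℵ₀ ≤ κ) {Γ : Type u} {lam : Γ → Cardinal.{u}}
    (hlam : ∀ ν, (2 : Cardinal) ≤ lam ν ∧ lam ν ≤ κ) {c0 c1 : Γ} (hne : c1 ≠ c0)
    {μ ρ : Cardinal.{u}} (hμ : ℵ₀ ≤ μ) (h0 : μ ≤ lam c0) (h1 : μ ≤ lam c1) (hρ : ρ < μ)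
    (hκρ : κ ≤ 2 ^ ρ) :
    ∃ g : Finset ((2 : Cardinal.{u}) ^ κ).ord.ToType → Γ, NA (fun ν => lam ν + 1) 3 g := by
  classical
  have hρ0 : ℵ₀ ≤ ρ := by
    by_contra hcon
    push Not at hcon
    have h2 : (2 : Cardinal.{u}) < ℵ₀ := by exact_mod_cast Cardinal.natCast_lt_aleph0 (n := 2)
    exact absurd (hκ.trans hκρ) (not_le.mpr (Cardinal.power_lt_aleph0 h2 hcon))
  have hsucc : Order.succ ρ ≤ μ := Order.succ_le_of_lt hρ
  -- a colouring with the entries `ρ⁺` at `c0`, `c1` which uses only these two colours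
  obtain ⟨c, hc⟩ := sierp (Set.univ : Set κ.ord.ToType) ρ hρ0
    (by rw [Cardinal.mk_univ, Cardinal.mk_ord_toType]; exact hκρ)
  haveI : Nonempty Γ := ⟨c0⟩
  obtain ⟨f, hf⟩ := pair_fun (fun x y : κ.ord.ToType => if c x y = true then c0 else c1)
  set lam' : Γ → Cardinal.{u} := fun ν => if ν = c0 ∨ ν = c1 then Order.succ ρ else lam ν
    with hlam'
  have hl0 : lam' c0 = Order.succ ρ := if_pos (Or.inl rfl)
  have h2ρ : (2 : Cardinal.{u}) ≤ Order.succ ρ :=
    (by exact_mod_cast (Cardinal.natCast_lt_aleph0 (n := 2)).le : (2 : Cardinal.{u}) ≤ ℵ₀).trans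
      (hρ0.trans (Order.le_succ _))
  have hle : ∀ ν, lam' ν ≤ lam ν := by
    intro ν
    by_cases h : ν = c0 ∨ ν = c1
    · have h3 : lam' ν = Order.succ ρ := if_pos h
      rw [h3]
      rcases h with rfl | rfl
      · exact hsucc.trans h0
      · exact hsucc.trans h1
    · have h3 : lam' ν = lam ν := if_neg h
      rw [h3]
  have h2le : ∀ ν, (2 : Cardinal) ≤ lam' ν := by
    intro ν
    by_cases h : ν = c0 ∨ ν = c1
    · have h3 : lam' ν = Order.succ ρ := if_pos h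
      rw [h3]; exact h2ρ
    · have h3 : lam' ν = lam ν := if_neg h
      rw [h3]; exact (hlam ν).1
  have hNA : NA lam' 2 f := by
    refine NA_pair hf ?_
    intro ν Y hY
    by_contra hcon
    push Not at hcon
    by_cases h : ν = c0 ∨ ν = c1
    · have h3 : lam' ν = Order.succ ρ := if_pos h
      rw [h3] at hY
      have h1 := hc Y (decide (ν = c0)) (Set.subset_univ _) (by
        intro x hx y hy hxy
        have h2 := hcon x hx y hy hxy
        cases hb : c x y with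
        | true =>
          rw [if_pos hb] at h2
          rw [decide_eq_true h2.symm]
        | false =>
          rw [if_neg (by rw [hb]; decide)] at h2
          rw [decide_eq_false (fun h => hne (h2.trans h))])
      rw [hY] at h1
      exact absurd h1 (not_le.mpr (Order.lt_succ _))
    · obtain ⟨s, hs, hs2⟩ := exists_finset_card (H := Y) (n := 2) (by
        rw [hY]; exact_mod_cast h2le ν)
      obtain ⟨x, y, hxy, rfl⟩ := Finset.card_eq_two.mp hs2
      have hx : x ∈ Y := hs (by simp)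
      have hy : y ∈ Y := hs (by simp)
      have key : ∀ x ∈ Y, ∀ y ∈ Y, ¬ x < y := by
        intro x hx y hy hxy
        have h4 := hcon x hx y hy hxy
        by_cases h5 : c x y = true
        · rw [if_pos h5] at h4
          exact h (Or.inl h4.symm)
        · rw [if_neg h5] at h4
          exact h (Or.inr h4.symm)
      rcases lt_or_gt_of_ne hxy with h' | h'
      · exact key x hx y hy h'
      · exact key y hy x hx h'
  obtain ⟨g, hg⟩ := main_two hκ (fun ν => ⟨h2le ν, (hle ν).trans (hlam ν).2⟩) hNA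
    (Or.inr (Or.inl ⟨c0, by rw [hl0]; exact Cardinal.isRegular_succ hρ0⟩))
  exact ⟨g, hg.mono (fun ν => add_le_add (hle ν) le_rfl)⟩

/-- `r = 2`, two entries at least `μ`, `μ` singular, `κ ≤ 2^{<μ}`. -/
theorem two_pair {κ : Cardinal.{u}} (hκ : ℵ₀ ≤ κ) {Γ : Type u} {lam : Γ → Cardinal.{u}}
    (hlam : ∀ ν, (2 : Cardinal) ≤ lam ν ∧ lam ν ≤ κ) {c0 c1 : Γ} (hne : c1 ≠ c0)
    {μ : Cardinal.{u}} (hμ : ℵ₀ ≤ μ) (hsing : μ.ord.cof < μ) (hκμ : κ ≤ 2 ^< μ)
    (h0 : μ ≤ lam c0) (h1 : μ ≤ lam c1)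
    (e : μ.ord.cof.ord.ToType → μ.ord.cof.ord.ToType → Γ) (heμ : ∀ i j, μ ≤ lam (e i j))
    (he : ∀ (ν : Γ) (I : Set μ.ord.cof.ord.ToType), #I = μ.ord.cof →
      ∃ x ∈ I, ∃ y ∈ I, x < y ∧ e x y ≠ ν) :
    ∃ g : Finset ((2 : Cardinal.{u}) ^ κ).ord.ToType → Γ, NA (fun ν => lam ν + 1) 3 g := by
  by_cases hρ : ∃ ρ < μ, κ ≤ 2 ^ ρ
  · obtain ⟨ρ, hρ, hκρ⟩ := hρ
    exact two_small hκ hlam hne hμ h0 h1 hρ hκρ
  push Not at hρ
  haveI := nonempty_ordToType hκ
  obtain ⟨D, φ, hD, hφ⟩ := exists_treeDist κ.ord.ToType ((2 : Cardinal.{u}) ^ κ).ord.ToType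
    (by rw [Cardinal.mk_ord_toType, Cardinal.mk_ord_toType])
  exact step_two_limit hD (fun ν => (hlam ν).1) hne h0 h1 hμ hsing hκμ hρ e heμ he

/-- `r = 2`, constant sequences. -/
theorem two_balanced {κ : Cardinal.{u}} (hκ : ℵ₀ ≤ κ) {Γ : Type u} {μ : Cardinal.{u}}
    (h2 : 2 ≤ μ) (hμκ : μ ≤ κ) {f : Finset κ.ord.ToType → Γ} (hf : NA (fun _ => μ) 2 f)
    (hexc : ℵ₀ ≤ μ → μ.ord.cof < μ → μ < κ → κ ≤ 2 ^< μ → (∀ ρ < μ, (2 : Cardinal.{u}) ^ ρ < κ) →
      ∃ e : Finset μ.ord.cof.ord.ToType → Γ, NA (fun _ => μ.ord.cof) 2 e) :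
    ∃ g : Finset ((2 : Cardinal.{u}) ^ κ).ord.ToType → Γ, NA (fun _ => μ + 1) 3 g := by
  classical
  have hlam : ∀ _ : Γ, (2 : Cardinal) ≤ μ ∧ μ ≤ κ := fun _ => ⟨h2, hμκ⟩
  have hΓne : Nonempty Γ := ⟨f ∅⟩
  by_cases hfin : μ < ℵ₀
  · exact main_two hκ hlam hf (Or.inl fun _ => hfin)
  have hμ : ℵ₀ ≤ μ := not_lt.mp hfin
  by_cases hreg : μ.IsRegular
  · exact main_two hκ hlam hf (Or.inr (Or.inl ⟨Classical.arbitrary Γ, hreg⟩))
  have hsing : μ.ord.cof < μ := by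
    by_contra hcon
    exact hreg ⟨hμ, not_lt.mp hcon⟩
  have hθ : ℵ₀ ≤ μ.ord.cof := Ordinal.aleph0_le_cof.mpr (Cardinal.isSuccLimit_ord hμ)
  have hμ0 : ℵ₀ < μ := hθ.trans_lt hsing
  -- two colours
  have htwo : ∃ c0 c1 : Γ, c1 ≠ c0 := by
    by_contra hcon
    push Not at hcon
    obtain ⟨Y, hY⟩ := Cardinal.le_mk_iff_exists_set.mp
      (show μ ≤ #κ.ord.ToType by rw [Cardinal.mk_ord_toType]; exact hμκ)
    obtain ⟨s, -, -, h3⟩ := hf (Classical.arbitrary Γ) Y hY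
    exact h3 (hcon _ _)
  obtain ⟨c0, c1, hne⟩ := htwo
  -- few levels
  by_cases hρ : ∃ ρ < μ, κ ≤ 2 ^ ρ
  · obtain ⟨ρ, hρ, hκρ⟩ := hρ
    exact two_small hκ hlam hne hμ le_rfl le_rfl hρ hκρ
  have hlt := hρ
  push Not at hlt
  by_cases hκμ : κ ≤ 2 ^< μ
  · by_cases he : ∃ e : Finset μ.ord.cof.ord.ToType → Γ, NA (fun _ => μ.ord.cof) 2 e
    · obtain ⟨e, he⟩ := he
      refine two_pair hκ hlam hne hμ hsing hκμ le_rfl le_rfl (fun x y => e {x, y})
        (fun _ _ => le_rfl) ?_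
      intro ν I hI
      obtain ⟨s, h3, h4, h5⟩ := he ν I hI
      obtain ⟨x, y, hxy, rfl⟩ := Finset.card_eq_two.mp h3
      have hx : x ∈ I := h4 (by simp)
      have hy : y ∈ I := h4 (by simp)
      rcases lt_or_gt_of_ne hxy with h | h
      · exact ⟨x, hx, y, hy, h, h5⟩
      · refine ⟨y, hy, x, hx, h, ?_⟩
        rw [Finset.pair_comm]
        exact h5
    · rcases hμκ.lt_or_eq with hlt' | heq
      · exact absurd (hexc hμ hsing hlt' hκμ hlt) he
      · subst heq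
        obtain ⟨f', hf'⟩ := low_blocks hμ hsing hne
        have hle : ∀ ν : Γ, (if ν = c0 then μ else Order.succ μ.ord.cof) ≤ μ := by
          intro ν
          split_ifs
          · exact le_rfl
          · exact Order.succ_le_of_lt hsing
        have h2le : ∀ ν : Γ, 2 ≤ (if ν = c0 then μ else Order.succ μ.ord.cof) := by
          intro ν
          split_ifs
          · exact h2
          · exact (by exact_mod_cast (Cardinal.natCast_lt_aleph0 (n := 2)).le :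
              (2 : Cardinal.{u}) ≤ ℵ₀).trans (hθ.trans (Order.le_succ _))
        obtain ⟨g, hg⟩ := main_two hκ (fun ν => ⟨h2le ν, hle ν⟩) hf'
          (Or.inr (Or.inl ⟨c1, by rw [if_neg hne]; exact Cardinal.isRegular_succ hθ⟩))
        exact ⟨g, hg.mono (fun ν => add_le_add (hle ν) le_rfl)⟩
  · -- many levels
    have hκ' : 2 ^< μ < κ := not_le.mp hκμ
    by_cases hΓ : #Γ < μ.ord.cof
    · exfalso
      have := pos_small hf hμ0 hΓ
      rw [Cardinal.mk_ord_toType] at this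
      exact hκμ this
    have hΓ' : μ.ord.cof ≤ #Γ := not_lt.mp hΓ
    by_cases hκ2 : κ ≤ 2 ^ μ
    · -- an injection of `Θ × Bool` into the colours
      have hinj : #(μ.ord.cof.ord.ToType × Bool) ≤ #Γ := by
        have h3 : #(μ.ord.cof.ord.ToType × Bool) = μ.ord.cof := by
          rw [Cardinal.mk_prod, Cardinal.mk_ord_toType, Cardinal.lift_uzero, Cardinal.mk_bool]
          rw [Cardinal.lift_ofNat]
          exact Cardinal.mul_eq_left hθ
            ((by exact_mod_cast (Cardinal.natCast_lt_aleph0 (n := 2)).le :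
              (2 : Cardinal.{u}) ≤ ℵ₀).trans hθ) two_ne_zero
        rw [h3]; exact hΓ'
      obtain ⟨ι⟩ := hinj
      obtain ⟨lam', f', h3, h4, h5⟩ := low_tree hμ hsing hκ2 ι ι.injective
      obtain ⟨g, hg⟩ := main_two hκ (fun ν => ⟨(h3 ν).1, (h3 ν).2.trans hμκ⟩) h5
        (Or.inr (Or.inl h4))
      exact ⟨g, hg.mono (fun ν => add_le_add (h3 ν).2 le_rfl)⟩
    · have hκ3 : 2 ^ μ < κ := not_le.mp hκ2
      rcases le_total #Γ μ with hΓμ | hΓμ
      · exfalso
        have := pos_big hf hμ le_rfl hΓμ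
        rw [Cardinal.mk_ord_toType] at this
        exact hκ2 this
      · have h3 := pos_big hf hμ hΓμ le_rfl
        rw [Cardinal.mk_ord_toType] at h3
        obtain ⟨f', hf'⟩ := low_three (hμ.trans hΓμ) h3
        have h3μ : (3 : Cardinal.{u}) ≤ μ :=
          (by exact_mod_cast (Cardinal.natCast_lt_aleph0 (n := 3)).le :
            (3 : Cardinal.{u}) ≤ ℵ₀).trans hμ
        have h23 : (2 : Cardinal.{u}) ≤ 3 := by exact_mod_cast (by omega : 2 ≤ 3)
        obtain ⟨g, hg⟩ := main_two hκ (fun ν : Γ => ⟨h23, h3μ.trans hμκ⟩) hf'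
          (Or.inl fun _ => by exact_mod_cast Cardinal.natCast_lt_aleph0 (n := 3))
        exact ⟨g, hg.mono (fun ν => add_le_add h3μ le_rfl)⟩

end Pool.Agent.Run7.h584.NS
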