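import Mathlib
import Pool.Agent.Run7.h584.NS.TwoMain
import Pool.Agent.Run7.h584.NS.Canon2

/-!
# `r = 2`, constant sequences: no exception
-/

open Cardinal Set

universe u

namespace Pool.Agent.Run7.h584.NS

open Pool.Agent.H330

/-- `r = 2`: two entries at least `μ`, `μ` singular, and a third entry greater than `cf μ`. -/
theorem two_third {κ : Cardinal.{u}} (hκ : ℵ₀ ≤ κ) {Γ : Type u} {lam : Γ → Cardinal.{u}}
    (hlam : ∀ ν, (2 : Cardinal) ≤ lam ν ∧ lam ν ≤ κ) {c0 c1 c2 : Γ} (hne : c1 ≠ c0)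
    (hne0 : c2 ≠ c0) (hne1 : c2 ≠ c1) {μ : Cardinal.{u}} (hμ : ℵ₀ ≤ μ)
    (hsing : μ.ord.cof < μ) (hκμ : κ ≤ 2 ^< μ) (hlt : ∀ ρ < μ, (2 : Cardinal.{u}) ^ ρ < κ)
    (h0 : μ ≤ lam c0) (h1 : μ ≤ lam c1) (h2 : μ.ord.cof < lam c2) :
    ∃ g : Finset ((2 : Cardinal.{u}) ^ κ).ord.ToType → Γ, NA (fun ν => lam ν + 1) 3 g := by
  classical
  have hθ : ℵ₀ ≤ μ.ord.cof := Ordinal.aleph0_le_cof.mpr (Cardinal.isSuccLimit_ord hμ)
  obtain ⟨bl, R, hbl, hR0, hRμ, hRB⟩ := limit_blocks hμ hsing hκμ hlt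
  have hbk : ∀ k, ∃ c : κ.ord.ToType → κ.ord.ToType → Bool, ∀ (Y : Set κ.ord.ToType) (b : Bool),
      Y ⊆ {l | bl l = k} → (∀ x ∈ Y, ∀ y ∈ Y, x < y → c x y = b) → #Y ≤ R k :=
    fun k => sierp _ (R k) (hR0 k) (hRB k)
  choose cc hcc using hbk
  have : Nonempty Γ := ⟨c0⟩
  obtain ⟨f, hf⟩ := pair_fun (fun x y : κ.ord.ToType =>
    if bl x = bl y then (if cc (bl x) x y = true then c0 else c1) else c2)
  set lam' : Γ → Cardinal.{u} := fun ν => if ν = c2 then Order.succ μ.ord.cof else lam ν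
    with hlam'
  have hl2 : lam' c2 = Order.succ μ.ord.cof := if_pos rfl
  have hle : ∀ ν, lam' ν ≤ lam ν := by
    intro ν
    by_cases h : ν = c2
    · rw [h, hl2]; exact Order.succ_le_of_lt h2
    · have h3 : lam' ν = lam ν := if_neg h
      rw [h3]
  have h2le : ∀ ν, (2 : Cardinal) ≤ lam' ν := by
    intro ν
    by_cases h : ν = c2
    · rw [h, hl2]
      exact (by exact_mod_cast (Cardinal.natCast_lt_aleph0 (n := 2)).le :
        (2 : Cardinal.{u}) ≤ ℵ₀).trans (hθ.trans (Order.le_succ _))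
    · have h3 : lam' ν = lam ν := if_neg h
      rw [h3]; exact (hlam ν).1
  have hNA : NA lam' 2 f := by
    refine NA_pair hf ?_
    intro ν Y hY
    by_contra hcon
    push Not at hcon
    by_cases hν : ν = c2
    · rw [hν, hl2] at hY
      have h3 : #Y ≤ #μ.ord.cof.ord.ToType := by
        refine Cardinal.mk_le_of_injective (f := fun x : Y => bl x.1) ?_
        intro x y hxy
        by_contra hne'
        have hne'' : x.1 ≠ y.1 := fun h => hne' (Subtype.ext h)
        have key : ∀ x ∈ Y, ∀ y ∈ Y, x < y → bl x ≠ bl y := by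
          intro x hx y hy hxy hb
          have h4 := hcon x hx y hy hxy
          rw [if_pos hb, hν] at h4
          split_ifs at h4
          · exact hne0 h4.symm
          · exact hne1 h4.symm
        rcases lt_or_gt_of_ne hne'' with h | h
        · exact key _ x.2 _ y.2 h hxy
        · exact key _ y.2 _ x.2 h hxy.symm
      rw [Cardinal.mk_ord_toType, hY] at h3
      exact absurd h3 (not_le.mpr (Order.lt_succ _))
    · have hl : lam' ν = lam ν := if_neg hν
      have key : ∀ x ∈ Y, ∀ y ∈ Y, x < y → bl x = bl y ∧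
          cc (bl x) x y = decide (ν = c0) ∧ (ν = c0 ∨ ν = c1) := by
        intro x hx y hy hxy
        have h4 := hcon x hx y hy hxy
        by_cases hb : bl x = bl y
        · rw [if_pos hb] at h4
          refine ⟨hb, ?_⟩
          cases hc : cc (bl x) x y with
          | true =>
            rw [if_pos hc] at h4
            exact ⟨(decide_eq_true h4.symm).symm, Or.inl h4.symm⟩
          | false =>
            rw [if_neg (by rw [hc]; decide)] at h4
            exact ⟨(decide_eq_false (fun h => hne (h4.trans h))).symm, Or.inr h4.symm⟩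
        · rw [if_neg hb] at h4
          exact absurd h4.symm hν
      obtain ⟨s, hs, hs2⟩ := exists_finset_card (H := Y) (n := 2) (by
        rw [hY]; exact_mod_cast h2le ν)
      obtain ⟨x, y, hxy, rfl⟩ := Finset.card_eq_two.mp hs2
      have hx : x ∈ Y := hs (by simp)
      have hy : y ∈ Y := hs (by simp)
      have hν01 : ν = c0 ∨ ν = c1 := by
        rcases lt_or_gt_of_ne hxy with h | h
        · exact (key x hx y hy h).2.2
        · exact (key y hy x hx h).2.2
      have hμν : μ ≤ #Y := by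
        rw [hY, hl]
        rcases hν01 with h | h
        · rw [h]; exact h0
        · rw [h]; exact h1
      have hYb : Y ⊆ {l | bl l = bl x} := by
        intro z hz
        rcases lt_trichotomy z x with h | h | h
        · exact (key z hz x hx h).1
        · rw [h]; rfl
        · exact (key x hx z hz h).1.symm
      have h5 := hcc (bl x) Y (decide (ν = c0)) hYb (by
        intro a ha b hb hab
        have h6 := (key a ha b hb hab).2.1
        have h7 : bl a = bl x := hYb ha
        rw [h7] at h6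
        exact h6)
      exact absurd (hμν.trans h5) (not_le.mpr (hRμ _))
  obtain ⟨g, hg⟩ := main_two hκ (fun ν => ⟨h2le ν, (hle ν).trans (hlam ν).2⟩) hNA
    (Or.inr (Or.inl ⟨c2, by rw [hl2]; exact Cardinal.isRegular_succ hθ⟩))
  exact ⟨g, hg.mono (fun ν => add_le_add (hle ν) le_rfl)⟩

/-- `r = 2`, constant sequences, no exception. -/
theorem two_balanced_full {κ : Cardinal.{u}} (hκ : ℵ₀ ≤ κ) {Γ : Type u} {μ : Cardinal.{u}}
    (h2 : 2 ≤ μ) (hμκ : μ ≤ κ) {f : Finset κ.ord.ToType → Γ} (hf : NA (fun _ => μ) 2 f) :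
    ∃ g : Finset ((2 : Cardinal.{u}) ^ κ).ord.ToType → Γ, NA (fun _ => μ + 1) 3 g := by
  classical
  by_cases hx : ℵ₀ ≤ μ ∧ μ.ord.cof < μ ∧ μ < κ ∧ κ ≤ 2 ^< μ ∧ ∀ ρ < μ, (2 : Cardinal.{u}) ^ ρ < κ
  swap
  · exact two_balanced hκ h2 hμκ hf (fun h3 h4 h5 h6 h7 => absurd ⟨h3, h4, h5, h6, h7⟩ hx)
  obtain ⟨hμ, hsing, hlt', hκμ, hlt⟩ := hx
  have hΓne : Nonempty Γ := ⟨f ∅⟩
  have htwo : ∃ c0 c1 : Γ, c1 ≠ c0 := by
    by_contra hcon
    push Not at hcon
    obtain ⟨Y, hY⟩ := Cardinal.le_mk_iff_exists_set.mp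
      (show μ ≤ #κ.ord.ToType by rw [Cardinal.mk_ord_toType]; exact hμκ)
    obtain ⟨s, -, -, h3⟩ := hf (Classical.arbitrary Γ) Y hY
    exact h3 (hcon _ _)
  obtain ⟨c0, c1, hne⟩ := htwo
  by_cases hthird : ∃ c2, c2 ≠ c0 ∧ c2 ≠ c1
  · obtain ⟨c2, hne0, hne1⟩ := hthird
    exact two_third hκ (fun _ => ⟨h2, hμκ⟩) hne hne0 hne1 hμ hsing hκμ hlt le_rfl le_rfl hsing
  · push Not at hthird
    have hcases : ∀ c : Γ, c = c0 ∨ c = c1 := by
      intro c
      by_cases h : c = c0
      · exact Or.inl h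
      · exact Or.inr (hthird c h)
    have hΓ : #Γ ≤ ℵ₀ := by
      have hfin : Finite Γ := by
        refine Finite.of_surjective (fun b : Bool => if b then c0 else c1) ?_
        intro c
        rcases hcases c with h | h
        · exact ⟨true, by simp [h]⟩
        · exact ⟨false, by simp [h]⟩
      exact (Cardinal.lt_aleph0_of_finite Γ).le
    have hΓ2 : ∀ ν : Γ, ∃ ν' : Γ, ∀ c : Γ, c ≠ ν → c = ν' := by
      intro ν
      rcases hcases ν with h | h
      · refine ⟨c1, fun c hc => ?_⟩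
        rcases hcases c with h' | h'
        · exact absurd (h'.trans h.symm) hc
        · exact h'
      · refine ⟨c0, fun c hc => ?_⟩
        rcases hcases c with h' | h'
        · exact h'
        · exact absurd (h'.trans h.symm) hc
    exact two_balanced hκ h2 hμκ hf (fun _ _ _ _ _ =>
      canon hμ hsing hκμ hlt hlt' hΓ hΓ2 hf)

end Pool.Agent.Run7.h584.NS
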