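import Mathlib
import Pool.Agent.Run7.h584.NS.TwoFull

/-!
# `r = 2`: block colouring with small colours, and homogeneous sets in small colours
-/

open Cardinal Set

universe u

namespace Pool.Agent.Run7.h584.NS

open Pool.Agent.H330

/-- `r = 2`: the step for a singular cardinal `μ`; the colouring `e` of the blocks may use colours
with small entries. -/
theorem step_two_gen {V Γ : Type u} [LinearOrder V] [WellFoundedLT V] {κ μ : Cardinal.{u}}
    {D : V → V → κ.ord.ToType} (hD : TreeDist D) {lam : Γ → Cardinal.{u}}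
    (hlam : ∀ ν, (2 : Cardinal) ≤ lam ν) {c0 c1 : Γ} (hne : c1 ≠ c0) (h0 : μ ≤ lam c0)
    (h1 : μ ≤ lam c1) (hμ : ℵ₀ ≤ μ) (hsing : μ.ord.cof < μ) (hκ : κ ≤ 2 ^< μ)
    (hlt : ∀ ρ < μ, (2 : Cardinal.{u}) ^ ρ < κ)
    {e : Finset μ.ord.cof.ord.ToType → Γ} (he : NA (fun ν => min (lam ν) μ.ord.cof) 2 e) :
    ∃ g : Finset V → Γ, NA (fun ν => lam ν + 1) 3 g := by
  classical
  obtain ⟨bl, R, hbl, hR0, hRμ, hRB⟩ := limit_blocks hμ hsing hκ hlt
  have hbk : ∀ k, ∃ c : κ.ord.ToType → κ.ord.ToType → Bool, ∀ (Y : Set κ.ord.ToType) (b : Bool),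
      Y ⊆ {l | bl l = k} → (∀ x ∈ Y, ∀ y ∈ Y, x < y → c x y = b) → #Y ≤ R k :=
    fun k => sierp _ (R k) (hR0 k) (hRB k)
  choose cc hcc using hbk
  set e1 : μ.ord.cof.ord.ToType → μ.ord.cof.ord.ToType → Γ := fun i j => e {i, j} with he1
  set e' : μ.ord.cof.ord.ToType → μ.ord.cof.ord.ToType → Γ :=
    fun i j => if e {i, j} = c0 then c1 else c0 with he'
  have hee : ∀ i j, e1 i j ≠ e' i j := by
    intro i j h
    rw [he', he1] at h
    by_cases h2 : e {i, j} = c0
    · simp only [h2, if_true] at h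
      exact hne h.symm
    · simp only [h2, if_false] at h
  have he'c : ∀ i j, e' i j = c0 ∨ e' i j = c1 := by
    intro i j
    rw [he']
    dsimp only
    split_ifs
    · exact Or.inr rfl
    · exact Or.inl rfl
  refine ⟨g3 D bl cc c0 c1 e1 e', ?_⟩
  intro ν Y hY
  by_contra hcon
  push Not at hcon
  have hom : ∀ a ∈ Y, ∀ b ∈ Y, ∀ c ∈ Y, a < b → b < c → G3 D bl cc c0 c1 e1 e' a b c = ν := by
    intro a ha b hb c hc hab hbc
    obtain ⟨s, hs, hs'⟩ := two_triple hab hbc
    rw [← g3_eq hs']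
    exact hcon s hs (hs'.sub ha hb hc)
  by_cases hν : μ ≤ lam ν
  · obtain ⟨Y', hY'Y, hY'⟩ := Cardinal.le_mk_iff_exists_subset.mp
      (show μ ≤ #Y by rw [hY]; exact hν.trans (self_le_add_right _ _))
    obtain ⟨H, hHY, hH, hsh⟩ := shrink Y'
    rw [hY'] at hH hsh
    have hΘ : #μ.ord.cof.ord.ToType = μ.ord.cof := Cardinal.mk_ord_toType _
    refine core (e := e1) (e' := e') (ν := ν) hD hbl hne hee hμ hsing hΘ
      (fun k => Cardinal.mk_Iio_toType_ord_lt k) hR0 hRμ
      (fun k Y b hY hb => hcc k Y b (fun y hy => hY y hy) hb) ?_ hH hsh ?_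
    · intro I hI
      obtain ⟨s, h3, h4, h5⟩ := he ν I (by
        rw [hI]; exact (min_eq_right (hsing.le.trans hν)).symm)
      obtain ⟨x, y, hxy, rfl⟩ := Finset.card_eq_two.mp h3
      have hx : x ∈ I := h4 (by simp)
      have hy : y ∈ I := h4 (by simp)
      rcases lt_or_gt_of_ne hxy with h | h
      · exact ⟨x, hx, y, hy, h, h5⟩
      · refine ⟨y, hy, x, hx, h, ?_⟩
        rw [he1]
        dsimp only
        rw [Finset.pair_comm]
        exact h5
    · intro a ha b hb c hc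
      exact hom a (hY'Y (hHY ha)) b (hY'Y (hHY hb)) c (hY'Y (hHY hc))
  · have hν0 : ν ≠ c0 := by rintro rfl; exact hν h0
    have hν1 : ν ≠ c1 := by rintro rfl; exact hν h1
    have key : ∀ a ∈ Y, ∀ b ∈ Y, ∀ c ∈ Y, a < b → b < c → D a b < D b c ∧
        bl (D a b) ≠ bl (D b c) ∧ e {bl (D a b), bl (D b c)} = ν := by
      intro a ha b hb c hc hab hbc
      have h3 := hom a ha b hb c hc hab hbc
      by_cases h4 : D a b < D b c
      · refine ⟨h4, ?_⟩
        rw [G3, if_pos h4, pc] at h3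
        by_cases h5 : bl (D a b) = bl (D b c)
        · rw [if_pos h5] at h3
          split_ifs at h3
          · exact absurd h3.symm hν0
          · exact absurd h3.symm hν1
        · rw [if_neg h5] at h3
          exact ⟨h5, h3⟩
      · exfalso
        rw [G3, if_neg h4] at h3
        split_ifs at h3
        · exact hν1 h3.symm
        · rcases he'c (bl (D a b)) (bl (D a c)) with h | h
          · exact hν0 (h3.symm.trans h)
          · exact hν1 (h3.symm.trans h)
        · exact hν0 h3.symm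
        · rcases he'c (bl (D b c)) (bl (D a b)) with h | h
          · exact hν0 (h3.symm.trans h)
          · exact hν1 (h3.symm.trans h)
    have hcomb : Comb D Y := fun a ha b hb c hc hab hbc => (key a ha b hb c hc hab hbc).1
    obtain ⟨Z, hZ1, hZ2, _⟩ := comb_levels hD hcomb 1 le_rfl (fun _ => ν) ν (fun _ _ _ => rfl)
    have hZc : lam ν ≤ #Z := by
      rw [hY] at hZ1
      exact Cardinal.add_one_le_add_one_iff.mp hZ1
    have hpair : ∀ z ∈ Z, ∀ z' ∈ Z, z < z' → bl z ≠ bl z' ∧ e {bl z, bl z'} = ν := by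
      intro d hd d' hd' hdd
      obtain ⟨x, hx, y, hy, hxy, rfl⟩ := hZ2 d hd
      obtain ⟨x', hx', y', hy', hxy', rfl⟩ := hZ2 d' hd'
      have hlt : x < x' := by
        rcases lt_trichotomy x x' with h | h | h
        · exact h
        · exfalso
          subst h
          rw [hcomb.indep hD hx hy hy' hxy hxy'] at hdd
          exact lt_irrefl _ hdd
        · exact absurd (hcomb.lt_of_lt hD hx' hy' hx hy hxy' hxy h) hdd.asymm
      have h1 := hcomb.indep hD hx hy hx' hxy hlt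
      rw [h1]
      exact (key x hx x' hx' y' hy' hlt hxy').2
    have hinj : Set.InjOn bl Z := by
      intro z hz z' hz' h
      by_contra hne'
      rcases lt_or_gt_of_ne hne' with h' | h'
      · exact (hpair z hz z' hz' h').1 h
      · exact (hpair z' hz' z hz h').1 h.symm
    obtain ⟨s, h3, h4, h5⟩ := he.of_le (ν := ν) (Y := bl '' Z) (by
      rw [Cardinal.mk_image_eq_of_injOn _ _ hinj]
      exact (min_le_left _ _).trans hZc)
    obtain ⟨x, y, hxy, rfl⟩ := Finset.card_eq_two.mp h3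
    obtain ⟨z, hz, rfl⟩ : x ∈ bl '' Z := h4 (by simp)
    obtain ⟨z', hz', rfl⟩ : y ∈ bl '' Z := h4 (by simp)
    have hzz : z ≠ z' := fun h => hxy (by rw [h])
    rcases lt_or_gt_of_ne hzz with h | h
    · exact h5 (hpair z hz z' hz' h).2
    · rw [Finset.pair_comm] at h5
      exact h5 (hpair z' hz' z hz h).2

/-- A set of more than `2^lam` points has more than `2^lam` points without colours in `E`, or more
than `lam` points homogeneous in a colour of `E`; `E` has at most `lam` elements. -/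
lemma asym_multi {L Γ : Type u} (F : L → L → Γ) (hF : ∀ x y, F x y = F y x) (C : Set L)
    {lam : Cardinal.{u}} (hl : ℵ₀ ≤ lam) (hC : 2 ^ lam < #C) (E : Set Γ) (hE : #E ≤ lam)
    (hind : ∀ T ⊆ C, (∀ x ∈ T, ∀ y ∈ T, x ≠ y → F x y ∉ E) → #T ≤ 2 ^ lam) :
    ∃ ν ∈ E, ∃ S ⊆ C, lam < #S ∧ ∀ x ∈ S, ∀ y ∈ S, x ≠ y → F x y = ν := by
  classical
  have h2l : ℵ₀ ≤ (2 : Cardinal.{u}) ^ lam := hl.trans (Cardinal.cantor _).le
  -- maximal independent sets
  have hM : ∀ X : Set L, ∃ T ⊆ X, (∀ x ∈ T, ∀ y ∈ T, x ≠ y → F x y ∉ E) ∧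
      ∀ x ∈ X, x ∉ T → ∃ m ∈ T, F m x ∈ E := by
    intro X
    obtain ⟨T, hT⟩ := zorn_subset {T : Set L | T ⊆ X ∧ ∀ x ∈ T, ∀ y ∈ T, x ≠ y → F x y ∉ E} (by
      intro c hc hchain
      refine ⟨⋃₀ c, ⟨Set.sUnion_subset fun t ht => (hc ht).1, ?_⟩,
        fun s hs => Set.subset_sUnion_of_mem hs⟩
      intro x hx y hy hxy
      obtain ⟨t1, ht1, hx1⟩ := hx
      obtain ⟨t2, ht2, hy2⟩ := hy
      rcases hchain.total ht1 ht2 with h | h
      · exact (hc ht2).2 x (h hx1) y hy2 hxy
      · exact (hc ht1).2 x hx1 y (h hy2) hxy)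
    refine ⟨T, hT.prop.1, hT.prop.2, ?_⟩
    intro x hx hxT
    by_contra hcon
    push Not at hcon
    have h1 : insert x T ∈ {T : Set L | T ⊆ X ∧ ∀ x ∈ T, ∀ y ∈ T, x ≠ y → F x y ∉ E} := by
      refine ⟨Set.insert_subset hx hT.prop.1, ?_⟩
      intro a ha b hb hab
      rcases Set.mem_insert_iff.mp ha with ha1 | ha1
      · rcases Set.mem_insert_iff.mp hb with hb1 | hb1
        · exact absurd (ha1.trans hb1.symm) hab
        · rw [hF, ha1]; exact hcon b hb1
      · rcases Set.mem_insert_iff.mp hb with hb1 | hb1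
        · rw [hb1]; exact hcon a ha1
        · exact hT.prop.2 a ha1 b hb1 hab
    exact hxT (hT.le_of_ge h1 (Set.subset_insert x T) (Set.mem_insert x T))
  choose M hM1 hM2 hM3 using hM
  set XS : (S : Set L) → (S → E) → Set L :=
    fun S c => {x | x ∈ C ∧ ∀ s : S, s.1 ≠ x ∧ F s.1 x = (c s).1} with hXS
  have hMc : ∀ S c, #(M (XS S c)) ≤ 2 ^ lam := fun S c =>
    hind _ ((hM1 (XS S c)).trans fun x hx => hx.1) (hM2 _)
  obtain ⟨N, hNc, hN⟩ := exists_closed hl
    (fun S => if #S ≤ lam then ⋃ c : S → E, M (XS S c) else ∅) (by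
      intro S
      split_ifs with hS
      · refine (Cardinal.mk_iUnion_le _).trans ?_
        calc #(S → E) * ⨆ c, #(M (XS S c)) ≤ 2 ^ lam * 2 ^ lam := by
              gcongr
              · rw [← Cardinal.power_def, ← pow_pow_self hl]
                exact (Cardinal.power_le_power_right (hE.trans (Cardinal.cantor _).le)).trans
                  (Cardinal.power_le_power_left (Cardinal.aleph0_pos.trans_le h2l).ne' hS)
              · exact ciSup_le' fun c => hMc S c
          _ = 2 ^ lam := Cardinal.mul_eq_self h2l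
      · rw [Cardinal.mk_emptyCollection]; exact zero_le)
  obtain ⟨p, hpC, hpN⟩ : ∃ p ∈ C, p ∉ N := by
    by_contra hcon
    push Not at hcon
    exact absurd (Cardinal.mk_le_mk_of_subset hcon) (not_le.mpr (hNc.trans_lt hC))
  set W := (Order.succ lam).ord.ToType with hW
  have hWc : #W = Order.succ lam := Cardinal.mk_ord_toType _
  have hIio : ∀ w : W, #(Iio w) ≤ lam := fun w =>
    Order.lt_succ_iff.1 (Cardinal.mk_Iio_toType_ord_lt w)
  -- the path of `p`
  set s : W → L := (wellFounded_lt (α := W)).fix (fun w ih =>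
    if h : ∃ m, (m ∈ N ∧ m ∈ C) ∧ F m p ∈ E ∧
      ∀ v : Iio w, ih v.1 v.2 ≠ m ∧ F (ih v.1 v.2) m = F (ih v.1 v.2) p then h.choose else p)
    with hs
  have hseq : ∀ w, s w = if h : ∃ m, (m ∈ N ∧ m ∈ C) ∧ F m p ∈ E ∧
      ∀ v : Iio w, s v.1 ≠ m ∧ F (s v.1) m = F (s v.1) p then h.choose else p := by
    intro w
    rw [hs]
    exact (wellFounded_lt (α := W)).fix_eq _ w
  have hprop : ∀ w, (s w ∈ N ∧ s w ∈ C) ∧ F (s w) p ∈ E ∧
      ∀ v : Iio w, s v.1 ≠ s w ∧ F (s v.1) (s w) = F (s v.1) p := by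
    intro w
    induction w using WellFoundedLT.induction with
    | _ w ih =>
      have hex : ∃ m, (m ∈ N ∧ m ∈ C) ∧ F m p ∈ E ∧
          ∀ v : Iio w, s v.1 ≠ m ∧ F (s v.1) m = F (s v.1) p := by
        set S : Set L := Set.range (fun v : Iio w => s v.1) with hS
        have hSN : S ⊆ N := by
          rintro x ⟨v, rfl⟩
          exact (ih v.1 v.2).1.1
        have hSc : #S ≤ lam := Cardinal.mk_range_le.trans (hIio w)
        have hSE : ∀ x : S, F x.1 p ∈ E := by
          rintro ⟨x, v, rfl⟩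
          exact (ih v.1 v.2).2.1
        set c : S → E := fun x => ⟨F x.1 p, hSE x⟩ with hc
        have hpX : p ∈ XS S c := ⟨hpC, fun x => ⟨fun h => hpN (by rw [← h]; exact hSN x.2), rfl⟩⟩
        have hMN : M (XS S c) ⊆ N := by
          have h1 := hN S hSN hSc
          rw [if_pos hSc] at h1
          exact (Set.subset_iUnion (fun c : S → E => M (XS S c)) c).trans h1
        obtain ⟨m, hm, hmp⟩ := hM3 (XS S c) p hpX (fun h => hpN (hMN h))
        have hmX := hM1 _ hm
        exact ⟨m, ⟨hMN hm, hmX.1⟩, hmp, fun v => hmX.2 ⟨s v.1, v, rfl⟩⟩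
      rw [hseq w, dif_pos hex]
      exact hex.choose_spec
  have hreg := Cardinal.isRegular_succ hl
  obtain ⟨ν, hν⟩ := Cardinal.infinite_pigeonhole_card
    (fun w : W => (⟨F (s w) p, (hprop w).2.1⟩ : E)) (Order.succ lam) hWc.ge hreg.aleph0_le
    (by rw [hreg.cof_ord]; exact hE.trans_lt (Order.lt_succ _))
  have hsinj : Function.Injective s := by
    intro v w hvw
    rcases lt_trichotomy v w with h | h | h
    · exact absurd hvw ((hprop w).2.2 ⟨v, h⟩).1
    · exact h
    · exact absurd hvw.symm ((hprop v).2.2 ⟨w, h⟩).1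
  refine ⟨ν.1, ν.2, s '' ((fun w : W => (⟨F (s w) p, (hprop w).2.1⟩ : E)) ⁻¹' {ν}), ?_, ?_, ?_⟩
  · rintro x ⟨w, -, rfl⟩
    exact (hprop w).1.2
  · rw [Cardinal.mk_image_eq hsinj]
    exact (Order.lt_succ _).trans_le hν
  · have key : ∀ v w, v < w → (⟨F (s v) p, (hprop v).2.1⟩ : E) = ν → F (s v) (s w) = ν.1 := by
      intro v w hvw hv
      rw [((hprop w).2.2 ⟨v, hvw⟩).2]
      exact congrArg Subtype.val hv
    rintro x ⟨v, hv, rfl⟩ y ⟨w, hw, rfl⟩ hxy
    have hvw : v ≠ w := fun h => hxy (by rw [h])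
    rcases lt_or_gt_of_ne hvw with h | h
    · exact key v w h hv
    · rw [hF]
      exact key w v h hw

end Pool.Agent.Run7.h584.NS
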