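import Mathlib
import Pool.Agent.Run7.h584.NS.Multi2

/-!
# `r = 2`: two entries `λ` with `κ ≤ 2^{<λ}`
-/

open Cardinal Set

universe u

namespace Pool.Agent.Run7.h584.NS

open Pool.Agent.H330

/-- lowering with two colours only -/
lemma NA_two {L Γ : Type u} [LinearOrder L] {c0 c1 : Γ} {p : L → L → Γ}
    (hp : ∀ x y, p x y = c0 ∨ p x y = c1) {f : Finset L → Γ}
    (hfp : ∀ x y, x < y → f {x, y} = p x y) {lam' : Γ → Cardinal.{u}}
    (h2 : ∀ ν, (2 : Cardinal) ≤ lam' ν)
    (hc0 : ∀ Y : Set L, (∀ x ∈ Y, ∀ y ∈ Y, x < y → p x y = c0) → #Y < lam' c0)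
    (hc1 : ∀ Y : Set L, (∀ x ∈ Y, ∀ y ∈ Y, x < y → p x y = c1) → #Y < lam' c1) :
    NA lam' 2 f := by
  classical
  refine NA_pair hfp ?_
  intro ν Y hY
  by_contra hcon
  push Not at hcon
  by_cases h0 : ν = c0
  · rw [h0] at hcon hY
    have := hc0 Y hcon
    rw [hY] at this
    exact lt_irrefl _ this
  by_cases h1 : ν = c1
  · rw [h1] at hcon hY
    have := hc1 Y hcon
    rw [hY] at this
    exact lt_irrefl _ this
  obtain ⟨s, hs, hs2⟩ := exists_finset_card (H := Y) (n := 2) (by
    rw [hY]; exact_mod_cast h2 ν)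
  obtain ⟨x, y, hxy, rfl⟩ := Finset.card_eq_two.mp hs2
  have hx : x ∈ Y := hs (by simp)
  have hy : y ∈ Y := hs (by simp)
  have key : ∀ x ∈ Y, ∀ y ∈ Y, ¬ x < y := by
    intro x hx y hy hxy
    have h4 := hcon x hx y hy hxy
    rcases hp x y with h | h
    · exact h0 (h4.symm.trans h)
    · exact h1 (h4.symm.trans h)
  rcases lt_or_gt_of_ne hxy with h' | h'
  · exact key x hx y hy h'
  · exact key y hy x hx h'

/-- `r = 2`: two entries `μ ≤ lam c0`, `μ = lam c1`, `κ ≤ 2^{<μ}`. -/
theorem two_large {κ : Cardinal.{u}} (hκ : ℵ₀ ≤ κ) {Γ : Type u} {lam : Γ → Cardinal.{u}}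
    (hlam : ∀ ν, (2 : Cardinal) ≤ lam ν ∧ lam ν ≤ κ) {f : Finset κ.ord.ToType → Γ}
    (hf : NA lam 2 f) {c0 c1 : Γ} (hne : c1 ≠ c0) {μ : Cardinal.{u}} (h1 : lam c1 = μ)
    (hμ : ℵ₀ ≤ μ) (h0 : μ ≤ lam c0) (hκμ : κ ≤ 2 ^< μ) :
    ∃ g : Finset ((2 : Cardinal.{u}) ^ κ).ord.ToType → Γ, NA (fun ν => lam ν + 1) 3 g := by
  classical
  have h2ℵ : (2 : Cardinal.{u}) ≤ ℵ₀ := by exact_mod_cast (Cardinal.natCast_lt_aleph0 (n := 2)).le
  have hΓne : Nonempty Γ := ⟨c0⟩
  by_cases hreg : μ.IsRegular
  · exact main_two hκ hlam hf (Or.inr (Or.inl ⟨c1, by rw [h1]; exact hreg⟩))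
  have hsing : μ.ord.cof < μ := by
    by_contra hcon
    exact hreg ⟨hμ, not_lt.mp hcon⟩
  have hθ : ℵ₀ ≤ μ.ord.cof := Ordinal.aleph0_le_cof.mpr (Cardinal.isSuccLimit_ord hμ)
  by_cases hρ : ∃ ρ < μ, κ ≤ 2 ^ ρ
  · obtain ⟨ρ, hρ, hκρ⟩ := hρ
    exact two_small hκ hlam hne hμ h0 h1.ge hρ hκρ
  have hlt := hρ
  push Not at hlt
  by_cases hthird : ∃ c2, c2 ≠ c0 ∧ c2 ≠ c1 ∧ μ.ord.cof < lam c2
  · obtain ⟨c2, hne0, hne1, h2⟩ := hthird
    exact two_third hκ hlam hne hne0 hne1 hμ hsing hκμ hlt h0 h1.ge h2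
  have hs : ∀ ν, ν ≠ c0 → ν ≠ c1 → lam ν ≤ μ.ord.cof := by
    intro ν hν0 hν1
    by_contra hcon
    exact hthird ⟨ν, hν0, hν1, not_le.mp hcon⟩
  by_cases hE : ∃ e : Finset μ.ord.cof.ord.ToType → Γ, NA (fun ν => min (lam ν) μ.ord.cof) 2 e
  · obtain ⟨e, he⟩ := hE
    have := nonempty_ordToType hκ
    obtain ⟨D, φ, hD, hφ⟩ := exists_treeDist κ.ord.ToType ((2 : Cardinal.{u}) ^ κ).ord.ToType
      (by rw [Cardinal.mk_ord_toType, Cardinal.mk_ord_toType])
    exact step_two_gen hD (fun ν => (hlam ν).1) hne h0 h1.ge hμ hsing hκμ hlt he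
  rcases h0.lt_or_eq with h0' | h0'
  · -- the first entry is greater than `μ`
    obtain ⟨bl, R, hbl, hR0, hRμ, hRB⟩ := limit_blocks hμ hsing hκμ hlt
    have hbk : ∀ k, ∃ c : κ.ord.ToType → κ.ord.ToType → Bool,
        ∀ (Y : Set κ.ord.ToType) (b : Bool),
        Y ⊆ {l | bl l = k} → (∀ x ∈ Y, ∀ y ∈ Y, x < y → c x y = b) → #Y ≤ R k :=
      fun k => sierp _ (R k) (hR0 k) (hRB k)
    choose cc hcc using hbk
    obtain ⟨f', hf'⟩ := pair_fun (fun x y : κ.ord.ToType =>
      if bl x = bl y then (if cc (bl x) x y = true then c0 else c1) else c0)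
    set lam' : Γ → Cardinal.{u} := fun ν => if ν = c0 then Order.succ μ else lam ν with hlam'
    have hl0 : lam' c0 = Order.succ μ := if_pos rfl
    have hl1 : lam' c1 = μ := by
      have h3 : lam' c1 = lam c1 := if_neg hne
      rw [h3, h1]
    have hle : ∀ ν, lam' ν ≤ lam ν := by
      intro ν
      by_cases h : ν = c0
      · rw [h, hl0]; exact Order.succ_le_of_lt h0'
      · have h3 : lam' ν = lam ν := if_neg h
        rw [h3]
    have h2le : ∀ ν, (2 : Cardinal) ≤ lam' ν := by
      intro ν
      by_cases h : ν = c0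
      · rw [h, hl0]; exact h2ℵ.trans (hμ.trans (Order.le_succ _))
      · have h3 : lam' ν = lam ν := if_neg h
        rw [h3]; exact (hlam ν).1
    have hNA : NA lam' 2 f' := by
      refine NA_two (c0 := c0) (c1 := c1) ?_ hf' h2le ?_ ?_
      · intro x y
        by_cases h3 : bl x = bl y
        · rw [if_pos h3]
          by_cases h4 : cc (bl x) x y = true
          · rw [if_pos h4]; exact Or.inl rfl
          · rw [if_neg h4]; exact Or.inr rfl
        · rw [if_neg h3]; exact Or.inl rfl
      · intro Y hY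
        rw [hl0]
        refine Order.lt_succ_iff.mpr ?_
        have h3 : Y ⊆ ⋃ k, {y | y ∈ Y ∧ bl y = k} := fun y hy =>
          Set.mem_iUnion.mpr ⟨bl y, hy, rfl⟩
        refine ((Cardinal.mk_le_mk_of_subset h3).trans (Cardinal.mk_iUnion_le _)).trans ?_
        rw [Cardinal.mk_ord_toType]
        calc μ.ord.cof * ⨆ k, #{y | y ∈ Y ∧ bl y = k} ≤ μ * μ := by
              gcongr
              refine ciSup_le' fun k => ?_
              refine (hcc k {y | y ∈ Y ∧ bl y = k} true (fun y hy => hy.2) ?_).trans (hRμ k).le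
              intro x hx y hy hxy
              have h4 := hY x hx.1 y hy.1 hxy
              rw [if_pos (hx.2.trans hy.2.symm), hx.2] at h4
              by_contra h5
              rw [if_neg h5] at h4
              exact hne h4
          _ = μ := Cardinal.mul_eq_self hμ
      · intro Y hY
        rw [hl1]
        by_cases hYe : Y.Nonempty
        · obtain ⟨x, hx⟩ := hYe
          have hsame : ∀ a ∈ Y, ∀ b ∈ Y, a < b → bl a = bl b := by
            intro a ha b hb hab
            by_contra h3
            have h4 := hY a ha b hb hab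
            rw [if_neg h3] at h4
            exact hne h4.symm
          have hYb : Y ⊆ {l | bl l = bl x} := by
            intro z hz
            rcases lt_trichotomy z x with h | h | h
            · exact hsame z hz x hx h
            · rw [h]; rfl
            · exact (hsame x hx z hz h).symm
          refine (hcc (bl x) Y false hYb ?_).trans_lt (hRμ _)
          intro a ha b hb hab
          have h4 := hY a ha b hb hab
          rw [if_pos (hsame a ha b hb hab)] at h4
          have h5 : bl a = bl x := hYb ha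
          rw [h5] at h4
          cases hc : cc (bl x) a b with
          | true =>
            rw [if_pos hc] at h4
            exact absurd h4.symm hne
          | false => rfl
        · rw [Set.not_nonempty_iff_eq_empty.mp hYe, Cardinal.mk_emptyCollection]
          exact Cardinal.aleph0_pos.trans_le hμ
    obtain ⟨g, hg⟩ := main_two hκ (fun ν => ⟨h2le ν, (hle ν).trans (hlam ν).2⟩) hNA
      (Or.inr (Or.inl ⟨c0, by rw [hl0]; exact Cardinal.isRegular_succ hμ⟩))
    exact ⟨g, hg.mono (fun ν => add_le_add (hle ν) le_rfl)⟩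
  · have hμκ : μ ≤ κ := by rw [← h1]; exact (hlam c1).2
    rcases hμκ.lt_or_eq with hlt' | heq
    · by_cases hg : κ ≤ 2 ^ #{ν : Γ | (2 : Cardinal) < lam ν}
      · exact main_two hκ hlam hf (Or.inr (Or.inr (Cardinal.power_le_power_left two_ne_zero hg)))
      · exfalso
        have hgμ : #{ν : Γ | (2 : Cardinal) < lam ν} < μ := by
          by_contra hcon
          push Not at hcon
          refine hg (hκμ.trans (Cardinal.powerlt_le.mpr fun ρ hρ => ?_))
          exact Cardinal.power_le_power_left two_ne_zero (hρ.le.trans hcon)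
        -- pass to the used colours
        have hlam2' : ∀ ν, ((2 : ℕ) : Cardinal) ≤ lam ν := fun ν => by
          exact_mod_cast (hlam ν).1
        have hL : ℵ₀ ≤ #κ.ord.ToType := by rw [Cardinal.mk_ord_toType]; exact hκ
        have h2μ : ((2 : ℕ) : Cardinal.{u}) < μ :=
          (Cardinal.natCast_lt_aleph0 (n := 2)).trans_le hμ
        set E : Set Γ := {ν : Γ | ((2 : ℕ) : Cardinal) < lam ν} with hEdef
        obtain ⟨f1, hf1⟩ : ∃ f1 : Finset κ.ord.ToType → E,
          ∀ s : Finset κ.ord.ToType, s.card = 2 → (f1 s).1 = f s := pos_color hf hlam2' hL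
        have hEeq : {ν : Γ | (2 : Cardinal) < lam ν} = E := by ext ν; simp [hEdef]
        rw [hEeq] at hgμ
        have hc0E : c0 ∈ E := by
          show ((2 : ℕ) : Cardinal) < lam c0
          rw [← h0']; exact h2μ
        have hc1E : c1 ∈ E := by
          show ((2 : ℕ) : Cardinal) < lam c1
          rw [h1]; exact h2μ
        have hNA1 : NA (fun ν : E => lam ν.1) 2 f1 := by
          intro ν Y hY
          obtain ⟨s, h3, h4, h5⟩ := hf ν.1 Y hY
          exact ⟨s, h3, h4, fun h => h5 (by rw [← hf1 s h3, h])⟩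
        obtain ⟨e, he⟩ := canon_multi (c0 := (⟨c0, hc0E⟩ : E)) (c1 := (⟨c1, hc1E⟩ : E)) hμ hsing
          hκμ hlt hlt' hgμ h0'.symm h1
          (fun ν hν0 hν1 => hs ν.1 (fun h => hν0 (Subtype.ext h)) (fun h => hν1 (Subtype.ext h)))
          hNA1
        refine hE ⟨fun s => (e s).1, ?_⟩
        intro ν Y hY
        by_cases hνE : ν ∈ E
        · obtain ⟨s, h3, h4, h5⟩ := he ⟨ν, hνE⟩ Y hY
          exact ⟨s, h3, h4, fun h => h5 (Subtype.ext h)⟩
        · have h3 : ((2 : ℕ) : Cardinal) ≤ #Y := by
            rw [hY]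
            exact le_min (hlam2' ν) (by exact_mod_cast h2ℵ.trans hθ)
          obtain ⟨s, hs1, hs2⟩ := exists_finset_card h3
          exact ⟨s, hs2, hs1, fun h => hνE (by rw [← h]; exact (e s).2)⟩
    · subst heq
      obtain ⟨bl, R, hR0, hRμ, hbR⟩ := blocks_self hμ hsing
      obtain ⟨f', hf'⟩ := pair_fun (fun x y : μ.ord.ToType => if bl x = bl y then c0 else c1)
      set lam' : Γ → Cardinal.{u} := fun ν => if ν = c1 then Order.succ μ.ord.cof else lam ν
        with hlam'
      have hl1 : lam' c1 = Order.succ μ.ord.cof := if_pos rfl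
      have hl0 : lam' c0 = μ := by
        have h3 : lam' c0 = lam c0 := if_neg hne.symm
        rw [h3, ← h0']
      have hle : ∀ ν, lam' ν ≤ lam ν := by
        intro ν
        by_cases h : ν = c1
        · rw [h, hl1, h1]; exact Order.succ_le_of_lt hsing
        · have h3 : lam' ν = lam ν := if_neg h
          rw [h3]
      have h2le : ∀ ν, (2 : Cardinal) ≤ lam' ν := by
        intro ν
        by_cases h : ν = c1
        · rw [h, hl1]; exact h2ℵ.trans (hθ.trans (Order.le_succ _))
        · have h3 : lam' ν = lam ν := if_neg h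
          rw [h3]; exact (hlam ν).1
      have hNA : NA lam' 2 f' := by
        refine NA_two (c0 := c0) (c1 := c1) ?_ hf' h2le ?_ ?_
        · intro x y
          by_cases h3 : bl x = bl y
          · rw [if_pos h3]; exact Or.inl rfl
          · rw [if_neg h3]; exact Or.inr rfl
        · intro Y hY
          rw [hl0]
          by_cases hYe : Y.Nonempty
          · obtain ⟨x, hx⟩ := hYe
            have hsame : ∀ a ∈ Y, ∀ b ∈ Y, a < b → bl a = bl b := by
              intro a ha b hb hab
              by_contra h3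
              have h4 := hY a ha b hb hab
              rw [if_neg h3] at h4
              exact hne h4
            have hYb : Y ⊆ {l | bl l = bl x} := by
              intro z hz
              rcases lt_trichotomy z x with h | h | h
              · exact hsame z hz x hx h
              · rw [h]; rfl
              · exact (hsame x hx z hz h).symm
            exact ((Cardinal.mk_le_mk_of_subset hYb).trans (hbR _)).trans_lt (hRμ _)
          · rw [Set.not_nonempty_iff_eq_empty.mp hYe, Cardinal.mk_emptyCollection]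
            exact Cardinal.aleph0_pos.trans_le hμ
        · intro Y hY
          rw [hl1]
          refine Order.lt_succ_iff.mpr ?_
          have h3 : #Y ≤ #μ.ord.cof.ord.ToType := by
            refine Cardinal.mk_le_of_injective (f := fun x : Y => bl x.1) ?_
            intro x y hxy
            by_contra hne'
            have hne'' : x.1 ≠ y.1 := fun h => hne' (Subtype.ext h)
            have key : ∀ x ∈ Y, ∀ y ∈ Y, x < y → bl x ≠ bl y := by
              intro x hx y hy hxy hb
              have h4 := hY x hx y hy hxy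
              rw [if_pos hb] at h4
              exact hne h4.symm
            rcases lt_or_gt_of_ne hne'' with h | h
            · exact key _ x.2 _ y.2 h hxy
            · exact key _ y.2 _ x.2 h hxy.symm
          rwa [Cardinal.mk_ord_toType] at h3
      obtain ⟨g, hg⟩ := main_two hκ (fun ν => ⟨h2le ν, (hle ν).trans (hlam ν).2⟩) hNA
        (Or.inr (Or.inl ⟨c1, by rw [hl1]; exact Cardinal.isRegular_succ hθ⟩))
      exact ⟨g, hg.mono (fun ν => add_le_add (hle ν) le_rfl)⟩

end Pool.Agent.Run7.h584.NS
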