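import Mathlib
import Pool.Agent.Run7.h584.NS.TwoLarge

/-!
# `r = 2`: the largest entry is attained twice
-/

open Cardinal Set

universe u

namespace Pool.Agent.Run7.h584.NS

open Pool.Agent.H330

/-- classes of an end-homogeneous sequence are small -/
lemma class_lt {L Γ W : Type u} [LinearOrder W] [WellFoundedLT W]
    {lamb : Γ → Cardinal.{u}} {f : Finset L → Γ} (hf : NA lamb 2 f)
    (hsum : Cardinal.sum (fun w : W => #(Finset (Set.Iio w) → Γ)) < #L) :
    ∃ c : W → Γ, ∀ ν, #{w | c w = ν} < lamb ν := by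
  classical
  obtain ⟨p, x, hx, hp, hxp⟩ := end_homog f hsum
  refine ⟨fun w => f (insert p (({w} : Finset W).image x)), fun ν => ?_⟩
  by_contra hcon
  push Not at hcon
  refine pos_img hf hx (ν := ν)
    (S := {w | f (insert p (({w} : Finset W).image x)) = ν}) hcon ?_
  intro t ht hsub
  obtain ⟨v, w, hvw, rfl⟩ := Finset.card_eq_two.mp ht
  have key : ∀ v w : W, v < w → f (insert p (({v} : Finset W).image x)) = ν →
      f (({v, w} : Finset W).image x) = ν := by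
    intro v w hvw hv
    have h5 := hxp w {v} (by intro u hu; rw [Finset.mem_singleton.mp hu]; exact hvw)
    rw [hv] at h5
    rw [← h5, Finset.image_insert, Finset.image_singleton, Finset.pair_comm]
    rfl
  have hv : f (insert p (({v} : Finset W).image x)) = ν := hsub (by simp)
  have hw : f (insert p (({w} : Finset W).image x)) = ν := hsub (by simp)
  rcases lt_or_gt_of_ne hvw with h | h
  · exact key v w h hv
  · rw [Finset.pair_comm]
    exact key w v h hw

lemma pos_small_gen {L Γ : Type u} {μ ρ : Cardinal.{u}} {lamb : Γ → Cardinal.{u}}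
    {f : Finset L → Γ} (hf : NA lamb 2 f) (hμ : ℵ₀ < μ) (hΓ : #Γ < μ) (hle : ∀ ν, lamb ν ≤ μ)
    (hρ : ρ < μ) (hE : #{ν | ρ < lamb ν} < μ.ord.cof) : #L ≤ 2 ^< μ := by
  classical
  by_contra hcon
  push Not at hcon
  obtain ⟨c, hc⟩ := class_lt (W := μ.ord.ToType) hf (by
    refine lt_of_le_of_lt ?_ hcon
    have h1 : ∀ w : μ.ord.ToType, #(Finset (Set.Iio w) → Γ) ≤ 2 ^< μ := by
      intro w
      set ρ := max ℵ₀ (max #Γ #(Iio w)) with hρ
      have hρμ : ρ < μ := max_lt hμ (max_lt hΓ (Cardinal.mk_Iio_toType_ord_lt w))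
      have hρ0 : ℵ₀ ≤ ρ := le_max_left _ _
      have h2 : #(Finset (Set.Iio w)) ≤ ρ := by
        rcases finite_or_infinite (Set.Iio w) with hfi | hinf
        · exact (Cardinal.lt_aleph0_of_finite _).le.trans hρ0
        · rw [Cardinal.mk_finset_of_infinite]
          exact (le_max_right _ _).trans (le_max_right _ _)
      have h3 : #Γ ≤ ρ := (le_max_left _ _).trans (le_max_right _ _)
      rw [← Cardinal.power_def]
      calc #Γ ^ #(Finset (Set.Iio w)) ≤ ρ ^ ρ := (Cardinal.power_le_power_right h3).trans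
            (Cardinal.power_le_power_left (Cardinal.aleph0_pos.trans_le hρ0).ne' h2)
        _ = 2 ^ ρ := Cardinal.power_self_eq hρ0
        _ ≤ 2 ^< μ := Cardinal.le_powerlt 2 hρμ
    refine (Cardinal.sum_le_sum _ (fun _ => 2 ^< μ) h1).trans ?_
    rw [Cardinal.sum_const', Cardinal.mk_ord_toType]
    calc μ * 2 ^< μ ≤ 2 ^< μ * 2 ^< μ := by gcongr; exact self_le_powerlt μ
      _ = 2 ^< μ := Cardinal.mul_eq_self (hμ.le.trans (self_le_powerlt μ)))
  set W1 : Set μ.ord.ToType := {w | ρ < lamb (c w)} with hW1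
  set W2 : Set μ.ord.ToType := {w | lamb (c w) ≤ ρ} with hW2
  have h2 : #W2 < μ := by
    have h3 : W2 ⊆ ⋃ ν : Γ, {w | w ∈ W2 ∧ c w = ν} := fun w hw =>
      Set.mem_iUnion.mpr ⟨c w, hw, rfl⟩
    refine ((Cardinal.mk_le_mk_of_subset h3).trans (Cardinal.mk_iUnion_le _)).trans_lt ?_
    refine lt_of_le_of_lt (b := #Γ * ρ) ?_ (Cardinal.mul_lt_of_lt hμ.le hΓ hρ)
    gcongr
    refine ciSup_le' fun ν => ?_
    by_cases hν : lamb ν ≤ ρ
    · exact (Cardinal.mk_le_mk_of_subset fun w hw => hw.2).trans ((hc ν).le.trans hν)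
    · have : {w | w ∈ W2 ∧ c w = ν} = ∅ := by
        rw [Set.eq_empty_iff_forall_notMem]
        rintro w ⟨hw, hw'⟩
        exact hν (hw' ▸ hw)
      rw [this, Cardinal.mk_emptyCollection]
      exact zero_le
  have h1 : μ ≤ #W1 := by
    by_contra hcon'
    push Not at hcon'
    have h3 : (Set.univ : Set μ.ord.ToType) ⊆ W1 ∪ W2 := by
      intro w _
      rcases lt_or_ge ρ (lamb (c w)) with h | h
      · exact Or.inl h
      · exact Or.inr h
    have h4 := ((Cardinal.mk_le_mk_of_subset h3).trans (Cardinal.mk_union_le _ _)).trans_lt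
      (Cardinal.add_lt_of_lt hμ.le hcon' h2)
    rw [Cardinal.mk_univ, Cardinal.mk_ord_toType] at h4
    exact lt_irrefl _ h4
  obtain ⟨ν, hν⟩ := Cardinal.infinite_pigeonhole_card
    (fun w : W1 => (⟨c w.1, w.2⟩ : {ν | ρ < lamb ν})) μ h1 hμ.le hE
  have h3 : μ ≤ #{w | c w = ν.1} := by
    refine hν.trans (Cardinal.mk_le_of_injective (f := fun w => (⟨w.1.1, ?_⟩ :
      {w | c w = ν.1})) ?_)
    · have := congrArg Subtype.val w.2
      exact this
    · intro a b hab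
      have := congrArg Subtype.val hab
      exact Subtype.ext (Subtype.ext this)
  exact absurd (h3.trans_lt ((hc ν.1).trans_le (hle ν.1))) (lt_irrefl _)

/-- distinct representatives of large sets -/
lemma sdr {T Γ : Type u} {θ : Cardinal.{u}} (hT : #T = θ) (E : T → Set Γ)
    (hE : ∀ t, θ ≤ #(E t)) : ∃ ι : T → Γ, Function.Injective ι ∧ ∀ t, ι t ∈ E t := by
  classical
  have h0 : #θ.ord.ToType = #T := by rw [Cardinal.mk_ord_toType, hT]
  obtain ⟨j⟩ := Cardinal.eq.mp h0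
  -- recursion along `θ`
  have hex : ∀ (w : θ.ord.ToType) (U : Set Γ), ∃ x : Γ, #U < θ → (x ∈ E (j w) ∧ x ∉ U) := by
    intro w U
    by_cases hU : #U < θ
    · have h1 : ¬ E (j w) ⊆ U := fun h =>
        absurd (Cardinal.mk_le_mk_of_subset h) (not_le.mpr (hU.trans_le (hE _)))
      obtain ⟨x, hx, hx'⟩ := Set.not_subset.mp h1
      exact ⟨x, fun _ => ⟨hx, hx'⟩⟩
    · have hne : Nonempty (E (j w)) := by
        rw [← Cardinal.mk_ne_zero_iff]
        intro h
        have h1 := hE (j w)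
        rw [h] at h1
        have h2 : #(Iio w) < θ := Cardinal.mk_Iio_toType_ord_lt w
        exact absurd (h2.trans_le h1) not_lt_zero
      obtain ⟨x⟩ := hne
      exact ⟨x.1, fun h => absurd h hU⟩
  choose Ψ hΨ using hex
  set s : θ.ord.ToType → Γ := (wellFounded_lt (α := θ.ord.ToType)).fix
    (fun w ih => Ψ w (Set.range fun v : Iio w => ih v.1 v.2)) with hs
  have hseq : ∀ w, s w = Ψ w (Set.range fun v : Iio w => s v.1) := by
    intro w
    rw [hs]
    exact (wellFounded_lt (α := θ.ord.ToType)).fix_eq _ w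
  have hprop : ∀ w, s w ∈ E (j w) ∧ s w ∉ (Set.range fun v : Iio w => s v.1) := by
    intro w
    have h1 := hΨ w (Set.range fun v : Iio w => s v.1)
      (Cardinal.mk_range_le.trans_lt (Cardinal.mk_Iio_toType_ord_lt w))
    rw [← hseq] at h1
    exact h1
  refine ⟨fun t => s (j.symm t), ?_, ?_⟩
  · intro a b hab
    have hab' : s (j.symm a) = s (j.symm b) := hab
    rcases lt_trichotomy (j.symm a) (j.symm b) with h | h | h
    · exact absurd ⟨⟨j.symm a, h⟩, hab'⟩ (hprop (j.symm b)).2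
    · exact j.symm.injective h
    · exact absurd ⟨⟨j.symm b, h⟩, hab'.symm⟩ (hprop (j.symm a)).2
  · intro t
    have := (hprop (j.symm t)).1
    rw [Equiv.apply_symm_apply] at this
    exact this

/-- `κ ≤ 2^μ`: regular entries below the given ones -/
lemma low_tree_gen {κ μ : Cardinal.{u}} (hμ : ℵ₀ ≤ μ) (hsing : μ.ord.cof < μ) (hκ : κ ≤ 2 ^ μ)
    {Γ : Type u} {lam : Γ → Cardinal.{u}} (h2 : ∀ ν, 2 ≤ lam ν)
    (hE : ∀ ρ < μ, μ.ord.cof ≤ #{ν | ρ < lam ν}) :
    ∃ (lam' : Γ → Cardinal.{u}) (f : Finset κ.ord.ToType → Γ),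
      (∀ ν, 2 ≤ lam' ν ∧ lam' ν ≤ lam ν) ∧ (∃ ν, (lam' ν).IsRegular) ∧ NA lam' 2 f := by
  classical
  obtain ⟨bl, R, hR0, hRμ, hbR⟩ := blocks_self hμ hsing
  have hnonμ := nonempty_ordToType hμ
  obtain ⟨D, φ, hD, hφ⟩ := exists_treeDist μ.ord.ToType κ.ord.ToType
    (by rw [Cardinal.mk_ord_toType, Cardinal.mk_ord_toType]; exact hκ)
  have hθ : ℵ₀ ≤ μ.ord.cof := Ordinal.aleph0_le_cof.mpr (Cardinal.isSuccLimit_ord hμ)
  have hnonθ := nonempty_ordToType hθ
  set k0 : μ.ord.cof.ord.ToType := Classical.arbitrary _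
  have h2ℵ : (2 : Cardinal.{u}) ≤ ℵ₀ := by exact_mod_cast (Cardinal.natCast_lt_aleph0 (n := 2)).le
  have hTc : #(μ.ord.cof.ord.ToType × Bool) = μ.ord.cof := by
    rw [Cardinal.mk_prod, Cardinal.mk_ord_toType, Cardinal.lift_uzero, Cardinal.mk_bool]
    rw [Cardinal.lift_ofNat]
    exact Cardinal.mul_eq_left hθ (h2ℵ.trans hθ) two_ne_zero
  obtain ⟨ι, hι, hιE⟩ := sdr hTc (fun t => {ν | R t.1 < lam ν}) (fun t => hE _ (hRμ _))
  have hnonΓ : Nonempty Γ := ⟨ι (k0, true)⟩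
  obtain ⟨f, hf⟩ := pair_fun (fun x y : κ.ord.ToType => ι (bl (D x y), φ x (D x y)))
  set lam' : Γ → Cardinal.{u} := fun ν => if h : ∃ t, ι t = ν then Order.succ (R h.choose.1)
    else lam ν with hlam'
  have hl : ∀ t, lam' (ι t) = Order.succ (R t.1) := by
    intro t
    have hex : ∃ t', ι t' = ι t := ⟨t, rfl⟩
    have h1 : lam' (ι t) = Order.succ (R hex.choose.1) := dif_pos hex
    rw [h1, hι hex.choose_spec]
  have hcases : ∀ ν, 2 ≤ lam' ν ∧ lam' ν ≤ lam ν := by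
    intro ν
    by_cases h : ∃ t, ι t = ν
    · obtain ⟨t, rfl⟩ := h
      rw [hl t]
      exact ⟨h2ℵ.trans ((hR0 _).trans (Order.le_succ _)), Order.succ_le_of_lt (hιE t)⟩
    · have h1 : lam' ν = lam ν := dif_neg h
      rw [h1]
      exact ⟨h2 ν, le_rfl⟩
  refine ⟨lam', f, hcases, ⟨ι (k0, true), ?_⟩, NA_pair hf ?_⟩
  · rw [hl]
    exact Cardinal.isRegular_succ (hR0 _)
  · intro ν Y hY
    by_contra hcon
    push Not at hcon
    by_cases h : ∃ t, ι t = ν
    · obtain ⟨⟨k, b⟩, rfl⟩ := h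
      rw [hl] at hY
      have hk : ∀ x ∈ Y, ∀ y ∈ Y, x < y → bl (D x y) = k ∧ φ x (D x y) = b := by
        intro x hx y hy hxy
        have := hι (hcon x hx y hy hxy)
        exact ⟨congrArg Prod.fst this, congrArg Prod.snd this⟩
      rcases regular_dichotomy hD (H := Y) (by rw [hY]; exact Cardinal.isRegular_succ (hR0 _)) with
        ⟨K, hK, hKc, hKcomb⟩ | ⟨a, ha, b', hb', c, hc, d, hd, hab, hbc, hcd, h1, h2, h3, h4, h5⟩
      · obtain ⟨Z, hZ1, hZ2, _⟩ := comb_levels hD hKcomb 1 le_rfl (fun _ => k0) k0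
          (fun _ _ _ => rfl)
        have hZk : Z ⊆ {l | bl l = k} := by
          intro z hz
          obtain ⟨x, hx, w, hw, hxw, rfl⟩ := hZ2 z hz
          exact (hk x (hK hx) w (hK hw) hxw).1
        have h6 : #Z ≤ R k := (Cardinal.mk_le_mk_of_subset hZk).trans (hbR k)
        rw [hKc, hY] at hZ1
        have h7 : Order.succ (R k) ≤ R k := by
          calc Order.succ (R k) ≤ #Z + 1 := hZ1
            _ ≤ R k + 1 := by gcongr
            _ = R k := Cardinal.add_one_eq (hR0 k)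
        exact absurd h7 (not_le.mpr (Order.lt_succ _))
      · have e1 := (hk a ha b' hb' hab).2
        have e2 := (hk b' hb' c hc hbc).2
        rw [h3] at e2
        exact hφ a b' hab.ne (e1.trans e2.symm)
    · obtain ⟨s, hs, hs2⟩ := exists_finset_card (H := Y) (n := 2) (by
        rw [hY]; exact_mod_cast (hcases ν).1)
      obtain ⟨x, y, hxy, rfl⟩ := Finset.card_eq_two.mp hs2
      have hx : x ∈ Y := hs (by simp)
      have hy : y ∈ Y := hs (by simp)
      rcases lt_or_gt_of_ne hxy with h' | h'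
      · exact h ⟨_, hcon x hx y hy h'⟩
      · exact h ⟨_, hcon y hy x hx h'⟩

/-- `r = 2`: the largest entry is attained twice. -/
theorem two_max_twice {κ : Cardinal.{u}} (hκ : ℵ₀ ≤ κ) {Γ : Type u} {lam : Γ → Cardinal.{u}}
    (hlam : ∀ ν, (2 : Cardinal) ≤ lam ν ∧ lam ν ≤ κ) {f : Finset κ.ord.ToType → Γ}
    (hf : NA lam 2 f) {c0 c1 : Γ} (hne : c1 ≠ c0) {μ : Cardinal.{u}} (h0 : lam c0 = μ)
    (h1 : lam c1 = μ) (hmax : ∀ ν, lam ν ≤ μ) :
    ∃ g : Finset ((2 : Cardinal.{u}) ^ κ).ord.ToType → Γ, NA (fun ν => lam ν + 1) 3 g := by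
  classical
  by_cases hfin : μ < ℵ₀
  · exact main_two hκ hlam hf (Or.inl fun ν => (hmax ν).trans_lt hfin)
  have hμ : ℵ₀ ≤ μ := not_lt.mp hfin
  by_cases hreg : μ.IsRegular
  · exact main_two hκ hlam hf (Or.inr (Or.inl ⟨c1, by rw [h1]; exact hreg⟩))
  have hsing : μ.ord.cof < μ := by
    by_contra hcon
    exact hreg ⟨hμ, not_lt.mp hcon⟩
  have hθ : ℵ₀ ≤ μ.ord.cof := Ordinal.aleph0_le_cof.mpr (Cardinal.isSuccLimit_ord hμ)
  have hμ0 : ℵ₀ < μ := hθ.trans_lt hsing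
  by_cases hκμ : κ ≤ 2 ^< μ
  · exact two_large hκ hlam hf hne h1 hμ h0.ge hκμ
  by_cases hg : κ ≤ 2 ^ #{ν : Γ | (2 : Cardinal) < lam ν}
  · exact main_two hκ hlam hf (Or.inr (Or.inr (Cardinal.power_le_power_left two_ne_zero hg)))
  -- pass to the used colours
  have hlam2' : ∀ ν, ((2 : ℕ) : Cardinal) ≤ lam ν := fun ν => by
    exact_mod_cast (hlam ν).1
  have hL : ℵ₀ ≤ #κ.ord.ToType := by rw [Cardinal.mk_ord_toType]; exact hκ
  set E : Set Γ := {ν : Γ | ((2 : ℕ) : Cardinal) < lam ν} with hEdef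
  have hEeq : {ν : Γ | (2 : Cardinal) < lam ν} = E := by ext ν; simp [hEdef]
  rw [hEeq] at hg
  obtain ⟨f1, hf1⟩ : ∃ f1 : Finset κ.ord.ToType → E,
    ∀ s : Finset κ.ord.ToType, s.card = 2 → (f1 s).1 = f s := pos_color hf hlam2' hL
  have hNA1 : NA (fun ν : E => lam ν.1) 2 f1 := by
    intro ν Y hY
    obtain ⟨s, h3, h4, h5⟩ := hf ν.1 Y hY
    exact ⟨s, h3, h4, fun h => h5 (by rw [← hf1 s h3, h])⟩
  have hNAμ : NA (fun _ : E => μ) 2 f1 := hNA1.mono fun ν => hmax ν.1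
  have hgμ : #E < μ := by
    by_contra hcon
    push Not at hcon
    have h3 := pos_big hNAμ hμ hcon le_rfl
    rw [Cardinal.mk_ord_toType] at h3
    exact hg h3
  have hκ2 : κ ≤ 2 ^ μ := by
    have h3 := pos_big hNAμ hμ le_rfl hgμ.le
    rwa [Cardinal.mk_ord_toType] at h3
  have hEρ : ∀ ρ < μ, μ.ord.cof ≤ #{ν | ρ < lam ν} := by
    intro ρ hρ
    by_contra hcon
    push Not at hcon
    have h3 : #{ν : E | ρ < lam ν.1} ≤ #{ν | ρ < lam ν} := by
      refine Cardinal.mk_le_of_injective (f := fun ν => (⟨ν.1.1, ν.2⟩ : {ν | ρ < lam ν})) ?_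
      intro a b hab
      have h' := congrArg Subtype.val hab
      exact Subtype.ext (Subtype.ext h')
    have h4 := pos_small_gen hNA1 hμ0 hgμ (fun ν => hmax ν.1) hρ (h3.trans_lt hcon)
    rw [Cardinal.mk_ord_toType] at h4
    exact hκμ h4
  obtain ⟨lam', f', h3, h4, h5⟩ := low_tree_gen hμ hsing hκ2 (fun ν => (hlam ν).1) hEρ
  obtain ⟨g, hg⟩ := main_two hκ (fun ν => ⟨(h3 ν).1, (h3 ν).2.trans (hlam ν).2⟩) h5
    (Or.inr (Or.inl h4))
  exact ⟨g, hg.mono (fun ν => add_le_add (h3 ν).2 le_rfl)⟩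

end Pool.Agent.Run7.h584.NS
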