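import Mathlib
import Pool.Agent.Run7.h584.NS.MaxTwice

/-!
# `r = 2`: everything except one dominating singular entry
-/

open Cardinal Set

universe u

namespace Pool.Agent.Run7.h584.NS

open Pool.Agent.H330

/-- `r = 2`: for every `ρ < μ` at least `cf μ` entries are greater than `ρ`; all entries are at
most `μ`. -/
theorem two_cofinal {κ : Cardinal.{u}} (hκ : ℵ₀ ≤ κ) {Γ : Type u} {lam : Γ → Cardinal.{u}}
    (hlam : ∀ ν, (2 : Cardinal) ≤ lam ν ∧ lam ν ≤ κ) {f : Finset κ.ord.ToType → Γ}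
    (hf : NA lam 2 f) {μ : Cardinal.{u}} (hμ : ℵ₀ ≤ μ) (hmax : ∀ ν, lam ν ≤ μ)
    (hEρ : ∀ ρ < μ, μ.ord.cof ≤ #{ν | ρ < lam ν}) :
    ∃ g : Finset ((2 : Cardinal.{u}) ^ κ).ord.ToType → Γ, NA (fun ν => lam ν + 1) 3 g := by
  classical
  by_cases hg : κ ≤ 2 ^ #{ν : Γ | (2 : Cardinal) < lam ν}
  · exact main_two hκ hlam hf (Or.inr (Or.inr (Cardinal.power_le_power_left two_ne_zero hg)))
  have hlam2' : ∀ ν, ((2 : ℕ) : Cardinal) ≤ lam ν := fun ν => by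
    exact_mod_cast (hlam ν).1
  have hL : ℵ₀ ≤ #κ.ord.ToType := by rw [Cardinal.mk_ord_toType]; exact hκ
  set E : Set Γ := {ν : Γ | ((2 : ℕ) : Cardinal) < lam ν} with hEdef
  have hEeq : {ν : Γ | (2 : Cardinal) < lam ν} = E := by ext ν; simp [hEdef]
  rw [hEeq] at hg
  obtain ⟨f1, hf1⟩ : ∃ f1 : Finset κ.ord.ToType → E,
    ∀ s : Finset κ.ord.ToType, s.card = 2 → (f1 s).1 = f s := pos_color hf hlam2' hL
  have hNA1 : NA (fun ν : E => lam ν.1) 2 f1 := by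
    intro ν Y hY
    obtain ⟨s, h3, h4, h5⟩ := hf ν.1 Y hY
    exact ⟨s, h3, h4, fun h => h5 (by rw [← hf1 s h3, h])⟩
  have hNAμ : NA (fun _ : E => μ) 2 f1 := hNA1.mono fun ν => hmax ν.1
  have hgμ : #E < μ := by
    by_contra hcon
    push Not at hcon
    have h3 := pos_big hNAμ hμ hcon le_rfl
    rw [Cardinal.mk_ord_toType] at h3
    exact hg h3
  have hκ2 : κ ≤ 2 ^ μ := by
    have h3 := pos_big hNAμ hμ le_rfl hgμ.le
    rwa [Cardinal.mk_ord_toType] at h3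
  have hsing : μ.ord.cof < μ := by
    have h3 := hEρ 2 (by exact_mod_cast (Cardinal.natCast_lt_aleph0 (n := 2)).trans_le hμ)
    rw [hEeq] at h3
    exact h3.trans_lt hgμ
  obtain ⟨lam', f', h3, h4, h5⟩ := low_tree_gen hμ hsing hκ2 (fun ν => (hlam ν).1) hEρ
  obtain ⟨g, hg⟩ := main_two hκ (fun ν => ⟨(h3 ν).1, (h3 ν).2.trans (hlam ν).2⟩) h5
    (Or.inr (Or.inl h4))
  exact ⟨g, hg.mono (fun ν => add_le_add (h3 ν).2 le_rfl)⟩

/-- entries cofinal in `μ` and smaller than `μ` -/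
lemma many_entries {Γ : Type u} {lam : Γ → Cardinal.{u}} {μ : Cardinal.{u}} (I : Set Γ)
    (hI : ∀ ν ∈ I, lam ν < μ) (hcof : ∀ σ < μ, ∃ ν ∈ I, σ < lam ν) :
    ∀ ρ < μ, μ.ord.cof ≤ #{ν | ρ < lam ν} := by
  intro ρ hρ
  by_contra hcon
  push Not at hcon
  set J : Set Γ := {ν | ν ∈ I ∧ ρ < lam ν} with hJ
  have hJc : #J < μ.ord.cof := (Cardinal.mk_le_mk_of_subset fun ν hν => hν.2).trans_lt hcon
  have hsup : (⨆ ν : J, lam ν.1) < μ :=
    Cardinal.iSup_lt_of_lt_cof_ord hJc (fun ν => hI ν.1 ν.2.1)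
  obtain ⟨ν, hν, hν'⟩ := hcof (max ρ (⨆ ν : J, lam ν.1)) (max_lt hρ hsup)
  have h1 : ν ∈ J := ⟨hν, (le_max_left _ _).trans_lt hν'⟩
  have h2 : lam ν ≤ ⨆ ν : J, lam ν.1 :=
    le_ciSup (f := fun ν : J => lam ν.1) Cardinal.bddAbove_of_small (⟨ν, h1⟩ : J)
  exact absurd ((le_max_right _ _).trans_lt hν') (not_lt.mpr h2)

/-- `r = 2`: the theorem. -/
theorem main_two_dom {κ : Cardinal.{u}} (hκ : ℵ₀ ≤ κ) {Γ : Type u} {lam : Γ → Cardinal.{u}}
    (hlam : ∀ ν, (2 : Cardinal) ≤ lam ν ∧ lam ν ≤ κ) {f : Finset κ.ord.ToType → Γ}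
    (hf : NA lam 2 f)
    (hexc : ¬ ∃ ν₀, ℵ₀ ≤ lam ν₀ ∧ (lam ν₀).ord.cof < lam ν₀ ∧
      (∃ σ < lam ν₀, ∀ ν, ν ≠ ν₀ → lam ν ≤ σ) ∧ (∀ ν, ¬ (lam ν).IsRegular) ∧
      (∀ ν, ν ≠ ν₀ → 2 ^< lam ν < κ) ∧
      (2 : Cardinal.{u}) ^ ((2 : Cardinal.{u}) ^ #{ν : Γ | (2 : Cardinal) < lam ν}) < 2 ^ κ) :
    ∃ g : Finset ((2 : Cardinal.{u}) ^ κ).ord.ToType → Γ, NA (fun ν => lam ν + 1) 3 g := by
  classical
  by_cases hfin : ∀ ν, lam ν < ℵ₀
  · exact main_two hκ hlam hf (Or.inl hfin)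
  by_cases hreg : ∃ ν, (lam ν).IsRegular
  · exact main_two hκ hlam hf (Or.inr (Or.inl hreg))
  by_cases hsmall : (2 : Cardinal.{u}) ^ κ ≤
      2 ^ ((2 : Cardinal.{u}) ^ #{ν : Γ | (2 : Cardinal) < lam ν})
  · exact main_two hκ hlam hf (Or.inr (Or.inr hsmall))
  push Not at hfin hreg hsmall
  obtain ⟨ν1, hν1⟩ := hfin
  have hsing : ∀ ν, ℵ₀ ≤ lam ν → (lam ν).ord.cof < lam ν := by
    intro ν hν
    by_contra hcon
    exact hreg ν ⟨hν, not_lt.mp hcon⟩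
  -- the supremum of the entries
  set μ : Cardinal.{u} := ⨆ ν, lam ν with hμdef
  have hmax : ∀ ν, lam ν ≤ μ := fun ν => le_ciSup Cardinal.bddAbove_of_small ν
  have hμ : ℵ₀ ≤ μ := hν1.trans (hmax ν1)
  by_cases hatt : ∃ c0, lam c0 = μ
  · obtain ⟨c0, hc0⟩ := hatt
    by_cases htwice : ∃ c1, c1 ≠ c0 ∧ lam c1 = μ
    · obtain ⟨c1, hne, hc1⟩ := htwice
      exact two_max_twice hκ hlam hf hne hc0 hc1 hmax
    push Not at htwice
    have hless : ∀ ν, ν ≠ c0 → lam ν < μ := fun ν hν => lt_of_le_of_ne (hmax ν) (htwice ν hν)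
    by_cases hdom : ∃ σ < μ, ∀ ν, ν ≠ c0 → lam ν ≤ σ
    · -- one dominating entry
      by_cases hpow : ∀ ν, ν ≠ c0 → 2 ^< lam ν < κ
      · exact absurd ⟨c0, by rw [hc0]; exact hμ, hsing c0 (by rw [hc0]; exact hμ),
          by rw [hc0]; exact hdom, hreg, hpow, hsmall⟩ hexc
      · push Not at hpow
        obtain ⟨c1, hne, hκ1⟩ := hpow
        have hinf : ℵ₀ ≤ lam c1 := by
          by_contra hcon
          push Not at hcon
          have h2 : (2 : Cardinal.{u}) < ℵ₀ := by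
            exact_mod_cast Cardinal.natCast_lt_aleph0 (n := 2)
          have h3 : 2 ^< lam c1 ≤ (2 : Cardinal.{u}) ^ lam c1 :=
            Cardinal.powerlt_le.mpr fun ρ hρ =>
              Cardinal.power_le_power_left two_ne_zero hρ.le
          exact absurd (hκ.trans (hκ1.trans h3)) (not_le.mpr (Cardinal.power_lt_aleph0 h2 hcon))
        exact two_large hκ hlam hf hne rfl hinf (by rw [hc0]; exact hmax c1) hκ1
    · push Not at hdom
      refine two_cofinal hκ hlam hf hμ hmax (many_entries {ν | ν ≠ c0} hless ?_)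
      intro σ hσ
      exact hdom σ hσ
  · push Not at hatt
    refine two_cofinal hκ hlam hf hμ hmax (many_entries Set.univ
      (fun ν _ => lt_of_le_of_ne (hmax ν) (hatt ν)) ?_)
    intro σ hσ
    obtain ⟨ν, hν⟩ := exists_lt_of_lt_ciSup' hσ
    exact ⟨ν, Set.mem_univ _, hν⟩

end Pool.Agent.Run7.h584.NS
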