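import Mathlib
import Pool.Agent.Run7.h584.NS.TwoDom

/-!
# `r = 2`: an entry equal to the singular strong limit cardinal `κ`
-/

open Cardinal Set

universe u

namespace Pool.Agent.Run7.h584.NS

open Pool.Agent.H330

/-- colourings of triples from functions of three ordered points -/
lemma triple_fun {V Γ : Type u} [LinearOrder V] [Nonempty Γ] (G : V → V → V → Γ) :
    ∃ g : Finset V → Γ, ∀ s a b c, TwoSort s a b c → g s = G a b c := by
  classical
  refine ⟨fun s => if h : ∃ t : V × V × V, TwoSort s t.1 t.2.1 t.2.2 then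
    G h.choose.1 h.choose.2.1 h.choose.2.2 else Classical.arbitrary Γ, ?_⟩
  intro s a b c h
  have hex : ∃ t : V × V × V, TwoSort s t.1 t.2.1 t.2.2 := ⟨(a, b, c), h⟩
  obtain ⟨h1, h2, h3⟩ := two_unique hex.choose_spec h
  simp only [dif_pos hex]
  rw [h1, h2, h3]

section four

variable {V L : Type u} [LinearOrder V] [LinearOrder L] {D : V → V → L}

/-- the smallest distance in a triple -/
def lo (D : V → V → L) (a b c : V) : L := min (D a b) (min (D a c) (D b c))

/-- the largest distance in a triple -/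
def hi (D : V → V → L) (a b c : V) : L := max (D a b) (max (D a c) (D b c))

/-- the three shapes of a triple -/
lemma shapes (hD : TreeDist D) {a b c : V} (hab : a < b) (hbc : b < c) :
    (D a b = D a c ∧ D a b < D b c) ∨ (D a b = D b c ∧ D a b < D a c) ∨
      (D a c = D b c ∧ D a c < D a b) := by
  have hac := hab.trans hbc
  rcases lt_trichotomy (D a b) (D a c) with h | h | h
  · right; left
    have h1 := hD.iso a b c hab.ne hac.ne hbc.ne h
    exact ⟨h1.symm, h⟩
  · left
    exact ⟨h, hD.binary a b c hab.ne hac.ne hbc.ne h⟩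
  · right; right
    have h1 := hD.iso a c b hac.ne hab.ne hbc.ne' h
    rw [hD.symm c b] at h1
    exact ⟨h1.symm, h⟩

/-- in four points without triples whose largest point splits off first there is a chain of three
levels -/
lemma chain_of_four (hD : TreeDist D) {a b c d : V} (hab : a < b) (hbc : b < c) (hcd : c < d)
    (h1 : ¬ D a c < D a b) (h2 : ¬ D a d < D a b) (h3 : ¬ D a d < D a c) (h4 : ¬ D b d < D b c)
    {P : L → L → Prop} (p1 : P (lo D a b c) (hi D a b c)) (p2 : P (lo D a b d) (hi D a b d))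
    (p3 : P (lo D a c d) (hi D a c d)) (p4 : P (lo D b c d) (hi D b c d)) :
    ∃ i j k, P i j ∧ P j k ∧ P i k := by
  have hbd := hbc.trans hcd
  have hac := hab.trans hbc
  have s1 := shapes hD hab hbc
  have s2 := shapes hD hab hbd
  have s3 := shapes hD hac hcd
  have s4 := shapes hD hbc hcd
  have key : ∀ {x y z : V}, ¬ D x z < D x y →
      ((D x y = D x z ∧ D x y < D y z) ∨ (D x y = D y z ∧ D x y < D x z) ∨
      (D x z = D y z ∧ D x z < D x y)) →
      (D x y = D x z ∧ D x y < D y z ∧ lo D x y z = D x y ∧ hi D x y z = D y z) ∨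
      (D x y = D y z ∧ D x y < D x z ∧ lo D x y z = D x y ∧ hi D x y z = D x z) := by
    intro x y z hn h
    rcases h with ⟨e, l⟩ | ⟨e, l⟩ | ⟨e, l⟩
    · left
      refine ⟨e, l, ?_, ?_⟩
      · unfold lo; rw [← e]; rw [min_eq_left]; exact le_min le_rfl l.le
      · unfold hi; rw [← e]; rw [max_eq_right l.le, max_eq_right l.le]
    · right
      refine ⟨e, l, ?_, ?_⟩
      · unfold lo; rw [← e]; rw [min_eq_left]; exact le_min l.le le_rfl
      · unfold hi; rw [← e]; rw [max_eq_left l.le, max_eq_right l.le]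
    · exact absurd l hn
  rcases key h1 s1 with ⟨e1, l1, lo1, hi1⟩ | ⟨e1, l1, lo1, hi1⟩
  · -- `a` splits off first
    rw [lo1, hi1] at p1
    rcases key h4 s4 with ⟨e4, l4, lo4, hi4⟩ | ⟨e4, l4, lo4, hi4⟩
    · rw [lo4, hi4] at p4
      rcases key h3 s3 with ⟨e3, l3, lo3, hi3⟩ | ⟨e3, l3, lo3, hi3⟩
      · rw [lo3, hi3, ← e1] at p3
        exact ⟨_, _, _, p1, p4, p3⟩
      · -- impossible: D a c = D c d but D a b < D b c < D c d
        exfalso
        have : D a b < D c d := l1.trans l4
        rw [← e3, ← e1] at this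
        exact lt_irrefl _ this
    · rw [lo4, hi4] at p4
      rcases key h2 s2 with ⟨e2, l2, lo2, hi2⟩ | ⟨e2, l2, lo2, hi2⟩
      · rw [lo2, hi2] at p2
        exact ⟨_, _, _, p1, p4, p2⟩
      · exfalso
        have : D a b < D b d := l1.trans l4
        rw [← e2] at this
        exact lt_irrefl _ this
  · -- `b` splits off first
    rw [lo1, hi1] at p1
    rcases key h3 s3 with ⟨e3, l3, lo3, hi3⟩ | ⟨e3, l3, lo3, hi3⟩
    · rw [lo3, hi3] at p3
      rcases key h4 s4 with ⟨e4, l4, lo4, hi4⟩ | ⟨e4, l4, lo4, hi4⟩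
      · rw [lo4, hi4, ← e1] at p4
        exact ⟨_, _, _, p1, p3, p4⟩
      · exfalso
        have h5 : D a b < D c d := l1.trans l3
        rw [e1, e4] at h5
        exact lt_irrefl _ h5
    · rw [lo3, hi3] at p3
      rcases key h2 s2 with ⟨e2, l2, lo2, hi2⟩ | ⟨e2, l2, lo2, hi2⟩
      · exfalso
        have h5 : D a b < D a d := l1.trans l3
        rw [← e2] at h5
        exact lt_irrefl _ h5
      · rw [lo2, hi2] at p2
        exact ⟨_, _, _, p1, p3, p2⟩

end four

/-- `r = 2`: some entry is the singular strong limit cardinal `κ`, and `g` entries are larger than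
two, `cf κ ≤ 2^g`. -/
theorem dom_strong {κ : Cardinal.{u}} (hκ : ℵ₀ ≤ κ) (hsing : κ.ord.cof < κ)
    (hsl : ∀ ρ < κ, (2 : Cardinal.{u}) ^ ρ < κ) {Γ : Type u} {lam : Γ → Cardinal.{u}}
    (hlam : ∀ ν, (2 : Cardinal) ≤ lam ν) {c0 : Γ} (h0 : κ ≤ lam c0)
    (hinf : ℵ₀ ≤ #{ν : Γ | (2 : Cardinal) < lam ν})
    (hcof : κ.ord.cof ≤ 2 ^ #{ν : Γ | (2 : Cardinal) < lam ν}) :
    ∃ g : Finset ((2 : Cardinal.{u}) ^ κ).ord.ToType → Γ, NA (fun ν => lam ν + 1) 3 g := by
  classical
  have hnonL := nonempty_ordToType hκ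
  obtain ⟨D, φ, hD, hφ⟩ := exists_treeDist κ.ord.ToType ((2 : Cardinal.{u}) ^ κ).ord.ToType
    (by rw [Cardinal.mk_ord_toType, Cardinal.mk_ord_toType])
  obtain ⟨bl, R, hR0, hRκ, hbR⟩ := blocks_self hκ hsing
  -- the small colours
  set T : Type u := {ν : Γ // ν ≠ c0 ∧ (2 : Cardinal) < lam ν} with hTdef
  have hTc : #T = #{ν : Γ | (2 : Cardinal) < lam ν} := by
    have h1 : #{ν : Γ | (2 : Cardinal) < lam ν} ≤ #T + 1 := by
      have h2 : {ν : Γ | (2 : Cardinal) < lam ν} ⊆
          {ν : Γ | ν ≠ c0 ∧ (2 : Cardinal) < lam ν} ∪ {c0} := by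
        intro ν hν
        by_cases h : ν = c0
        · exact Or.inr h
        · exact Or.inl ⟨h, hν⟩
      refine (Cardinal.mk_le_mk_of_subset h2).trans ((Cardinal.mk_union_le _ _).trans ?_)
      rw [Cardinal.mk_singleton]
      rfl
    have h3 : #T ≤ #{ν : Γ | (2 : Cardinal) < lam ν} :=
      Cardinal.mk_le_of_injective (f := fun t : T => (⟨t.1, t.2.2⟩ : {ν | (2 : Cardinal) < lam ν}))
        (fun a b h => Subtype.ext (congrArg (fun x => x.1) h))
    refine le_antisymm h3 ?_
    have h4 : ℵ₀ ≤ #T := by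
      by_contra hcon
      push Not at hcon
      have h5 : #T + 1 < ℵ₀ := Cardinal.add_lt_aleph0 hcon Cardinal.one_lt_aleph0
      exact absurd (hinf.trans h1) (not_le.mpr h5)
    rwa [Cardinal.add_one_eq h4] at h1
  have hTinf : ℵ₀ ≤ #T := hTc ▸ hinf
  have h2ℵ : (2 : Cardinal.{u}) ≤ ℵ₀ := by exact_mod_cast (Cardinal.natCast_lt_aleph0 (n := 2)).le
  have hTT : #(T × Bool) = #T := by
    rw [Cardinal.mk_prod, Cardinal.lift_uzero, Cardinal.mk_bool, Cardinal.lift_ofNat]
    exact Cardinal.mul_eq_left hTinf (h2ℵ.trans hTinf) two_ne_zero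
  obtain ⟨ι⟩ := Cardinal.eq.mp hTT
  -- the separating functions
  have hc : #κ.ord.cof.ord.ToType ≤ #(T → ULift.{u} Bool) := by
    rw [Cardinal.mk_ord_toType]
    have : #(T → ULift.{u} Bool) = 2 ^ #T := by
      rw [← Cardinal.power_def]; simp
    rw [this, hTc]
    exact hcof
  obtain ⟨cf⟩ := Cardinal.le_def _ _ |>.mp hc
  have hδ : ∀ k l : κ.ord.cof.ord.ToType, ∃ t : T, k ≠ l → cf k t ≠ cf l t := by
    intro k l
    by_cases h : k = l
    · have hne : Nonempty T := by
        rw [← Cardinal.mk_ne_zero_iff]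
        exact (lt_of_lt_of_le Cardinal.aleph0_pos hTinf).ne'
      exact ⟨Classical.choice hne, fun h' => absurd h h'⟩
    · obtain ⟨t, ht⟩ := Function.ne_iff.mp (fun h' => h (cf.injective h'))
      exact ⟨t, fun _ => ht⟩
  choose δ hδ using hδ
  have hnonΓ : Nonempty Γ := ⟨c0⟩
  obtain ⟨g, hg⟩ := triple_fun (fun a b c : ((2 : Cardinal.{u}) ^ κ).ord.ToType =>
    if bl (lo D a b c) = bl (hi D a b c) then c0
    else (ι (δ (bl (lo D a b c)) (bl (hi D a b c)), decide (D a c < D a b))).1)
  refine ⟨g, ?_⟩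
  intro ν Y hY
  by_contra hcon
  push Not at hcon
  have hom : ∀ a ∈ Y, ∀ b ∈ Y, ∀ c ∈ Y, a < b → b < c →
      (if bl (lo D a b c) = bl (hi D a b c) then c0
        else (ι (δ (bl (lo D a b c)) (bl (hi D a b c)), decide (D a c < D a b))).1) = ν := by
    intro a ha b hb c hc hab hbc
    obtain ⟨s, hs, hs'⟩ := two_triple hab hbc
    rw [← hg s a b c hs']
    exact hcon s hs (hs'.sub ha hb hc)
  by_cases hν : ν = c0
  · -- all distances are in the same block
    subst hν
    have hbb : ∀ a ∈ Y, ∀ b ∈ Y, ∀ c ∈ Y, a < b → b < c → bl (lo D a b c) = bl (hi D a b c) := by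
      intro a ha b hb c hc hab hbc
      have h1 := hom a ha b hb c hc hab hbc
      by_contra h2
      rw [if_neg h2] at h1
      exact (ι (δ (bl (lo D a b c)) (bl (hi D a b c)), decide (D a c < D a b))).2.1 h1
    have hbb2 : ∀ a ∈ Y, ∀ b ∈ Y, ∀ c ∈ Y, a < b → b < c →
        bl (D a b) = bl (D b c) ∧ bl (D a b) = bl (D a c) := by
      intro a ha b hb c hc hab hbc
      have h1 := hbb a ha b hb c hc hab hbc
      rcases shapes hD hab hbc with ⟨e, l⟩ | ⟨e, l⟩ | ⟨e, l⟩
      · have h2 : lo D a b c = D a b := by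
          unfold lo; rw [← e]; rw [min_eq_left]; exact le_min le_rfl l.le
        have h3 : hi D a b c = D b c := by
          unfold hi; rw [← e]; rw [max_eq_right l.le, max_eq_right l.le]
        rw [h2, h3] at h1
        exact ⟨h1, by rw [e]⟩
      · have h2 : lo D a b c = D a b := by
          unfold lo; rw [← e]; rw [min_eq_left]; exact le_min l.le le_rfl
        have h3 : hi D a b c = D a c := by
          unfold hi; rw [← e]; rw [max_eq_left l.le, max_eq_right l.le]
        rw [h2, h3] at h1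
        exact ⟨by rw [e], h1⟩
      · have h2 : lo D a b c = D a c := by
          unfold lo; rw [← e]; rw [min_self]; exact min_eq_right l.le
        have h3 : hi D a b c = D a b := by
          unfold hi; rw [← e]; rw [max_self]; exact max_eq_left l.le
        rw [h2, h3] at h1
        exact ⟨by rw [← h1, e], h1.symm⟩
    have hpair : ∀ a ∈ Y, ∀ b ∈ Y, ∀ c ∈ Y, a ≠ b → a ≠ c → b ≠ c → bl (D a b) = bl (D a c) := by
      intro a ha b hb c hc hab hac hbc
      have hs := hD.symm
      rcases lt_or_gt_of_ne hab with h1 | h1 <;> rcases lt_or_gt_of_ne hac with h2 | h2 <;>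
        rcases lt_or_gt_of_ne hbc with h3 | h3
      · exact (hbb2 a ha b hb c hc h1 h3).2
      · exact ((hbb2 a ha c hc b hb h2 h3).2).symm
      · exact absurd (h1.trans h3) h2.asymm
      · have := (hbb2 c hc a ha b hb h2 h1).1
        rw [hs c a] at this
        exact this.symm
      · have := (hbb2 b hb a ha c hc h1 h2).1
        rw [hs b a] at this
        exact this
      · exact absurd (h2.trans h3) h1.asymm
      · have := (hbb2 b hb c hc a ha h3 h2)
        rw [hs b a, hs c a] at this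
        rw [← this.2, this.1]
      · have := (hbb2 c hc b hb a ha h3 h1)
        rw [hs b a, hs c a] at this
        rw [← this.2, this.1]
    have hYκ : κ ≤ #Y := by
      rw [hY]; exact h0.trans (self_le_add_right _ _)
    -- a fixed pair
    obtain ⟨s, hs, hs2⟩ := exists_finset_card (H := Y) (n := 2) (by
      exact le_trans (by exact_mod_cast (Cardinal.natCast_lt_aleph0 (n := 2)).le) (hκ.trans hYκ))
    obtain ⟨x, y, hxy, rfl⟩ := Finset.card_eq_two.mp hs2
    have hx : x ∈ Y := hs (by simp)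
    have hy : y ∈ Y := hs (by simp)
    set k := bl (D x y) with hk
    have hxz : ∀ z ∈ Y, z ≠ x → bl (D x z) = k := by
      intro z hz hzx
      by_cases h : z = y
      · rw [h]
      · exact hpair x hx z hz y hy hzx.symm hxy h
    have hall : ∀ z ∈ Y, ∀ w ∈ Y, z ≠ w → bl (D z w) = k := by
      intro z hz w hw hzw
      by_cases h1 : z = x
      · rw [h1]; exact hxz w hw (fun h => hzw (by rw [h1, h]))
      by_cases h2 : w = x
      · rw [h2, hD.symm]; exact hxz z hz h1
      · rw [hpair z hz w hw x hx hzw h1 h2, hD.symm]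
        exact hxz z hz h1
    have hinj : #Y ≤ #({l : κ.ord.ToType | bl l = k} → ULift.{u} Bool) := by
      refine Cardinal.mk_le_of_injective (f := fun z : Y => fun l => ULift.up (φ z.1 l.1)) ?_
      intro z w hzw
      by_contra hne
      have hne' : z.1 ≠ w.1 := fun h => hne (Subtype.ext h)
      have h1 := congrFun hzw ⟨D z.1 w.1, hall z.1 z.2 w.1 w.2 hne'⟩
      have h2 : φ z.1 (D z.1 w.1) = φ w.1 (D z.1 w.1) := congrArg ULift.down h1
      exact hφ z.1 w.1 hne' h2
    have hlast : #Y < κ := by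
      refine hinj.trans_lt ?_
      have h1 : #({l : κ.ord.ToType | bl l = k} → ULift.{u} Bool) =
          2 ^ #{l : κ.ord.ToType | bl l = k} := by
        rw [← Cardinal.power_def]; simp
      rw [h1]
      exact (Cardinal.power_le_power_left two_ne_zero (hbR k)).trans_lt (hsl _ (hRκ k))
    exact absurd hYκ (not_le.mpr hlast)
  · -- a small colour
    have hcol : ∀ a ∈ Y, ∀ b ∈ Y, ∀ c ∈ Y, a < b → b < c →
        bl (lo D a b c) ≠ bl (hi D a b c) ∧
        (ι (δ (bl (lo D a b c)) (bl (hi D a b c)), decide (D a c < D a b))).1 = ν := by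
      intro a ha b hb c hc hab hbc
      have h1 := hom a ha b hb c hc hab hbc
      by_cases h2 : bl (lo D a b c) = bl (hi D a b c)
      · rw [if_pos h2] at h1
        exact absurd h1.symm hν
      · rw [if_neg h2] at h1
        exact ⟨h2, h1⟩
    have h3Y : ((3 : ℕ) : Cardinal.{u}) ≤ #Y := by
      rw [hY]
      have := add_le_add (hlam ν) (le_refl (1 : Cardinal.{u}))
      refine le_trans (le_of_eq ?_) this
      norm_num
    -- the colour is used
    have hused : (2 : Cardinal) < lam ν := by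
      obtain ⟨s, hs, hs2⟩ := exists_finset_card (H := Y) (n := 3) h3Y
      obtain ⟨a, b, c, hab, hbc, hm⟩ := two_exists hs2
      have ha : a ∈ Y := hs (Finset.mem_coe.mpr ((hm a).mpr (Or.inl rfl)))
      have hb : b ∈ Y := hs (Finset.mem_coe.mpr ((hm b).mpr (Or.inr (Or.inl rfl))))
      have hc : c ∈ Y := hs (Finset.mem_coe.mpr ((hm c).mpr (Or.inr (Or.inr rfl))))
      have h1 := (hcol a ha b hb c hc hab hbc).2
      rw [← h1]
      exact (ι (δ (bl (lo D a b c)) (bl (hi D a b c)), decide (D a c < D a b))).2.2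
    have h4Y : ((4 : ℕ) : Cardinal.{u}) ≤ #Y := by
      rw [hY]
      change ((4 : ℕ) : Cardinal.{u}) ≤ lam ν + 1
      by_cases hfin : lam ν < ℵ₀
      · obtain ⟨n, hn⟩ := Cardinal.lt_aleph0.mp hfin
        rw [hn] at hused ⊢
        have h1 : 2 < n := by exact_mod_cast hused
        have h2 : 4 ≤ n + 1 := by omega
        exact_mod_cast h2
      · exact (Cardinal.natCast_lt_aleph0 (n := 4)).le.trans
          ((not_lt.mp hfin).trans (self_le_add_right _ _))
    obtain ⟨s, hs, hs2⟩ := exists_finset_card (H := Y) (n := 4) h4Y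
    obtain ⟨a, b, c, d, hab, hbc, hcd, ha, hb, hc, hd⟩ : ∃ a b c d, a < b ∧ b < c ∧ c < d ∧
        a ∈ Y ∧ b ∈ Y ∧ c ∈ Y ∧ d ∈ Y := by
      refine ⟨s.orderEmbOfFin hs2 0, s.orderEmbOfFin hs2 1, s.orderEmbOfFin hs2 2,
        s.orderEmbOfFin hs2 3, (s.orderEmbOfFin hs2).strictMono (by decide),
        (s.orderEmbOfFin hs2).strictMono (by decide), (s.orderEmbOfFin hs2).strictMono (by decide),
        hs (Finset.orderEmbOfFin_mem _ _ _), hs (Finset.orderEmbOfFin_mem _ _ _),
        hs (Finset.orderEmbOfFin_mem _ _ _), hs (Finset.orderEmbOfFin_mem _ _ _)⟩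
    have hac := hab.trans hbc
    have hbd := hbc.trans hcd
    have had := hab.trans hbd
    -- all triples have the same flag and the same coordinate
    obtain ⟨n1, q1⟩ := hcol a ha b hb c hc hab hbc
    obtain ⟨n2, q2⟩ := hcol a ha b hb d hd hab hbd
    obtain ⟨n3, q3⟩ := hcol a ha c hc d hd hac hcd
    obtain ⟨n4, q4⟩ := hcol b hb c hc d hd hbc hcd
    have e12 := ι.injective (Subtype.ext (q1.trans q2.symm))
    have e13 := ι.injective (Subtype.ext (q1.trans q3.symm))
    have e14 := ι.injective (Subtype.ext (q1.trans q4.symm))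
    rw [Prod.mk.injEq] at e12 e13 e14
    set t := δ (bl (lo D a b c)) (bl (hi D a b c)) with ht
    have hno : ∀ i j k : κ.ord.ToType, (bl i ≠ bl j ∧ δ (bl i) (bl j) = t) →
        (bl j ≠ bl k ∧ δ (bl j) (bl k) = t) → (bl i ≠ bl k ∧ δ (bl i) (bl k) = t) → False := by
      rintro i j k ⟨h1, h2⟩ ⟨h3, h4⟩ ⟨h5, h6⟩
      have g1 := hδ _ _ h1
      have g2 := hδ _ _ h3
      have g3 := hδ _ _ h5
      rw [h2] at g1
      rw [h4] at g2
      rw [h6] at g3
      have b1 : (cf (bl i) t).down ≠ (cf (bl j) t).down := fun h => g1 (ULift.ext _ _ h)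
      have b2 : (cf (bl j) t).down ≠ (cf (bl k) t).down := fun h => g2 (ULift.ext _ _ h)
      have b3 : (cf (bl i) t).down ≠ (cf (bl k) t).down := fun h => g3 (ULift.ext _ _ h)
      generalize (cf (bl i) t).down = x at b1 b3
      generalize (cf (bl j) t).down = y at b1 b2
      generalize (cf (bl k) t).down = z at b2 b3
      cases x <;> cases y <;> cases z <;> simp_all
    by_cases hfl : D a c < D a b
    · have f2 : D a d < D a b := by
        have := e12.2
        rw [decide_eq_true hfl] at this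
        exact of_decide_eq_true this.symm
      have f3 : D a d < D a c := by
        have := e13.2
        rw [decide_eq_true hfl] at this
        exact of_decide_eq_true this.symm
      have f4 : D b d < D b c := by
        have := e14.2
        rw [decide_eq_true hfl] at this
        exact of_decide_eq_true this.symm
      have key : ∀ {x y z : ((2 : Cardinal.{u}) ^ κ).ord.ToType}, x < y → y < z →
          D x z < D x y → D x z = D y z ∧ lo D x y z = D x z ∧ hi D x y z = D x y := by
        intro x y z hxy hyz hlt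
        have hs := shapes hD hxy hyz
        rcases hs with ⟨e, l⟩ | ⟨e, l⟩ | ⟨e, l⟩
        · exact absurd (e ▸ hlt) (lt_irrefl _)
        · exact absurd hlt l.asymm
        · refine ⟨e, ?_, ?_⟩
          · unfold lo; rw [← e]; rw [min_self]; exact min_eq_right l.le
          · unfold hi; rw [← e]; rw [max_self]; exact max_eq_left l.le
      obtain ⟨u1, u2, u3⟩ := key hab hbc hfl
      obtain ⟨v1, v2, v3⟩ := key hab hbd f2
      obtain ⟨w1, w2, w3⟩ := key hac hcd f3
      refine hno (D a d) (D a c) (D a b) ?_ ?_ ?_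
      · rw [← w2, ← w3]
        exact ⟨n3, e13.1.symm⟩
      · rw [← u2, ← u3]
        exact ⟨n1, ht.symm⟩
      · rw [← v2, ← v3]
        exact ⟨n2, e12.1.symm⟩
    · have f2 : ¬ D a d < D a b := by
        have := e12.2
        rw [decide_eq_false hfl] at this
        exact of_decide_eq_false this.symm
      have f3 : ¬ D a d < D a c := by
        have := e13.2
        rw [decide_eq_false hfl] at this
        exact of_decide_eq_false this.symm
      have f4 : ¬ D b d < D b c := by
        have := e14.2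
        rw [decide_eq_false hfl] at this
        exact of_decide_eq_false this.symm
      obtain ⟨i, j, k, hij, hjk, hik⟩ := chain_of_four hD hab hbc hcd hfl f2 f3 f4
        (P := fun l m => bl l ≠ bl m ∧ δ (bl l) (bl m) = t) ⟨n1, ht.symm⟩ ⟨n2, e12.1.symm⟩
        ⟨n3, e13.1.symm⟩ ⟨n4, e14.1.symm⟩
      exact hno i j k hij hjk hik

/-- the pairs: `κ ↛ (lam ν)²` in the situation of `dom_strong` -/
theorem pair_strong {κ : Cardinal.{u}} (hκ : ℵ₀ ≤ κ) (hsing : κ.ord.cof < κ) {Γ : Type u}
    {lam : Γ → Cardinal.{u}} (hlam : ∀ ν, (2 : Cardinal) ≤ lam ν) {c0 : Γ} (h0 : κ ≤ lam c0)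
    (hinf : ℵ₀ ≤ #{ν : Γ | (2 : Cardinal) < lam ν})
    (hcof : κ.ord.cof ≤ 2 ^ #{ν : Γ | (2 : Cardinal) < lam ν}) :
    ∃ f : Finset κ.ord.ToType → Γ, NA lam 2 f := by
  classical
  have hnonL := nonempty_ordToType hκ
  obtain ⟨bl, R, hR0, hRκ, hbR⟩ := blocks_self hκ hsing
  set T : Type u := {ν : Γ // ν ≠ c0 ∧ (2 : Cardinal) < lam ν} with hTdef
  have hTc : #T = #{ν : Γ | (2 : Cardinal) < lam ν} := by
    have h1 : #{ν : Γ | (2 : Cardinal) < lam ν} ≤ #T + 1 := by
      have h2 : {ν : Γ | (2 : Cardinal) < lam ν} ⊆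
          {ν : Γ | ν ≠ c0 ∧ (2 : Cardinal) < lam ν} ∪ {c0} := by
        intro ν hν
        by_cases h : ν = c0
        · exact Or.inr h
        · exact Or.inl ⟨h, hν⟩
      refine (Cardinal.mk_le_mk_of_subset h2).trans ((Cardinal.mk_union_le _ _).trans ?_)
      rw [Cardinal.mk_singleton]
      rfl
    have h3 : #T ≤ #{ν : Γ | (2 : Cardinal) < lam ν} :=
      Cardinal.mk_le_of_injective (f := fun t : T => (⟨t.1, t.2.2⟩ : {ν | (2 : Cardinal) < lam ν}))
        (fun a b h => Subtype.ext (congrArg (fun x => x.1) h))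
    refine le_antisymm h3 ?_
    have h4 : ℵ₀ ≤ #T := by
      by_contra hcon
      push Not at hcon
      have h5 : #T + 1 < ℵ₀ := Cardinal.add_lt_aleph0 hcon Cardinal.one_lt_aleph0
      exact absurd (hinf.trans h1) (not_le.mpr h5)
    rwa [Cardinal.add_one_eq h4] at h1
  have hTinf : ℵ₀ ≤ #T := hTc ▸ hinf
  have hc : #κ.ord.cof.ord.ToType ≤ #(T → ULift.{u} Bool) := by
    rw [Cardinal.mk_ord_toType]
    have : #(T → ULift.{u} Bool) = 2 ^ #T := by
      rw [← Cardinal.power_def]; simp
    rw [this, hTc]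
    exact hcof
  obtain ⟨cf⟩ := Cardinal.le_def _ _ |>.mp hc
  have hδ : ∀ k l : κ.ord.cof.ord.ToType, ∃ t : T, k ≠ l → cf k t ≠ cf l t := by
    intro k l
    by_cases h : k = l
    · have hne : Nonempty T := by
        rw [← Cardinal.mk_ne_zero_iff]
        exact (lt_of_lt_of_le Cardinal.aleph0_pos hTinf).ne'
      exact ⟨Classical.choice hne, fun h' => absurd h h'⟩
    · obtain ⟨t, ht⟩ := Function.ne_iff.mp (fun h' => h (cf.injective h'))
      exact ⟨t, fun _ => ht⟩
  choose δ hδ using hδ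
  have hnonΓ : Nonempty Γ := ⟨c0⟩
  obtain ⟨f, hf⟩ := pair_fun (fun x y : κ.ord.ToType =>
    if bl x = bl y then c0 else (δ (bl x) (bl y)).1)
  refine ⟨f, NA_pair hf ?_⟩
  intro ν Y hY
  by_contra hcon
  push Not at hcon
  by_cases hν : ν = c0
  · subst hν
    have hsame : ∀ x ∈ Y, ∀ y ∈ Y, x < y → bl x = bl y := by
      intro x hx y hy hxy
      have h1 := hcon x hx y hy hxy
      by_contra h2
      rw [if_neg h2] at h1
      exact (δ (bl x) (bl y)).2.1 h1
    have hYκ : κ ≤ #Y := by rw [hY]; exact h0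
    obtain ⟨s, hs, hs2⟩ := exists_finset_card (H := Y) (n := 1) (by
      exact le_trans (by exact_mod_cast (Cardinal.natCast_lt_aleph0 (n := 1)).le) (hκ.trans hYκ))
    obtain ⟨x, rfl⟩ := Finset.card_eq_one.mp hs2
    have hx : x ∈ Y := hs (by simp)
    have hsub : Y ⊆ {l | bl l = bl x} := by
      intro y hy
      rcases lt_trichotomy x y with h | h | h
      · exact (hsame x hx y hy h).symm
      · rw [h]; rfl
      · exact hsame y hy x hx h
    have := ((Cardinal.mk_le_mk_of_subset hsub).trans (hbR (bl x))).trans_lt (hRκ _)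
    exact absurd hYκ (not_le.mpr this)
  · have hcol : ∀ x ∈ Y, ∀ y ∈ Y, x < y → bl x ≠ bl y ∧ (δ (bl x) (bl y)).1 = ν := by
      intro x hx y hy hxy
      have h1 := hcon x hx y hy hxy
      by_cases h2 : bl x = bl y
      · rw [if_pos h2] at h1
        exact absurd h1.symm hν
      · rw [if_neg h2] at h1
        exact ⟨h2, h1⟩
    have hused : (2 : Cardinal) < lam ν := by
      obtain ⟨s, hs, hs2⟩ := exists_finset_card (H := Y) (n := 2) (by
        rw [hY]; exact_mod_cast hlam ν)
      obtain ⟨x, y, hxy, rfl⟩ := Finset.card_eq_two.mp hs2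
      have hx : x ∈ Y := hs (by simp)
      have hy : y ∈ Y := hs (by simp)
      rcases lt_or_gt_of_ne hxy with h | h
      · rw [← (hcol x hx y hy h).2]; exact (δ (bl x) (bl y)).2.2
      · rw [← (hcol y hy x hx h).2]; exact (δ (bl y) (bl x)).2.2
    have h3Y : ((3 : ℕ) : Cardinal.{u}) ≤ #Y := by
      rw [hY]
      by_cases hfin : lam ν < ℵ₀
      · obtain ⟨n, hn⟩ := Cardinal.lt_aleph0.mp hfin
        rw [hn] at hused ⊢
        have h1 : 2 < n := by exact_mod_cast hused
        have h2 : 3 ≤ n := by omega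
        exact_mod_cast h2
      · exact (Cardinal.natCast_lt_aleph0 (n := 3)).le.trans (not_lt.mp hfin)
    obtain ⟨s, hs, hs2⟩ := exists_finset_card (H := Y) (n := 3) h3Y
    obtain ⟨a, b, c, hab, hbc, hm⟩ := two_exists hs2
    have ha : a ∈ Y := hs (Finset.mem_coe.mpr ((hm a).mpr (Or.inl rfl)))
    have hb : b ∈ Y := hs (Finset.mem_coe.mpr ((hm b).mpr (Or.inr (Or.inl rfl))))
    have hc : c ∈ Y := hs (Finset.mem_coe.mpr ((hm c).mpr (Or.inr (Or.inr rfl))))
    obtain ⟨m1, r1⟩ := hcol a ha b hb hab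
    obtain ⟨m2, r2⟩ := hcol b hb c hc hbc
    obtain ⟨m3, r3⟩ := hcol a ha c hc (hab.trans hbc)
    have g1 := hδ _ _ m1
    have g2 := hδ _ _ m2
    have g3 := hδ _ _ m3
    have e2 : δ (bl b) (bl c) = δ (bl a) (bl b) := Subtype.ext (r2.trans r1.symm)
    have e3 : δ (bl a) (bl c) = δ (bl a) (bl b) := Subtype.ext (r3.trans r1.symm)
    rw [e2] at g2
    rw [e3] at g3
    generalize δ (bl a) (bl b) = t at g1 g2 g3
    have b1 : (cf (bl a) t).down ≠ (cf (bl b) t).down := fun h => g1 (ULift.ext _ _ h)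
    have b2 : (cf (bl b) t).down ≠ (cf (bl c) t).down := fun h => g2 (ULift.ext _ _ h)
    have b3 : (cf (bl a) t).down ≠ (cf (bl c) t).down := fun h => g3 (ULift.ext _ _ h)
    generalize (cf (bl a) t).down = x at b1 b3
    generalize (cf (bl b) t).down = y at b1 b2
    generalize (cf (bl c) t).down = z at b2 b3
    cases x <;> cases y <;> cases z <;> simp_all

end Pool.Agent.Run7.h584.NS
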